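import Pool.Agent.Lib.MP_b07157_ag.GN.Abs

/-!
# A2. Division by the elements with leading coefficient `a`
-/

noncomputable section

namespace MPb07157.GN

open MvPolynomial

variable {σ : Type} {R : Type} [CommRing R]

/-- A2. Division.  `E = {m.degree P | P ∈ I, P ≠ 0}`, `H e` = the element of `GB` (by choice).
Induction on `m.toSyn (m.degree P)` (well founded): if `P ≠ 0`, then
`P' = a • P - lc(P) • H (m.degree P)` lies in `I`, and `P' = 0` or `m.degree P' ≺ m.degree P`; if
`a ^ N • P' = ∑ ν_e H e` then `a ^ (N + 1) • P = ∑ ν_e H e + (a ^ N * lc(P)) • H (m.degree P)`. -/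
theorem GB.family [IsDomain R] {m : MonomialOrder σ} {I : Submodule R (MvPolynomial σ R)} {a : R}
    (h : GB m I a) :
    ∃ (E : Set (σ →₀ ℕ)) (H : (σ →₀ ℕ) → MvPolynomial σ R),
      (∀ e ∈ E, H e ∈ I ∧ m.degree (H e) = e ∧ m.leadingCoeff (H e) = a) ∧
      ∀ P ∈ I, ∃ (N : ℕ) (ν : (σ →₀ ℕ) →₀ R), (∀ e ∈ ν.support, e ∈ E) ∧
        a ^ N • P = ν.sum fun e r => r • H e := by
  classical
  let E : Set (σ →₀ ℕ) := {e | ∃ P ∈ I, P ≠ 0 ∧ m.degree P = e}
  have hE : ∀ e ∈ E, ∃ g ∈ I, m.degree g = e ∧ m.leadingCoeff g = a := by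
    rintro e ⟨P, hP, hP0, rfl⟩
    exact h P hP hP0
  let H : (σ →₀ ℕ) → MvPolynomial σ R := fun e => if he : e ∈ E then (hE e he).choose else 0
  have hH : ∀ e ∈ E, H e ∈ I ∧ m.degree (H e) = e ∧ m.leadingCoeff (H e) = a := by
    intro e he
    have : H e = (hE e he).choose := dif_pos he
    rw [this]
    exact (hE e he).choose_spec
  refine ⟨E, H, hH, ?_⟩
  have key : ∀ d : m.syn, ∀ P ∈ I, m.toSyn (m.degree P) = d →
      ∃ (N : ℕ) (ν : (σ →₀ ℕ) →₀ R), (∀ e ∈ ν.support, e ∈ E) ∧
        a ^ N • P = ν.sum fun e r => r • H e := by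
    intro d
    induction d using WellFoundedLT.induction with
    | ind d ih =>
      intro P hP hd
      by_cases hP0 : P = 0
      · exact ⟨0, 0, by simp, by simp [hP0]⟩
      set e := m.degree P with he
      have heE : e ∈ E := ⟨P, hP, hP0, rfl⟩
      obtain ⟨hHI, hHd, hHl⟩ := hH e heE
      set P' := a • P - m.leadingCoeff P • H e with hP'
      have hP'I : P' ∈ I := I.sub_mem (I.smul_mem _ hP) (I.smul_mem _ hHI)
      obtain ⟨N, ν, hν, hsum⟩ : ∃ (N : ℕ) (ν : (σ →₀ ℕ) →₀ R), (∀ e ∈ ν.support, e ∈ E) ∧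
          a ^ N • P' = ν.sum fun e r => r • H e := by
        by_cases hP'0 : P' = 0
        · exact ⟨0, 0, by simp, by simp [hP'0]⟩
        refine ih (m.toSyn (m.degree P')) ?_ P' hP'I rfl
        have hle : m.toSyn (m.degree P') ≤ m.toSyn e := by
          refine (m.degree_sub_le (f := a • P) (g := m.leadingCoeff P • H e)).trans ?_
          refine max_le ((m.degree_smul_le).trans_eq rfl) ((m.degree_smul_le).trans_eq ?_)
          rw [hHd]
        have hne : m.degree P' ≠ e := by
          intro heq
          have h1 : m.leadingCoeff P' ≠ 0 := m.leadingCoeff_ne_zero_iff.2 hP'0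
          apply h1
          have h2 : m.leadingCoeff P' = P'.coeff (m.degree P') := rfl
          have h3 : (H e).coeff e = a := by
            rw [← hHl]
            show (H e).coeff e = (H e).coeff (m.degree (H e))
            rw [hHd]
          have h4 : P.coeff e = m.leadingCoeff P := rfl
          rw [h2, heq, hP', coeff_sub, coeff_smul, coeff_smul, h3, h4, smul_eq_mul, smul_eq_mul]
          ring
        rw [← hd]
        exact lt_of_le_of_ne hle fun h => hne (m.toSyn.injective h)
      refine ⟨N + 1, ν + Finsupp.single e (a ^ N * m.leadingCoeff P), ?_, ?_⟩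
      · intro e' he'
        rcases Finset.mem_union.1 (Finsupp.support_add he') with h1 | h1
        · exact hν e' h1
        · rw [Finset.mem_singleton.1 (Finsupp.support_single_subset h1)]
          exact heE
      · rw [Finsupp.sum_add_index' (by intro; simp) (by intro _ _ _; rw [add_smul]), ← hsum,
          Finsupp.sum_single_index (by simp), hP', smul_sub, smul_smul, smul_smul, ← pow_succ]
        simp
  exact fun P hP => key _ P hP rfl

end MPb07157.GN
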