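import Pool.Agent.Lib.MP_b07157_ag.GN.Abs

/-!
# A3. Triangularity after specialization
-/

noncomputable section

namespace MPb07157.GN

open MvPolynomial

variable {σ : Type} {R B : Type} [CommRing R] [Field B]

/-- A3. The elements `map φ (H e)`, `e ∈ E`, have pairwise different degrees `e` (the coefficient
of `map φ (H e)` at `e` is `φ a ≠ 0`, all other monomials are smaller).  So in a linear combination
with nonzero coefficients the largest `e ∈ ν.support` is the degree of the sum, and the sum is not
zero. -/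
theorem tri {m : MonomialOrder σ} {a : R} {E : Set (σ →₀ ℕ)} {H : (σ →₀ ℕ) → MvPolynomial σ R}
    (hH : ∀ e ∈ E, m.degree (H e) = e ∧ m.leadingCoeff (H e) = a) (φ : R →+* B) (ha : φ a ≠ 0)
    (ν : (σ →₀ ℕ) →₀ B) (hν : ∀ e ∈ ν.support, e ∈ E) :
    ((ν.sum fun e r => r • MvPolynomial.map φ (H e)) = 0 → ν = 0) ∧
      ∀ e ∈ ν.support, m.toSyn e ≤
        m.toSyn (m.degree (ν.sum fun e r => r • MvPolynomial.map φ (H e))) := by
  classical
  have key : ν ≠ 0 → ∃ e0 ∈ ν.support, (∀ e ∈ ν.support, m.toSyn e ≤ m.toSyn e0) ∧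
      MvPolynomial.coeff e0 (ν.sum fun e r => r • MvPolynomial.map φ (H e)) ≠ 0 := by
    intro hne
    obtain ⟨e0, he0, hmax⟩ := Finset.exists_max_image ν.support (fun e => m.toSyn e)
      (Finsupp.support_nonempty_iff.mpr hne)
    refine ⟨e0, he0, hmax, ?_⟩
    have hc : MvPolynomial.coeff e0 (ν.sum fun e r => r • MvPolynomial.map φ (H e)) =
        ν e0 * φ a := by
      rw [Finsupp.sum, MvPolynomial.coeff_sum, Finset.sum_eq_single e0]
      · rw [MvPolynomial.coeff_smul, MvPolynomial.coeff_map, smul_eq_mul]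
        obtain ⟨h1, h2⟩ := hH e0 (hν e0 he0)
        rw [MonomialOrder.leadingCoeff, h1] at h2
        rw [h2]
      · intro e he hee
        obtain ⟨h1, h2⟩ := hH e (hν e he)
        have hlt : m.toSyn (m.degree (H e)) < m.toSyn e0 := by
          rw [h1]
          exact lt_of_le_of_ne (hmax e he) (fun h => hee (m.toSyn.injective h))
        rw [MvPolynomial.coeff_smul, MvPolynomial.coeff_map,
          MonomialOrder.coeff_eq_zero_of_lt hlt, map_zero, smul_zero]
      · intro h
        exact absurd he0 h
    rw [hc]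
    exact mul_ne_zero (Finsupp.mem_support_iff.mp he0) ha
  constructor
  · intro h0
    by_contra hne
    obtain ⟨e0, -, -, h⟩ := key hne
    rw [h0] at h
    simp at h
  · intro e he
    have hne : ν ≠ 0 := by
      rintro rfl
      simp at he
    obtain ⟨e0, -, hmax, h⟩ := key hne
    exact (hmax e he).trans (MonomialOrder.le_degree (MvPolynomial.mem_support_iff.mpr h))

end MPb07157.GN
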