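import Pool.Agent.Lib.MP_b07157_ag.GN.A2
import Pool.Agent.Lib.MP_b07157_ag.GN.A3

section

/-!
# A4. Elimination
-/

noncomputable section

namespace MPb07157.GN

open MvPolynomial

variable {σ : Type} {R B : Type} [CommRing R] [Field B]

/-- A4'. Every element of the extended submodule is a combination of the `map φ (H e)`.

Proof.  Span induction: for `P ∈ I`, `a ^ N • P = ∑ ν_e H e` gives
`map φ P = ∑ (φ a)⁻¹ ^ N φ(ν_e) map φ (H e)`. -/
theorem ext_family {m : MonomialOrder σ} {I : Submodule R (MvPolynomial σ R)} {a : R}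
    {E : Set (σ →₀ ℕ)} {H : (σ →₀ ℕ) → MvPolynomial σ R} (φ : R →+* B) (ha : φ a ≠ 0)
    (hE : ∀ P ∈ I, ∃ (N : ℕ) (ν : (σ →₀ ℕ) →₀ R), (∀ e ∈ ν.support, e ∈ E) ∧
        a ^ N • P = ν.sum fun e r => r • H e) {P : MvPolynomial σ B} (hP : P ∈ ext φ I) :
    ∃ ν : (σ →₀ ℕ) →₀ B, (∀ e ∈ ν.support, e ∈ E) ∧
      P = ν.sum fun e r => r • MvPolynomial.map φ (H e) := by
  have hsmul : ∀ (r : R) (Q : MvPolynomial σ R),
      MvPolynomial.map φ (r • Q) = φ r • MvPolynomial.map φ Q := by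
    intro r Q
    rw [MvPolynomial.smul_eq_C_mul, MvPolynomial.smul_eq_C_mul, map_mul, map_C]
  have key : ext φ I ≤ Submodule.span B ((fun e => MvPolynomial.map φ (H e)) '' E) := by
    unfold ext
    rw [Submodule.span_le]
    rintro _ ⟨Q, hQ, rfl⟩
    obtain ⟨N, ν, hν, hsum⟩ := hE Q hQ
    have h1 : φ a ^ N • MvPolynomial.map φ Q =
        ∑ e ∈ ν.support, φ (ν e) • MvPolynomial.map φ (H e) := by
      rw [← map_pow, ← hsmul, hsum, Finsupp.sum, map_sum]
      exact Finset.sum_congr rfl fun e _ => hsmul _ _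
    have h2 : MvPolynomial.map φ Q =
        (φ a ^ N)⁻¹ • ∑ e ∈ ν.support, φ (ν e) • MvPolynomial.map φ (H e) := by
      rw [← h1, smul_smul, inv_mul_cancel₀ (pow_ne_zero N ha), one_smul]
    rw [SetLike.mem_coe, h2]
    refine Submodule.smul_mem _ _ (Submodule.sum_mem _ fun e he => Submodule.smul_mem _ _ ?_)
    exact Submodule.subset_span ⟨e, hν e he, rfl⟩
  obtain ⟨ν, hν, hνP⟩ := (Finsupp.mem_span_image_iff_linearCombination B).mp (key hP)
  refine ⟨ν, fun e he => hν he, ?_⟩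
  rw [← hνP, Finsupp.linearCombination_apply]

/-- A4. Elimination.  `L` is a set of exponents that is closed under passing to smaller ones in the
monomial order.  An element of `ext φ I` with support in `L` is a combination of images of elements
of `I` with support in `L`.

Proof.  `GB.family` gives `E`, `H`; write `P = ∑ ν_e map φ (H e)` (`ext_family`); by `tri` all
`e ∈ ν.support` are `≤ m.degree P`, which lies in `L` (if `P ≠ 0`), hence `e ∈ L`, and the support
of `H e` consists of exponents `≤ m.degree (H e) = e`. -/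
theorem GB.lower [IsDomain R] {m : MonomialOrder σ} {I : Submodule R (MvPolynomial σ R)} {a : R}
    (h : GB m I a) (φ : R →+* B) (ha : φ a ≠ 0) (L : Set (σ →₀ ℕ))
    (hL : ∀ e e', m.toSyn e ≤ m.toSyn e' → e' ∈ L → e ∈ L) {P : MvPolynomial σ B}
    (hP : P ∈ ext φ I) (hPL : ∀ e ∈ P.support, e ∈ L) :
    P ∈ Submodule.span B (MvPolynomial.map φ '' {Q | Q ∈ I ∧ ∀ e ∈ Q.support, e ∈ L}) := by
  by_cases hP0 : P = 0
  · rw [hP0]
    exact Submodule.zero_mem _
  obtain ⟨E, H, hEH, hfam⟩ := h.family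
  obtain ⟨ν, hν, hνP⟩ := ext_family (m := m) φ ha hfam hP
  have htri := (tri (m := m) (fun e he => (hEH e he).2) φ ha ν hν).2
  rw [← hνP] at htri
  have hdeg : m.degree P ∈ L := hPL _ (m.degree_mem_support hP0)
  rw [hνP, Finsupp.sum]
  refine Submodule.sum_mem _ fun e he => Submodule.smul_mem _ _ (Submodule.subset_span ?_)
  obtain ⟨h1, h2, -⟩ := hEH e (hν e he)
  refine ⟨H e, ⟨h1, fun e' he' => ?_⟩, rfl⟩
  refine hL e' e ?_ (hL e _ (htri e he) hdeg)
  have h3 := m.le_degree he'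
  rwa [h2] at h3

end MPb07157.GN
end
end

section

/-!
# A5. Lifting through a map with free cokernel
-/

noncomputable section

namespace MPb07157.GN

open MvPolynomial

variable {σ : Type} {R B : Type} [CommRing R] [Field B]

private lemma map_smul' (φ : R →+* B) (r : R) (P : MvPolynomial σ R) :
    MvPolynomial.map φ (r • P) = φ r • MvPolynomial.map φ P := by
  rw [MvPolynomial.smul_eq_C_mul, map_mul, MvPolynomial.map_C, ← MvPolynomial.smul_eq_C_mul]

private lemma lin_mapRange (φ : R →+* B) (H : (σ →₀ ℕ) → MvPolynomial σ R)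
    (ν : (σ →₀ ℕ) →₀ R) :
    Finsupp.linearCombination B (fun e => MvPolynomial.map φ (H e))
        (ν.mapRange φ (map_zero φ)) =
      MvPolynomial.map φ (ν.sum fun e r => r • H e) := by
  classical
  rw [Finsupp.linearCombination_apply, Finsupp.sum_mapRange_index (by simp), Finsupp.sum,
    Finsupp.sum, map_sum]
  exact Finset.sum_congr rfl fun e _ => (map_smul' φ _ _).symm

private lemma key_one {a : R} (φ : R →+* B) (ha : φ a ≠ 0)
    {E : Set (σ →₀ ℕ)} {H : (σ →₀ ℕ) → MvPolynomial σ R} (p : (σ →₀ ℕ) → MvPolynomial σ R)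
    {Q : MvPolynomial σ R} {N : ℕ} {ν : (σ →₀ ℕ) →₀ R} (hν : ∀ e ∈ ν.support, e ∈ E)
    (h : a ^ N • Q = ν.sum fun e r => r • H e) :
    ∃ κ : (σ →₀ ℕ) →₀ B, (∀ e ∈ κ.support, e ∈ E) ∧
      MvPolynomial.map φ Q =
        Finsupp.linearCombination B (fun e => MvPolynomial.map φ (H e)) κ ∧
      (φ a ^ N) • Finsupp.linearCombination B (fun e => MvPolynomial.map φ (p e)) κ =
        MvPolynomial.map φ (ν.sum fun e r => r • p e) := by
  classical
  have hN : φ a ^ N ≠ 0 := pow_ne_zero _ ha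
  refine ⟨(φ a ^ N)⁻¹ • ν.mapRange φ (map_zero φ), ?_, ?_, ?_⟩
  · intro e he
    apply hν
    by_contra hc
    rw [Finsupp.mem_support_iff] at he
    apply he
    have : ν e = 0 := by simpa using hc
    simp [this]
  · rw [LinearMap.map_smul, lin_mapRange, ← h, map_smul', map_pow, smul_smul,
      inv_mul_cancel₀ hN, one_smul]
  · rw [LinearMap.map_smul, lin_mapRange, smul_smul, mul_inv_cancel₀ hN, one_smul]

/-- A5. Lifting.  `I₁' = ρ(D) + I₀'` has common leading coefficient `a`, `φ a ≠ 0`.  If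
`ρB u ∈ ext φ I₀'`, then `u ∈ ext φ I₀`, where `I₀ = ρ⁻¹(I₀')`.

Proof.  `GB.family` for `I₁'` gives `E`, `H`; for `e ∈ E` choose `H e = ρ (p e) + z e` with
`z e ∈ I₀'`.  Let `u = ∑ μ_i • map φ P_i` (`P_i` the monomials with coefficient one, `μ_i` the
coefficients of `u`) and `ρB u = ∑ κ_j • map φ Q_j` with `Q_j ∈ I₀'`.
All `ρ P_i` and `Q_j` lie in `I₁'`: for one large `N`,
`a ^ N • ρ P_i = ∑_e r_{i,e} • H e` and `a ^ N • Q_j = ∑_e t_{j,e} • H e`.  Then
`Z_i := a ^ N • P_i - ∑_e r_{i,e} • p e ∈ I₀` (its image under `ρ` is `∑ r_{i,e} • z e ∈ I₀'`) and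
`Y_j := ∑_e t_{j,e} • p e ∈ I₀` (its image under `ρ` is `a ^ N • Q_j - ∑ t_{j,e} • z e`).
From `∑ μ_i • map φ (ρ P_i) = ρB u = ∑ κ_j • map φ Q_j` we get
`∑_e (∑_i μ_i φ(r_{i,e}) - ∑_j κ_j φ(t_{j,e})) • map φ (H e) = 0`, so by `tri`
`∑_i μ_i φ(r_{i,e}) = ∑_j κ_j φ(t_{j,e})` for all `e`.  Hence
`(φ a) ^ N • u = ∑ μ_i • map φ Z_i + ∑_e (∑_i μ_i φ(r_{i,e})) • map φ (p e) =
∑ μ_i • map φ Z_i + ∑_j κ_j • map φ Y_j ∈ ext φ I₀`. -/
theorem GB.lift [IsDomain R] {m : MonomialOrder σ} {a : R} (φ : R →+* B) (ha : φ a ≠ 0)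
    (ρ : MvPolynomial σ R →ₗ[R] MvPolynomial σ R) (ρB : MvPolynomial σ B →ₗ[B] MvPolynomial σ B)
    (hρ : ∀ P, ρB (MvPolynomial.map φ P) = MvPolynomial.map φ (ρ P))
    (I₀ I₀' I₁' : Submodule R (MvPolynomial σ R)) (h0 : ∀ P, P ∈ I₀ ↔ ρ P ∈ I₀')
    (h1 : ∀ Q, Q ∈ I₁' ↔ ∃ P, ∃ Z ∈ I₀', Q = ρ P + Z) (hGB : GB m I₁' a)
    {u : MvPolynomial σ B} (hu : ρB u ∈ ext φ I₀') : u ∈ ext φ I₀ := by
  classical
  obtain ⟨E, H, hH, hfam⟩ := hGB.family
  have hex : ∀ e, ∃ pz : MvPolynomial σ R × MvPolynomial σ R, e ∈ E →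
      pz.2 ∈ I₀' ∧ H e = ρ pz.1 + pz.2 := by
    intro e
    by_cases he : e ∈ E
    · obtain ⟨P, Z, hZ, hQ⟩ := (h1 _).1 (hH e he).1
      exact ⟨(P, Z), fun _ => ⟨hZ, hQ⟩⟩
    · exact ⟨(0, 0), fun h => absurd h he⟩
  choose pz hpz using hex
  set p : (σ →₀ ℕ) → MvPolynomial σ R := fun e => (pz e).1 with hp
  set z : (σ →₀ ℕ) → MvPolynomial σ R := fun e => (pz e).2 with hz
  have hz0 : ∀ e ∈ E, z e ∈ I₀' := fun e he => (hpz e he).1
  have hHe : ∀ e ∈ E, H e = ρ (p e) + z e := fun e he => (hpz e he).2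
  set LH := Finsupp.linearCombination B (fun e => MvPolynomial.map φ (H e)) with hLH
  set Lp := Finsupp.linearCombination B (fun e => MvPolynomial.map φ (p e)) with hLp
  -- the image under `ρ` of a combination of the `p e`
  have hsum : ∀ ν : (σ →₀ ℕ) →₀ R, (∀ e ∈ ν.support, e ∈ E) →
      (ν.sum fun e r => r • H e) - ρ (ν.sum fun e r => r • p e) ∈ I₀' := by
    intro ν hν
    have : (ν.sum fun e r => r • H e) - ρ (ν.sum fun e r => r • p e) =
        ν.sum fun e r => r • z e := by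
      simp only [Finsupp.sum, map_sum, LinearMap.map_smul]
      rw [← Finset.sum_sub_distrib]
      refine Finset.sum_congr rfl fun e he => ?_
      rw [hHe e (hν e he)]
      rw [← smul_sub]
      congr 1
      abel
    rw [this]
    exact Submodule.sum_mem _ fun e he => Submodule.smul_mem _ _ (hz0 e (hν e he))
  -- claim A
  have hA : ∀ u : MvPolynomial σ B, ∃ κ : (σ →₀ ℕ) →₀ B, (∀ e ∈ κ.support, e ∈ E) ∧
      ρB u = LH κ ∧ u - Lp κ ∈ ext φ I₀ := by
    have hbase : ∀ P : MvPolynomial σ R, ∃ κ : (σ →₀ ℕ) →₀ B, (∀ e ∈ κ.support, e ∈ E) ∧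
        ρB (MvPolynomial.map φ P) = LH κ ∧ MvPolynomial.map φ P - Lp κ ∈ ext φ I₀ := by
      intro P
      obtain ⟨N, ν, hν, hsumν⟩ := hfam (ρ P)
        ((h1 _).2 ⟨P, 0, Submodule.zero_mem _, by simp⟩)
      obtain ⟨κ, hκ, h2, h3⟩ := key_one φ ha p hν hsumν
      refine ⟨κ, hκ, ?_, ?_⟩
      · rw [hρ, h2]
      · have hN : φ a ^ N ≠ 0 := pow_ne_zero _ ha
        have hmem : a ^ N • P - (ν.sum fun e r => r • p e) ∈ I₀ := by
          rw [h0, map_sub, LinearMap.map_smul, hsumν]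
          exact hsum ν hν
        have heq : MvPolynomial.map φ P - Lp κ =
            (φ a ^ N)⁻¹ • MvPolynomial.map φ (a ^ N • P - (ν.sum fun e r => r • p e)) := by
          rw [map_sub, map_smul', map_pow, ← h3, ← smul_sub, smul_smul, inv_mul_cancel₀ hN,
            one_smul]
        rw [heq]
        exact Submodule.smul_mem _ _ (Submodule.subset_span ⟨_, hmem, rfl⟩)
    intro u
    induction u using MvPolynomial.induction_on' with
    | monomial e b =>
      obtain ⟨κ, hκ, h2, h3⟩ := hbase (MvPolynomial.monomial e 1)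
      have hm : MvPolynomial.monomial e b =
          b • MvPolynomial.map φ (MvPolynomial.monomial e (1 : R)) := by
        rw [MvPolynomial.map_monomial, map_one, MvPolynomial.smul_monomial, smul_eq_mul, mul_one]
      refine ⟨b • κ, fun e he => hκ e (Finsupp.support_smul he), ?_, ?_⟩
      · rw [hm, LinearMap.map_smul, h2, LinearMap.map_smul]
      · rw [hm, LinearMap.map_smul, ← smul_sub]
        exact Submodule.smul_mem _ _ h3
    | add u v hu hv =>
      obtain ⟨κ, hκ, h2, h3⟩ := hu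
      obtain ⟨κ', hκ', h2', h3'⟩ := hv
      refine ⟨κ + κ', fun e he => ?_, ?_, ?_⟩
      · rcases Finset.mem_union.1 (Finsupp.support_add he) with h | h
        · exact hκ e h
        · exact hκ' e h
      · rw [map_add, h2, h2', map_add]
      · rw [map_add, add_sub_add_comm]
        exact Submodule.add_mem _ h3 h3'
  -- claim B
  have hB : ∀ w ∈ ext φ I₀', ∃ κ : (σ →₀ ℕ) →₀ B, (∀ e ∈ κ.support, e ∈ E) ∧
      w = LH κ ∧ Lp κ ∈ ext φ I₀ := by
    intro w hw
    induction hw using Submodule.span_induction with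
    | mem x hx =>
      obtain ⟨Q, hQ, rfl⟩ := hx
      obtain ⟨N, ν, hν, hsumν⟩ := hfam Q ((h1 _).2 ⟨0, Q, hQ, by simp⟩)
      obtain ⟨κ, hκ, h2, h3⟩ := key_one φ ha p hν hsumν
      refine ⟨κ, hκ, h2, ?_⟩
      have hN : φ a ^ N ≠ 0 := pow_ne_zero _ ha
      have hmem : (ν.sum fun e r => r • p e) ∈ I₀ := by
        rw [h0]
        have h4 := hsum ν hν
        rw [← hsumν] at h4
        have h5 := Submodule.sub_mem _ (Submodule.smul_mem _ (a ^ N) hQ) h4
        simpa using h5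
      have heq : Lp κ = (φ a ^ N)⁻¹ • MvPolynomial.map φ (ν.sum fun e r => r • p e) := by
        rw [← h3, smul_smul, inv_mul_cancel₀ hN, one_smul]
      rw [heq]
      exact Submodule.smul_mem _ _ (Submodule.subset_span ⟨_, hmem, rfl⟩)
    | zero => exact ⟨0, by simp, by simp, by simp⟩
    | add x y _ _ hx hy =>
      obtain ⟨κ, hκ, h2, h3⟩ := hx
      obtain ⟨κ', hκ', h2', h3'⟩ := hy
      refine ⟨κ + κ', fun e he => ?_, ?_, ?_⟩
      · rcases Finset.mem_union.1 (Finsupp.support_add he) with h | h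
        · exact hκ e h
        · exact hκ' e h
      · rw [map_add, h2, h2']
      · rw [map_add]
        exact Submodule.add_mem _ h3 h3'
    | smul b x _ hx =>
      obtain ⟨κ, hκ, h2, h3⟩ := hx
      refine ⟨b • κ, fun e he => hκ e (Finsupp.support_smul he), ?_, ?_⟩
      · rw [h2, LinearMap.map_smul]
      · rw [LinearMap.map_smul]
        exact Submodule.smul_mem _ _ h3
  obtain ⟨κ, hκ, h2, h3⟩ := hA u
  obtain ⟨κ', hκ', h2', h3'⟩ := hB _ hu
  have hsupp : ∀ e ∈ (κ - κ').support, e ∈ E := by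
    intro e he
    rcases Finset.mem_union.1 (Finsupp.support_sub he) with h | h
    · exact hκ e h
    · exact hκ' e h
  have hzero : ((κ - κ').sum fun e r => r • MvPolynomial.map φ (H e)) = 0 := by
    rw [← Finsupp.linearCombination_apply, map_sub]
    rw [← h2, ← h2', sub_self]
  have hκκ := (tri (m := m) (fun e he => (hH e he).2) φ ha (κ - κ') hsupp).1 hzero
  rw [sub_eq_zero] at hκκ
  subst hκκ
  have := Submodule.add_mem _ h3 h3'
  simpa using this

end MPb07157.GN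
end
end
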