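import Mathlib

/-!
# Submodules with leading coefficients: definitions

Notation: `m` a monomial order on `σ →₀ ℕ`, `R` a domain, `I` a submodule (over `R`, NOT an ideal)
of the free `R`-module `MvPolynomial σ R`.
-/

noncomputable section

namespace MPb07157.GN

open MvPolynomial

variable {σ : Type} {R B : Type} [CommRing R] [Field B]

/-- Every leading monomial of an element of `I` is the leading monomial of an element of `I` with
leading coefficient `a`. -/
def GB (m : MonomialOrder σ) (I : Submodule R (MvPolynomial σ R)) (a : R) : Prop :=
  ∀ P ∈ I, P ≠ 0 → ∃ h ∈ I, m.degree h = m.degree P ∧ m.leadingCoeff h = a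

/-- The extension of the submodule `I` along `φ`. -/
def ext (φ : R →+* B) (I : Submodule R (MvPolynomial σ R)) : Submodule B (MvPolynomial σ B) :=
  Submodule.span B (MvPolynomial.map φ '' (I : Set (MvPolynomial σ R)))

end MPb07157.GN
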