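import Pool.Agent.Lib.MP_b07157_ag.GN.Ix

/-!
# B0. The induction principle
-/

noncomputable section

namespace MPb07157.GN

open MvPolynomial

variable {n : ℕ} {R : Type} [CommRing R]

private theorem mono_mem (W : Submodule R (MvPolynomial (Ix n) R))
    (h1 : (1 : MvPolynomial (Ix n) R) ∈ W) (hT : ∀ i, ∀ P ∈ W, T R i P ∈ W) :
    ∀ (N : ℕ) (m : Ix n →₀ ℕ), m.degree = N → monomial m (1 : R) ∈ W := by
  intro N
  induction N using Nat.strong_induction_on with
  | _ N ih =>
    intro m hmN
    by_cases hm : m = 0
    · subst hm
      exact h1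
    · obtain ⟨i, hi⟩ := Finsupp.ne_iff.mp hm
      have hle : Finsupp.single i 1 ≤ m := by
        rw [Finsupp.single_le_iff]
        have : m i ≠ 0 := hi
        omega
      have hdec : Finsupp.single i 1 + (m - Finsupp.single i 1) = m := add_tsub_cancel_of_le hle
      have hdeg : (m - Finsupp.single i 1).degree + 1 = N := by
        have h := congrArg Finsupp.degree hdec
        rw [map_add, Finsupp.degree_single, hmN] at h
        omega
      have hX : (X i : MvPolynomial (Ix n) R) * monomial (m - Finsupp.single i 1) (1 : R)
          = monomial m 1 := by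
        rw [X, monomial_mul, hdec, one_mul]
      have hm' : monomial (m - Finsupp.single i 1) (1 : R) ∈ W := ih _ (by omega) _ rfl
      have hTm := hT i _ hm'
      cases i with
      | x j =>
        rw [T_x, hX] at hTm
        exact hTm
      | s =>
        rw [T_s, hX] at hTm
        exact hTm
      | d j =>
        rw [T_d, hX, pderiv_monomial, one_mul] at hTm
        set m' : Ix n →₀ ℕ := m - Finsupp.single (Ix.d j) 1 with hm'def
        have hlow : monomial (m' - Finsupp.single (Ix.x j) 1) ((m' (Ix.x j) : ℕ) : R) ∈ W := by
          have hle2 : (m' - Finsupp.single (Ix.x j) 1).degree ≤ m'.degree :=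
            Finsupp.degree_mono tsub_le_self
          have h3 : monomial (m' - Finsupp.single (Ix.x j) 1) (1 : R) ∈ W :=
            ih _ (by omega) _ rfl
          have h4 := W.smul_mem ((m' (Ix.x j) : ℕ) : R) h3
          rwa [smul_monomial, smul_eq_mul, mul_one] at h4
        exact (Submodule.add_mem_iff_left W hlow).mp hTm

/-- B0. Induction principle: every operator is obtained from `1` by the generators.

Proof.  It is enough that all monomials `x^α ∂^β s^j` lie in `W`.  The products of the
`X (.d i)` alone: `T (.d i) (∂^β) = ∂^(β + e_i)` because `∂^β` does not contain the `x` variables.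
Then multiply by the `X (.x i)` and by `X .s` (`T_x`, `T_s`). -/
theorem T_induct (W : Submodule R (MvPolynomial (Ix n) R)) (h1 : (1 : MvPolynomial (Ix n) R) ∈ W)
    (hT : ∀ i, ∀ P ∈ W, T R i P ∈ W) : W = ⊤ := by
  rw [Submodule.eq_top_iff']
  intro P
  rw [P.as_sum]
  refine Submodule.sum_mem _ fun m _ => ?_
  have h := W.smul_mem (coeff m P) (mono_mem W h1 hT m.degree m rfl)
  rwa [smul_monomial, smul_eq_mul, mul_one] at h

end MPb07157.GN
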