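import Pool.Agent.Lib.MP_b07157_ag.GN.Ix

/-!
# B1. The free cyclic module over the Weyl algebra
-/

noncomputable section

namespace MPb07157.GN

open MvPolynomial

variable {n : ℕ} {R V : Type} [CommRing R] [AddCommGroup V] [Module R V]

private lemma exists_algHom {ι : Type} (f : ι → Module.End R V)
    (hf : ∀ i j, f i * f j = f j * f i) :
    ∃ Φ : MvPolynomial ι R →ₐ[R] Module.End R V, ∀ i, Φ (X i) = f i := by
  have hcomm : ∀ a ∈ Set.range f, ∀ b ∈ Set.range f, a * b = b * a := by
    rintro _ ⟨i, rfl⟩ _ ⟨j, rfl⟩
    exact hf i j
  have hc := Algebra.isMulCommutative_adjoin R hcomm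
  let _ : CommRing (Algebra.adjoin R (Set.range f)) :=
    { (inferInstance : Ring (Algebra.adjoin R (Set.range f))) with
      mul_comm := hc.is_comm.comm }
  refine ⟨(Algebra.adjoin R (Set.range f)).val.comp
    (MvPolynomial.aeval fun i => (⟨f i, Algebra.subset_adjoin ⟨i, rfl⟩⟩ :
      Algebra.adjoin R (Set.range f))), fun i => ?_⟩
  rw [AlgHom.comp_apply, MvPolynomial.aeval_X]
  rfl

/-- B1. Universal property: for linear maps `t` on `V` with the commutation relations and `v ∈ V`
there is a linear map `ρ` with `ρ 1 = v` and `ρ (T i P) = t i (ρ P)`.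

Proof.  On the basis put `ρ (x^α ∂^β s^j) = t_x^α t_s^j t_∂^β v`, where `t_∂^β v` is the product
of the powers `(t (.d i)) ^ β i` (they commute: use for example `Finset.noncommProd` in
`Module.End R V`, or a `List` product over `List.finRange n`), same for `t_x^α`.  The relation for
`T (.x i)`, `T .s` follows from `xx`, `sx`, for `T (.d i)`:
`T (.d i) (x^α ∂^β s^j) = x^α ∂^(β+e_i) s^j + α_i x^(α-e_i) ∂^β s^j`, and
`t_(∂_i) t_x^α u = t_x^α t_(∂_i) u + α_i t_x^(α-e_i) u` by `dx` (induction on `α`), `sd`, `dd`. -/
theorem act_exists (t : Ix n → V →ₗ[R] V) (ht : Rel t) (v : V) :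
    ∃ ρ : MvPolynomial (Ix n) R →ₗ[R] V, ρ 1 = v ∧ ∀ i P, ρ (T R i P) = t i (ρ P) := by
  classical
  -- the two families of commuting operators
  let fx : Ix n → Module.End R V := fun a => match a with
    | .d _ => 1
    | .x i => t (.x i)
    | .s => t .s
  let fd : Ix n → Module.End R V := fun a => match a with
    | .d i => t (.d i)
    | .x _ => 1
    | .s => 1
  have hfx : ∀ a b, fx a * fx b = fx b * fx a := by
    intro a b
    cases a with
    | d i => simp only [fx]; rw [one_mul, mul_one]
    | x i =>
      cases b with
      | d j => simp only [fx]; rw [one_mul, mul_one]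
      | x j => ext w; exact ht.xx i j w
      | s => ext w; exact (ht.sx i w).symm
    | s =>
      cases b with
      | d j => simp only [fx]; rw [one_mul, mul_one]
      | x j => ext w; exact ht.sx j w
      | s => rfl
  have hfd : ∀ a b, fd a * fd b = fd b * fd a := by
    intro a b
    cases a with
    | d i =>
      cases b with
      | d j => ext w; exact ht.dd i j w
      | x j => simp only [fd]; rw [one_mul, mul_one]
      | s => simp only [fd]; rw [one_mul, mul_one]
    | x i => simp only [fd]; rw [one_mul, mul_one]
    | s => simp only [fd]; rw [one_mul, mul_one]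
  obtain ⟨Φ, hΦ⟩ := exists_algHom fx hfx
  obtain ⟨Θ, hΘ⟩ := exists_algHom fd hfd
  -- the commutator with `∂`
  have hcom : ∀ (i : Fin n) (P : MvPolynomial (Ix n) R) (w : V),
      t (.d i) (Φ P w) = Φ P (t (.d i) w) + Φ (pderiv (.x i) P) w := by
    intro i P
    induction P using MvPolynomial.induction_on with
    | C a =>
      intro w
      rw [← MvPolynomial.algebraMap_eq, AlgHom.commutes, MvPolynomial.algebraMap_eq,
        MvPolynomial.pderiv_C, map_zero, Module.algebraMap_end_apply, Module.algebraMap_end_apply,
        LinearMap.map_smul, LinearMap.zero_apply, add_zero]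
    | add P Q hP hQ =>
      intro w
      rw [map_add, map_add, map_add, LinearMap.add_apply, map_add, hP, hQ, LinearMap.add_apply,
        LinearMap.add_apply]
      abel
    | mul_X P a hP =>
      intro w
      rw [map_mul, Module.End.mul_apply, hP, hΦ, pderiv_mul, map_add, map_mul, map_mul, hΦ,
        Module.End.mul_apply, LinearMap.add_apply, Module.End.mul_apply, Module.End.mul_apply]
      have key : t (.d i) (fx a w) = fx a (t (.d i) w) + Φ (pderiv (.x i) (X a)) w := by
        cases a with
        | d j =>
          rw [pderiv_X_of_ne (by intro h; cases h), map_zero, LinearMap.zero_apply, add_zero]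
          rfl
        | s =>
          rw [pderiv_X_of_ne (by intro h; cases h), map_zero, LinearMap.zero_apply, add_zero]
          exact (ht.sd i w).symm
        | x j =>
          have h1 := ht.dx i j w
          by_cases hij : i = j
          · subst hij
            rw [if_pos rfl] at h1
            rw [pderiv_X_self, map_one, Module.End.one_apply]
            exact h1
          · rw [if_neg hij] at h1
            rw [pderiv_X_of_ne (by intro h; cases h; exact hij rfl), map_zero,
              LinearMap.zero_apply]
            exact h1
      rw [key, map_add]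
      abel
  -- the map
  let ρ : MvPolynomial (Ix n) R →ₗ[R] V :=
    (basisMonomials (Ix n) R).constr R fun e => Φ (monomial e 1) (Θ (monomial e 1) v)
  have hρ : ∀ e, ρ (monomial e 1) = Φ (monomial e 1) (Θ (monomial e 1) v) := by
    intro e
    have h1 := (basisMonomials (Ix n) R).constr_basis R
      (fun e => Φ (monomial e 1) (Θ (monomial e 1) v)) e
    rw [coe_basisMonomials] at h1
    exact h1
  have hX : ∀ (a : Ix n) (e : Ix n →₀ ℕ),
      (X a * monomial e 1 : MvPolynomial (Ix n) R) = monomial (Finsupp.single a 1 + e) 1 := by
    intro a e
    rw [X, monomial_mul, mul_one]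
  have hρX : ∀ (a : Ix n) (e : Ix n →₀ ℕ),
      ρ (X a * monomial e 1) = fx a (Φ (monomial e 1) (fd a (Θ (monomial e 1) v))) := by
    intro a e
    rw [hX, hρ, ← hX, map_mul, map_mul, hΦ, hΘ]
    rfl
  refine ⟨ρ, ?_, ?_⟩
  · have h1 := hρ 0
    have h2 : (monomial (0 : Ix n →₀ ℕ) (1 : R)) = 1 := rfl
    rw [h2, map_one Φ, map_one Θ] at h1
    exact h1
  · intro a P
    have hlin : ρ ∘ₗ T R a = t a ∘ₗ ρ := by
      refine (basisMonomials (Ix n) R).ext fun e => ?_
      rw [coe_basisMonomials, LinearMap.comp_apply, LinearMap.comp_apply]
      cases a with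
      | x i =>
        rw [T_x, hρX, hρ]
        rfl
      | s =>
        rw [T_s, hρX, hρ]
        rfl
      | d i =>
        rw [T_d, map_add, hρX, hρ, hcom]
        have h2 : ρ (pderiv (.x i) (monomial e 1)) =
            Φ (pderiv (.x i) (monomial e 1)) (Θ (monomial e 1) v) := by
          rw [pderiv_monomial, one_mul]
          by_cases he : e (.x i) = 0
          · rw [he, Nat.cast_zero, map_zero, map_zero, map_zero, LinearMap.zero_apply]
          · have hmon : ∀ c : R, (monomial (e - Finsupp.single (.x i) 1) c :
                MvPolynomial (Ix n) R) = c • monomial (e - Finsupp.single (.x i) 1) 1 := by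
              intro c
              rw [smul_monomial, smul_eq_mul, mul_one]
            have hΘe : Θ (monomial e (1 : R)) =
                Θ (monomial (e - Finsupp.single (.x i) 1) 1) := by
              have h3 : (monomial e 1 : MvPolynomial (Ix n) R) =
                  X (.x i) * monomial (e - Finsupp.single (.x i) 1) 1 := by
                rw [hX]
                have h4 : e = Finsupp.single (.x i) 1 + (e - Finsupp.single (.x i) 1) := by
                  ext b
                  rw [Finsupp.add_apply, Finsupp.tsub_apply]
                  by_cases hb : b = .x i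
                  · subst hb
                    rw [Finsupp.single_eq_same]
                    omega
                  · rw [Finsupp.single_eq_of_ne hb]
                    omega
                rw [← h4]
              rw [h3, map_mul, hΘ]
              exact one_mul _
            rw [hmon, LinearMap.map_smul, hρ, ← hΘe, map_smul, LinearMap.smul_apply]
        rw [h2]
        rfl
    exact LinearMap.congr_fun hlin P

end MPb07157.GN
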