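import Pool.Agent.Lib.MP_b07157_ag.GN.Ix
import Pool.Agent.Lib.MP_b07157_ag.GN.B0
import Pool.Agent.Lib.MP_b07157_ag.GN.B1

section

/-!
# B2. Leading monomials and relations
-/

noncomputable section

namespace MPb07157.GN

open MvPolynomial

open scoped MonomialOrder

variable {n : ℕ} {R : Type} [CommRing R]

/-- `X i * P` has the degree of `P` plus `e_i` and the same leading coefficient. -/
private theorem gnB2_X_mul (m : MonomialOrder (Ix n)) (i : Ix n) (P : MvPolynomial (Ix n) R)
    (hP : P ≠ 0) :
    m.degree (X i * P) = m.degree P + Finsupp.single i 1 ∧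
      m.leadingCoeff (X i * P) = m.leadingCoeff P := by
  have : Nontrivial R := by
    by_contra h
    rw [not_nontrivial_iff_subsingleton] at h
    exact hP (Subsingleton.elim _ _)
  have h1 : IsRegular (m.leadingCoeff (X i : MvPolynomial (Ix n) R)) := by
    rw [MonomialOrder.leadingCoeff_X]; exact isRegular_one
  refine ⟨?_, ?_⟩
  · rw [m.degree_mul_of_isRegular_left h1 hP, m.degree_X, add_comm]
  · rw [m.leadingCoeff_mul_of_isRegular_left h1, m.leadingCoeff_X, one_mul]

/-- The derivative is smaller than `X i * P`. -/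
private theorem gnB2_deriv_lt (m : MonomialOrder (Ix n)) (i j : Ix n)
    (P : MvPolynomial (Ix n) R) (hP : P ≠ 0) :
    m.degree (pderiv j P) ≺[m] m.degree (X i * P) := by
  rw [(gnB2_X_mul m i P hP).1]
  have h0 : m.toSyn (m.degree P) < m.toSyn (m.degree P + Finsupp.single i 1) := by
    apply m.toSyn_strictMono
    exact lt_add_of_pos_right _ (by
      rw [Finsupp.lt_def]
      refine ⟨by positivity, i, by simp⟩)
  refine lt_of_le_of_lt ?_ h0
  rw [m.degree_le_iff]
  intro c hc
  rw [mem_support_iff, coeff_pderiv] at hc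
  have hc' : c + Finsupp.single j 1 ∈ P.support := by
    rw [mem_support_iff]
    intro h
    exact hc (by rw [h, zero_mul])
  refine le_trans (m.toSyn_monotone ?_) (m.le_degree hc')
  exact le_self_add

/-- B2. Left multiplication by the generator `i` raises the degree by `e_i` and does not change
the leading coefficient.

Proof.  `X i * P` has these properties (its coefficient at `e + e_i` is the coefficient of `P` at
`e`; no hypothesis on `R` is needed), and all monomials of `pderiv (.x i) P` are `≺` the degree of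
`X (.d i) * P`: they are `e - e_{x i}` with `e ∈ P.support`, and
`e - e_{x i} < e + e_{d i} ≤ m.degree P + e_{d i}`. -/
theorem T_degree (i : Ix n) (P : MvPolynomial (Ix n) R) (hP : P ≠ 0) :
    (mo n).degree (T R i P) = (mo n).degree P + Finsupp.single i 1 ∧
      (mo n).leadingCoeff (T R i P) = (mo n).leadingCoeff P := by
  cases i with
  | d i =>
    have h := gnB2_X_mul (mo n) (.d i) P hP
    have h' := gnB2_deriv_lt (mo n) (.d i) (.x i) P hP
    rw [T_d]
    exact ⟨((mo n).degree_add_of_lt h').trans h.1, ((mo n).leadingCoeff_add_of_lt h').trans h.2⟩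
  | x i => exact gnB2_X_mul (mo n) (.x i) P hP
  | s => exact gnB2_X_mul (mo n) .s P hP

private theorem gnB2_pderiv_comm (i j : Ix n) (P : MvPolynomial (Ix n) R) :
    pderiv i (pderiv j P) = pderiv j (pderiv i P) := by
  classical
  by_cases h : i = j
  · rw [h]
  · ext c
    rw [coeff_pderiv, coeff_pderiv, coeff_pderiv, coeff_pderiv]
    have h1 : (c + Finsupp.single i 1 : Ix n →₀ ℕ) j = c j := by
      rw [Finsupp.add_apply, Finsupp.single_apply, if_neg h, add_zero]
    have h2 : (c + Finsupp.single j 1 : Ix n →₀ ℕ) i = c i := by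
      rw [Finsupp.add_apply, Finsupp.single_apply, if_neg (Ne.symm h), add_zero]
    rw [h1, h2, add_right_comm]
    ring

/-- The maps `T R i` satisfy the commutation relations. -/
theorem T_rel : Rel (T R : Ix n → MvPolynomial (Ix n) R →ₗ[R] MvPolynomial (Ix n) R) := by
  have hd : ∀ i j : Fin n, pderiv (R := R) (Ix.x i) (X (Ix.d j)) = 0 := fun i j =>
    pderiv_X_of_ne (by simp)
  have hs : ∀ i : Fin n, pderiv (R := R) (Ix.x i) (X (Ix.s : Ix n)) = 0 := fun i =>
    pderiv_X_of_ne (by simp)
  refine ⟨?_, ?_, ?_, ?_, ?_⟩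
  · intro i j v
    simp only [T_d, map_add, pderiv_mul, hd, zero_mul, zero_add]
    rw [gnB2_pderiv_comm (Ix.x i) (Ix.x j) v]
    ring
  · intro i j v
    simp only [T_x]
    ring
  · intro i v
    simp only [T_d, T_s, pderiv_mul, hs, zero_mul, zero_add]
    ring
  · intro i v
    simp only [T_x, T_s]
    ring
  · intro i j v
    simp only [T_d, T_x, pderiv_mul]
    by_cases h : i = j
    · subst h
      rw [pderiv_X_self, if_pos rfl]
      ring
    · rw [pderiv_X_of_ne (by simpa using Ne.symm h), if_neg h]
      ring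

private theorem Ix.le_iff {a b : Ix n} : a ≤ b ↔ a.rk ≤ b.rk := Iff.rfl

/-- If `e ≤ e'` and `e'` vanishes up to the position `b`, so does `e`. -/
private theorem gnB2_lex (e e' : Ix n →₀ ℕ) (h : (mo n).toSyn e ≤ (mo n).toSyn e') (b : Ix n)
    (hb : ∀ a ≤ b, e' a = 0) : e b = 0 := by
  classical
  by_contra hne
  let s : Finset (Ix n) := e.support.filter (· ≤ b)
  have hs : s.Nonempty := ⟨b, by simp [s, hne]⟩
  have hmin := s.min'_mem hs
  set c := s.min' hs with hc
  have hcb : c ≤ b := by simpa [s] using (Finset.mem_filter.1 hmin).2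
  have hc0 : e c ≠ 0 := by simpa using (Finset.mem_filter.1 hmin).1
  have hlt : toLex e' < toLex e := by
    rw [Finsupp.Lex.lt_iff]
    refine ⟨c, fun j hj => ?_, ?_⟩
    · change e' j = e j
      rw [hb j (hj.le.trans hcb)]
      by_contra hj0
      have : j ∈ s := by
        simp only [s, Finset.mem_filter, Finsupp.mem_support_iff]
        exact ⟨fun h0 => hj0 h0.symm, hj.le.trans hcb⟩
      exact absurd (s.min'_le j this) (not_le.2 hj)
    · change e' c < e c
      rw [hb c hcb]
      omega
  exact absurd h (not_le.2 hlt)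

/-- Monomials without derivatives are smaller than all monomials that are not of this kind. -/
theorem xs_lower (e e' : Ix n →₀ ℕ) (h : (mo n).toSyn e ≤ (mo n).toSyn e')
    (h' : ∀ i, e' (.d i) = 0) : ∀ i, e (.d i) = 0 := by
  intro i
  exact gnB2_lex e e' h (.d i) fun a ha => by
    cases a with
    | d j => exact h' j
    | x j =>
      have := i.2
      simp only [Ix.le_iff, Ix.rk] at ha
      omega
    | s =>
      have := i.2
      simp only [Ix.le_iff, Ix.rk] at ha
      omega

/-- Powers of `s` are smaller than all monomials that are not powers of `s`. -/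
theorem s_lower (e e' : Ix n →₀ ℕ) (h : (mo n).toSyn e ≤ (mo n).toSyn e')
    (h' : ∀ i, e' (.d i) = 0 ∧ e' (.x i) = 0) : ∀ i, e (.d i) = 0 ∧ e (.x i) = 0 := by
  have key : ∀ b : Ix n, b.rk < 2 * n → e b = 0 := by
    intro b hb
    refine gnB2_lex e e' h b fun a ha => ?_
    cases a with
    | d j => exact (h' j).1
    | x j => exact (h' j).2
    | s =>
      rw [Ix.le_iff] at ha
      change 2 * n ≤ b.rk at ha
      omega
  intro i
  have := i.2
  exact ⟨key _ (by simp only [Ix.rk]; omega), key _ (by simp only [Ix.rk]; omega)⟩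

end MPb07157.GN
end
end

section

/-!
# Operators on sequences of polynomials: definitions

A sequence `v : ℕ → R[x]` stands for `v(s)`, where only large `s = q ∈ ℕ` matter.  `pw F j` is the
sequence `q ↦ F^(q+j)`, i.e. `F^(s+j)`.
-/

noncomputable section

namespace MPb07157.GN

open MvPolynomial

variable {n : ℕ} {R : Type} [CommRing R]

/-- Partial derivatives commute. -/
theorem pd_comm {σ : Type} (i j : σ) (g : MvPolynomial σ R) :
    pderiv i (pderiv j g) = pderiv j (pderiv i g) := by
  classical
  have h : ⁅pderiv (R := R) i, pderiv (R := R) j⁆ =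
      (0 : Derivation R (MvPolynomial σ R) (MvPolynomial σ R)) := by
    refine MvPolynomial.derivation_ext fun k => ?_
    rw [Derivation.commutator_apply, pderiv_X, pderiv_X, Derivation.zero_apply]
    have h1 : ∀ (a b c : σ), pderiv (R := R) a (Pi.single (M := fun _ => MvPolynomial σ R) b 1 c) = 0 := by
      intro a b c
      rw [Pi.single_apply]
      split_ifs
      · exact pderiv_one
      · exact map_zero _
    rw [h1, h1, sub_zero]
  have h2 : ⁅pderiv (R := R) i, pderiv (R := R) j⁆ g = 0 := by rw [h]; rfl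
  rw [Derivation.commutator_apply] at h2
  exact sub_eq_zero.1 h2

/-- Sequences of polynomials. -/
abbrev Sq (n : ℕ) (R : Type) [CommRing R] : Type := ℕ → MvPolynomial (Fin n) R

/-- The generators on sequences; `s` multiplies the term `q` by `q`. -/
def tS (R : Type) [CommRing R] : Ix n → Sq n R →ₗ[R] Sq n R
  | .d i => (pderiv (R := R) i).toLinearMap.compLeft ℕ
  | .x i => (LinearMap.mulLeft R (X i : MvPolynomial (Fin n) R)).compLeft ℕ
  | .s =>
    { toFun := fun g q => (q : MvPolynomial (Fin n) R) * g q
      map_add' := fun g h => by funext q; simp [mul_add]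
      map_smul' := fun r g => by funext q; simp }

theorem tS_d (i : Fin n) (g : Sq n R) (q : ℕ) : tS R (.d i) g q = pderiv i (g q) := rfl

theorem tS_x (i : Fin n) (g : Sq n R) (q : ℕ) : tS R (.x i) g q = X i * g q := rfl

theorem tS_s (g : Sq n R) (q : ℕ) : tS R (.s : Ix n) g q = (q : MvPolynomial (Fin n) R) * g q :=
  rfl

theorem tS_rel : Rel (tS R : Ix n → Sq n R →ₗ[R] Sq n R) := by
  refine ⟨fun i j v => ?_, fun i j v => ?_, fun i v => ?_, fun i v => ?_, fun i j v => ?_⟩
  · funext q
    simp only [tS_d]
    exact pd_comm i j (v q)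
  · funext q
    simp only [tS_x]
    ring
  · funext q
    simp only [tS_d, tS_s]
    rw [Derivation.leibniz]
    simp
  · funext q
    simp only [tS_x, tS_s]
    ring
  · funext q
    simp only [tS_d, tS_x, Pi.add_apply]
    rw [Derivation.leibniz, pderiv_X]
    by_cases h : i = j
    · subst h
      simp
    · simp [h]

/-- The operator `P` applied to the sequence `v`. -/
def op (v : Sq n R) : MvPolynomial (Ix n) R →ₗ[R] Sq n R :=
  (act_exists (tS R) tS_rel v).choose

theorem op_one (v : Sq n R) : op v 1 = v := (act_exists (tS R) tS_rel v).choose_spec.1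

theorem op_T (v : Sq n R) (i : Ix n) (P : MvPolynomial (Ix n) R) :
    op v (T R i P) = tS R i (op v P) := (act_exists (tS R) tS_rel v).choose_spec.2 i P

/-- Right multiplication of operators by the polynomial `F`. -/
def rm (F : MvPolynomial (Fin n) R) : MvPolynomial (Ix n) R →ₗ[R] MvPolynomial (Ix n) R :=
  (act_exists (T R) T_rel (rename Ix.x F)).choose

theorem rm_one (F : MvPolynomial (Fin n) R) : rm F 1 = rename Ix.x F :=
  (act_exists (T R) T_rel (rename Ix.x F)).choose_spec.1

theorem rm_T (F : MvPolynomial (Fin n) R) (i : Ix n) (P : MvPolynomial (Ix n) R) :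
    rm F (T R i P) = T R i (rm F P) :=
  (act_exists (T R) T_rel (rename Ix.x F)).choose_spec.2 i P

/-- The sequence `F^(s+j)`. -/
def pw (F : MvPolynomial (Fin n) R) (j : ℤ) : Sq n R := fun q => F ^ ((q : ℤ) + j).toNat

/-- Equality of sequences for large `q`. -/
def EqI (u v : Sq n R) : Prop := ∀ᶠ q in Filter.atTop, u q = v q

/-- The operators that annihilate `F^(s+j)`. -/
def I0 (F : MvPolynomial (Fin n) R) (j : ℤ) : Submodule R (MvPolynomial (Ix n) R) where
  carrier := {P | EqI (op (pw F j) P) 0}
  add_mem' := fun {a b} ha hb => by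
    filter_upwards [ha, hb] with q h1 h2
    rw [map_add, Pi.add_apply, h1, h2]
    simp
  zero_mem' := Filter.Eventually.of_forall fun q => by rw [map_zero]
  smul_mem' := fun r a ha => by
    filter_upwards [ha] with q h1
    rw [map_smul, Pi.smul_apply, h1]
    simp

/-- The operators `P` with `P F^(s+j) ∈ D_n[s] F^(s+j+1)`. -/
def I1 (F : MvPolynomial (Fin n) R) (j : ℤ) : Submodule R (MvPolynomial (Ix n) R) where
  carrier := {P | ∃ Q, EqI (op (pw F j) P) (op (pw F (j + 1)) Q)}
  add_mem' := fun {a b} ⟨Q, ha⟩ ⟨Q', hb⟩ => ⟨Q + Q', by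
    filter_upwards [ha, hb] with q h1 h2
    rw [map_add, map_add, Pi.add_apply, Pi.add_apply, h1, h2]⟩
  zero_mem' := ⟨0, Filter.Eventually.of_forall fun q => by rw [map_zero, map_zero]⟩
  smul_mem' := fun r a ⟨Q, ha⟩ => ⟨r • Q, by
    filter_upwards [ha] with q h1
    rw [map_smul, map_smul, Pi.smul_apply, Pi.smul_apply, h1]⟩

theorem mem_I0 {F : MvPolynomial (Fin n) R} {j : ℤ} {P : MvPolynomial (Ix n) R} :
    P ∈ I0 F j ↔ EqI (op (pw F j) P) 0 := Iff.rfl

theorem mem_I1 {F : MvPolynomial (Fin n) R} {j : ℤ} {P : MvPolynomial (Ix n) R} :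
    P ∈ I1 F j ↔ ∃ Q, EqI (op (pw F j) P) (op (pw F (j + 1)) Q) := Iff.rfl

end MPb07157.GN
end
end
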