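import Pool.Agent.Lib.MP_b07157_ag.GN.Abs
import Pool.Agent.Lib.MP_b07157_ag.GN.Sq

section

/-!
# A1. Existence of a common leading coefficient (Dickson's lemma)
-/

noncomputable section

namespace MPb07157.GN

open MvPolynomial

variable {σ : Type} {R : Type} [CommRing R]

/-- Iteration of the maps `T i`. -/
private theorem gnA1_iter [IsDomain R] (m : MonomialOrder σ)
    (T : σ → MvPolynomial σ R →ₗ[R] MvPolynomial σ R)
    (hT : ∀ i P, P ≠ 0 → m.degree (T i P) = m.degree P + Finsupp.single i 1 ∧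
      m.leadingCoeff (T i P) = m.leadingCoeff P)
    (I : Submodule R (MvPolynomial σ R)) (hI : ∀ i, ∀ P ∈ I, T i P ∈ I) (γ : σ →₀ ℕ) :
    ∀ g ∈ I, g ≠ 0 → ∃ g' ∈ I, g' ≠ 0 ∧ m.degree g' = m.degree g + γ ∧
      m.leadingCoeff g' = m.leadingCoeff g := by
  induction γ using Finsupp.induction_linear with
  | zero => exact fun g hg h0 => ⟨g, hg, h0, by simp, rfl⟩
  | add f₁ f₂ h₁ h₂ =>
    intro g hg h0
    obtain ⟨g₁, hg₁, h01, hd₁, hl₁⟩ := h₁ g hg h0
    obtain ⟨g₂, hg₂, h02, hd₂, hl₂⟩ := h₂ g₁ hg₁ h01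
    exact ⟨g₂, hg₂, h02, by rw [hd₂, hd₁, add_assoc], hl₂.trans hl₁⟩
  | single i n =>
    induction n with
    | zero => exact fun g hg h0 => ⟨g, hg, h0, by simp, rfl⟩
    | succ n ih =>
      intro g hg h0
      obtain ⟨g₁, hg₁, h01, hd₁, hl₁⟩ := ih g hg h0
      obtain ⟨hd, hl⟩ := hT i g₁ h01
      refine ⟨T i g₁, hI i g₁ hg₁, ?_, ?_, hl.trans hl₁⟩
      · rw [← m.leadingCoeff_ne_zero_iff, hl]
        exact m.leadingCoeff_ne_zero_iff.2 h01
      · rw [hd, hd₁, add_assoc, ← Finsupp.single_add]

/-- A1. Let `T i` be linear maps that raise the degree by `e_i` and do not change the leading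
coefficient, and let `I` be stable under all `T i`.  Then there is `a ≠ 0` with `GB m I a`.

Proof.  Let `E = {m.degree P | P ∈ I, P ≠ 0}`.  By Dickson's lemma (`Finsupp.isPWO`, minimal
elements of a partially well ordered set are finitely many and every element of `E` is `≥` one of
them) there are finitely many nonzero `g_l ∈ I` such that every `e ∈ E` is `m.degree g_l + γ` for
some `l` and `γ`.  Let `a = ∏ lc(g_l) ≠ 0`.  For `P ∈ I` apply the `T i` (`γ i` times each) to
`g_l`: this gives an element of `I` of degree `m.degree P` with leading coefficient `lc(g_l)`;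
multiply it by the product of the other leading coefficients. -/
theorem exists_GB [IsDomain R] [Finite σ] (m : MonomialOrder σ)
    (T : σ → MvPolynomial σ R →ₗ[R] MvPolynomial σ R)
    (hT : ∀ i P, P ≠ 0 → m.degree (T i P) = m.degree P + Finsupp.single i 1 ∧
      m.leadingCoeff (T i P) = m.leadingCoeff P)
    (I : Submodule R (MvPolynomial σ R)) (hI : ∀ i, ∀ P ∈ I, T i P ∈ I) :
    ∃ a : R, a ≠ 0 ∧ GB m I a := by
  classical
  set E : Set (σ →₀ ℕ) := {e | ∃ P ∈ I, P ≠ 0 ∧ m.degree P = e} with hE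
  have hpwo : E.IsPWO := Set.isPWO_of_wellQuasiOrderedLE E
  have hfin : {e | Minimal (· ∈ E) e}.Finite :=
    (setOfPred_minimal_antichain _).finite_of_partiallyWellOrderedOn
      (hpwo.mono (setOfPred_minimal_subset _))
  have hg : ∀ e : σ →₀ ℕ, ∃ g : MvPolynomial σ R, e ∈ E → g ∈ I ∧ g ≠ 0 ∧ m.degree g = e := by
    intro e
    by_cases he : e ∈ E
    · obtain ⟨P, hP, h0, hd⟩ := he
      exact ⟨P, fun _ => ⟨hP, h0, hd⟩⟩
    · exact ⟨0, fun h => absurd h he⟩
  choose g hg using hg
  refine ⟨∏ e ∈ hfin.toFinset, m.leadingCoeff (g e), ?_, ?_⟩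
  · rw [Finset.prod_ne_zero_iff]
    intro e he
    have heE : e ∈ E := (hfin.mem_toFinset.1 he).1
    exact m.leadingCoeff_ne_zero_iff.2 (hg e heE).2.1
  · intro P hP hP0
    obtain ⟨e, hle, hmin⟩ := hpwo.exists_le_minimal (a := m.degree P) ⟨P, hP, hP0, rfl⟩
    have heE : e ∈ E := hmin.1
    obtain ⟨hgI, hg0, hgd⟩ := hg e heE
    obtain ⟨g', hg'I, hg'0, hg'd, hg'l⟩ :=
      gnA1_iter m T hT I hI (m.degree P - e) (g e) hgI hg0
    have hd : m.degree g' = m.degree P := by
      rw [hg'd, hgd, add_tsub_cancel_of_le hle]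
    set c : R := ∏ x ∈ hfin.toFinset.erase e, m.leadingCoeff (g x) with hc
    have hc0 : c ≠ 0 := by
      rw [hc, Finset.prod_ne_zero_iff]
      intro x hx
      have hxE : x ∈ E := (hfin.mem_toFinset.1 (Finset.mem_of_mem_erase hx)).1
      exact m.leadingCoeff_ne_zero_iff.2 (hg x hxE).2.1
    have hcl : m.leadingCoeff (C c : MvPolynomial σ R) * m.leadingCoeff g' ≠ 0 := by
      rw [m.leadingCoeff_C]
      exact mul_ne_zero hc0 (m.leadingCoeff_ne_zero_iff.2 hg'0)
    refine ⟨C c * g', ?_, ?_, ?_⟩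
    · rw [← MvPolynomial.smul_eq_C_mul]
      exact I.smul_mem c hg'I
    · rw [m.degree_mul_of_mul_leadingCoeff_ne_zero hcl, m.degree_C, zero_add, hd]
    · rw [m.leadingCoeff_mul_of_mul_leadingCoeff_ne_zero hcl, m.leadingCoeff_C, hg'l, hc]
      exact Finset.prod_erase_mul _ _ (hfin.mem_toFinset.2 hmin)

end MPb07157.GN
end
end

section

/-!
# C1. Uniqueness, and right multiplication
-/

noncomputable section

namespace MPb07157.GN

open MvPolynomial

variable {n : ℕ} {R V : Type} [CommRing R] [AddCommGroup V] [Module R V]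

/-- Uniqueness in the universal property: `T_induct` for the submodule
`LinearMap.eqLocus ρ ρ'`. -/
theorem act_unique (t : Ix n → V →ₗ[R] V) (ρ ρ' : MvPolynomial (Ix n) R →ₗ[R] V)
    (h1 : ρ 1 = ρ' 1) (h : ∀ i P, ρ (T R i P) = t i (ρ P))
    (h' : ∀ i P, ρ' (T R i P) = t i (ρ' P)) : ρ = ρ' := by
  have hW : LinearMap.eqLocus ρ ρ' = ⊤ := by
    refine T_induct _ ?_ ?_
    · exact h1
    · intro i P hP
      rw [LinearMap.mem_eqLocus] at hP ⊢
      rw [h, h', hP]
  exact LinearMap.eqLocus_eq_top.1 hW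

/-- Polynomials in the `x i` act by multiplication.  Induction on `G` (`MvPolynomial.induction_on`):
`rename Ix.x (G * X i) = T R (.x i) (rename Ix.x G)`, then `op_T`, `tS_x`. -/
theorem op_rename (v : Sq n R) (G : MvPolynomial (Fin n) R) (q : ℕ) :
    op v (rename Ix.x G) q = G * v q := by
  induction G using MvPolynomial.induction_on with
  | C a =>
    have h1 : (C a : MvPolynomial (Ix n) R) = a • 1 := by
      rw [← C_mul', mul_one]
    rw [rename_C, h1, map_smul, op_one, Pi.smul_apply, C_mul']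
  | add P Q hP hQ =>
    rw [map_add, map_add, Pi.add_apply, hP, hQ, add_mul]
  | mul_X P i hP =>
    have h1 : rename Ix.x (P * X i) = T R (.x i) (rename Ix.x P) := by
      rw [map_mul, rename_X, T_x, mul_comm]
    rw [h1, op_T, tS_x, hP]
    ring

/-- Right multiplication by `F`, then the application to `v`, is the application to `F v`:
`act_unique` for `op v ∘ₗ rm F` and `op (fun q => F * v q)` (`rm_one`, `op_rename`, `op_one`,
`rm_T`, `op_T`). -/
theorem op_rm (v : Sq n R) (F : MvPolynomial (Fin n) R) (P : MvPolynomial (Ix n) R) :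
    op v (rm F P) = op (fun q => F * v q) P := by
  have h : op v ∘ₗ rm F = op (fun q => F * v q) := by
    refine act_unique (tS R) _ _ ?_ ?_ ?_
    · rw [LinearMap.comp_apply, rm_one, op_one]
      funext q
      exact op_rename v F q
    · intro i P
      rw [LinearMap.comp_apply, LinearMap.comp_apply, rm_T, op_T]
    · intro i P
      rw [op_T]
  exact LinearMap.congr_fun h P

end MPb07157.GN
end
end

section

/-!
# C3. The submodules `I0 F j` and `I1 F j`
-/

noncomputable section

namespace MPb07157.GN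

open MvPolynomial

variable {n : ℕ} {R : Type} [CommRing R]

theorem EqI.refl (u : Sq n R) : EqI u u := Filter.Eventually.of_forall fun _ => rfl

theorem EqI.symm {u v : Sq n R} (h : EqI u v) : EqI v u := h.mono fun _ hq => hq.symm

theorem EqI.trans {u v w : Sq n R} (h : EqI u v) (h' : EqI v w) : EqI u w := by
  filter_upwards [h, h'] with q h1 h2
  rw [h1, h2]

theorem EqI.tS {u v : Sq n R} (h : EqI u v) (i : Ix n) : EqI (tS R i u) (tS R i v) := by
  cases i with
  | d i =>
    filter_upwards [h] with q hq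
    rw [tS_d, tS_d, hq]
  | x i =>
    filter_upwards [h] with q hq
    rw [tS_x, tS_x, hq]
  | s =>
    filter_upwards [h] with q hq
    rw [tS_s, tS_s, hq]

/-- Operators respect the equality for large `q` (`T_induct`). -/
theorem op_congr {u v : Sq n R} (h : EqI u v) (P : MvPolynomial (Ix n) R) :
    EqI (op u P) (op v P) := by
  let W : Submodule R (MvPolynomial (Ix n) R) :=
    { carrier := {P | EqI (op u P) (op v P)}
      add_mem' := fun {a b} ha hb => by
        filter_upwards [ha, hb] with q h1 h2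
        rw [map_add, map_add, Pi.add_apply, Pi.add_apply, h1, h2]
      zero_mem' := Filter.Eventually.of_forall fun q => by rw [map_zero, map_zero]
      smul_mem' := fun r a ha => by
        filter_upwards [ha] with q h1
        rw [map_smul, map_smul, Pi.smul_apply, Pi.smul_apply, h1] }
  have hW : W = ⊤ := by
    refine T_induct W ?_ ?_
    · show EqI (op u 1) (op v 1)
      rw [op_one, op_one]
      exact h
    · intro i P hP
      show EqI (op u (T R i P)) (op v (T R i P))
      rw [op_T, op_T]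
      exact EqI.tS hP i
  have hP : P ∈ W := by rw [hW]; exact Submodule.mem_top
  exact hP

/-- `P F^(s+j) = (P ∘ F) F^(s+j-1)` (`op_rm`, `op_congr`). -/
theorem op_rm_pw (F : MvPolynomial (Fin n) R) (j : ℤ) (P : MvPolynomial (Ix n) R) :
    EqI (op (pw F (j - 1)) (rm F P)) (op (pw F j) P) := by
  rw [op_rm]
  refine op_congr ?_ P
  filter_upwards [Filter.eventually_ge_atTop (1 - j).toNat] with q hq
  have h1 : ((q : ℤ) + j).toNat = ((q : ℤ) + (j - 1)).toNat + 1 := by omega
  show F * F ^ ((q : ℤ) + (j - 1)).toNat = F ^ ((q : ℤ) + j).toNat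
  rw [h1, pow_succ']

/-- `I0 F j` is a left ideal. -/
theorem I0_T (F : MvPolynomial (Fin n) R) (j : ℤ) (i : Ix n) (P : MvPolynomial (Ix n) R)
    (h : P ∈ I0 F j) : T R i P ∈ I0 F j := by
  rw [mem_I0] at h ⊢
  rw [op_T]
  have h1 := EqI.tS h i
  rwa [map_zero] at h1

/-- `I1 F j` is a left ideal. -/
theorem I1_T (F : MvPolynomial (Fin n) R) (j : ℤ) (i : Ix n) (P : MvPolynomial (Ix n) R)
    (h : P ∈ I1 F j) : T R i P ∈ I1 F j := by
  rw [mem_I1] at h ⊢
  obtain ⟨Q, hQ⟩ := h
  refine ⟨T R i Q, ?_⟩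
  rw [op_T, op_T]
  exact EqI.tS hQ i

theorem I0_le_I1 (F : MvPolynomial (Fin n) R) (j : ℤ) : I0 F j ≤ I1 F j := by
  intro P hP
  rw [mem_I0] at hP
  rw [mem_I1]
  refine ⟨0, ?_⟩
  rw [map_zero]
  exact hP

/-- `P F^(s+j) = 0` iff `(P ∘ F) F^(s+j-1) = 0`. -/
theorem I0_step (F : MvPolynomial (Fin n) R) (j : ℤ) (P : MvPolynomial (Ix n) R) :
    P ∈ I0 F j ↔ rm F P ∈ I0 F (j - 1) := by
  rw [mem_I0, mem_I0]
  have h := op_rm_pw F j P
  exact ⟨fun h1 => h.trans h1, fun h1 => h.symm.trans h1⟩

/-- `Q F^(s+j-1) = P F^(s+j)` iff `Q - P ∘ F ∈ I0 F (j-1)`. -/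
theorem I1_step (F : MvPolynomial (Fin n) R) (j : ℤ) (Q : MvPolynomial (Ix n) R) :
    Q ∈ I1 F (j - 1) ↔ ∃ P, ∃ Z ∈ I0 F (j - 1), Q = rm F P + Z := by
  rw [mem_I1]
  have hj : j - 1 + 1 = j := by ring
  rw [hj]
  constructor
  · rintro ⟨P, hP⟩
    refine ⟨P, Q - rm F P, ?_, by abel⟩
    rw [mem_I0]
    filter_upwards [hP, op_rm_pw F j P] with q h1 h2
    rw [map_sub, Pi.sub_apply, h1, h2, sub_self]
    rfl
  · rintro ⟨P, Z, hZ, rfl⟩
    refine ⟨P, ?_⟩
    rw [mem_I0] at hZ
    filter_upwards [hZ, op_rm_pw F j P] with q h1 h2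
    rw [map_add, Pi.add_apply, h1, h2]
    exact add_zero _

end MPb07157.GN
end
end

section

/-!
# C2. Base change
-/

noncomputable section

namespace MPb07157.GN

open MvPolynomial

variable {n : ℕ} {R S : Type} [CommRing R] [CommRing S]

/-- The generators commute with base change (`pderiv_map` or induction on `P`). -/
theorem T_map (φ : R →+* S) (i : Ix n) (P : MvPolynomial (Ix n) R) :
    T S i (map φ P) = map φ (T R i P) := by
  cases i with
  | d j => rw [T_d, T_d, map_add, map_mul, map_X, pderiv_map]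
  | x j => rw [T_x, T_x, map_mul, map_X]
  | s => rw [T_s, T_s, map_mul, map_X]

private theorem map_smul_gn {σ : Type} (φ : R →+* S) (r : R) (P : MvPolynomial σ R) :
    map φ (r • P) = φ r • map φ P := by
  rw [MvPolynomial.smul_eq_C_mul, MvPolynomial.smul_eq_C_mul, map_mul, map_C]

private theorem tS_map (φ : R →+* S) (i : Ix n) (v : Sq n R) (v' : Sq n S)
    (h : ∀ q, v' q = map φ (v q)) (q : ℕ) : tS S i v' q = map φ (tS R i v q) := by
  cases i with
  | d j => rw [tS_d, tS_d, h, pderiv_map]
  | x j => rw [tS_x, tS_x, h, map_mul, map_X]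
  | s => rw [tS_s, tS_s, h, map_mul, map_natCast]

/-- The operators commute with base change: `T_induct` for the submodule of all `P` with this
property (`map φ (r • P) = φ r • map φ P`). -/
theorem op_map (φ : R →+* S) (v : Sq n R) (P : MvPolynomial (Ix n) R) (q : ℕ) :
    op (fun q => map φ (v q)) (map φ P) q = map φ (op v P q) := by
  let W : Submodule R (MvPolynomial (Ix n) R) :=
    { carrier := {P | ∀ q, op (fun q => map φ (v q)) (map φ P) q = map φ (op v P q)}
      add_mem' := fun {a b} ha hb q => by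
        have h1 := ha q
        have h2 := hb q
        rw [map_add, map_add, map_add, Pi.add_apply, Pi.add_apply, map_add, h1, h2]
      zero_mem' := fun q => by
        rw [map_zero, map_zero, map_zero, Pi.zero_apply, Pi.zero_apply, map_zero]
      smul_mem' := fun r a ha q => by
        have h1 := ha q
        rw [map_smul_gn, LinearMap.map_smul, LinearMap.map_smul, Pi.smul_apply, Pi.smul_apply,
          map_smul_gn, h1] }
  have hW : W = ⊤ := by
    refine T_induct W (fun q => ?_) fun i P hP q => ?_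
    · rw [map_one, op_one, op_one]
    · rw [← T_map, op_T, op_T]
      exact tS_map φ i _ _ hP q
  have : P ∈ W := by rw [hW]; exact Submodule.mem_top
  exact this q

/-- Right multiplication commutes with base change (same proof; `MvPolynomial.map_rename`). -/
theorem rm_map (φ : R →+* S) (F : MvPolynomial (Fin n) R) (P : MvPolynomial (Ix n) R) :
    rm (map φ F) (map φ P) = map φ (rm F P) := by
  let W : Submodule R (MvPolynomial (Ix n) R) :=
    { carrier := {P | rm (map φ F) (map φ P) = map φ (rm F P)}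
      add_mem' := fun {a b} ha hb => by
        have h1 : rm (map φ F) (map φ a) = map φ (rm F a) := ha
        have h2 : rm (map φ F) (map φ b) = map φ (rm F b) := hb
        show rm (map φ F) (map φ (a + b)) = map φ (rm F (a + b))
        rw [map_add, map_add, map_add, map_add, h1, h2]
      zero_mem' := by
        show rm (map φ F) (map φ 0) = map φ (rm F 0)
        rw [map_zero, map_zero, map_zero, map_zero]
      smul_mem' := fun r a ha => by
        have h1 : rm (map φ F) (map φ a) = map φ (rm F a) := ha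
        show rm (map φ F) (map φ (r • a)) = map φ (rm F (r • a))
        rw [map_smul_gn, LinearMap.map_smul, LinearMap.map_smul, map_smul_gn, h1] }
  have hW : W = ⊤ := by
    refine T_induct W ?_ fun i P hP => ?_
    · show rm (map φ F) (map φ 1) = map φ (rm F 1)
      rw [map_one, rm_one, rm_one, map_rename]
    · have h1 : rm (map φ F) (map φ P) = map φ (rm F P) := hP
      show rm (map φ F) (map φ (T R i P)) = map φ (rm F (T R i P))
      rw [← T_map, rm_T, rm_T, h1, T_map]
  have : P ∈ W := by rw [hW]; exact Submodule.mem_top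
  exact this

/-- `φ(F^(s+j)) = φ(F)^(s+j)`. -/
theorem pw_map (φ : R →+* S) (F : MvPolynomial (Fin n) R) (j : ℤ) :
    (fun q => map φ (pw F j q)) = pw (map φ F) j := by
  funext q
  show map φ (F ^ ((q : ℤ) + j).toNat) = (map φ F) ^ ((q : ℤ) + j).toNat
  rw [map_pow]

/-- An identity `P F^(s+j) = Q F^(s+k)` can be specialized. -/
theorem EqI_map (φ : R →+* S) {F : MvPolynomial (Fin n) R} {j k : ℤ}
    {P Q : MvPolynomial (Ix n) R} (h : EqI (op (pw F j) P) (op (pw F k) Q)) :
    EqI (op (pw (map φ F) j) (map φ P)) (op (pw (map φ F) k) (map φ Q)) := by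
  filter_upwards [h] with q hq
  rw [← pw_map, ← pw_map, op_map, op_map, hq]

end MPb07157.GN
end
end
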