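import Pool.Agent.Lib.MP_b07157_ag.GN.C2
import Pool.Agent.Lib.MP_b07157_ag.GN.Abs
import Pool.Agent.Lib.MP_b07157_ag.GN.A5
import Pool.Agent.Lib.MP_b07157_ag.Defs

section

/-!
# C5. Operators without derivatives
-/

noncomputable section

namespace MPb07157.GN

open MvPolynomial

variable {n : ℕ} {R : Type} [CommRing R]

/-- The value at `s = q` of an operator without derivatives. -/
def evx (q : ℕ) : MvPolynomial (Ix n) R →ₐ[R] MvPolynomial (Fin n) R :=
  aeval fun i => match i with
    | .s => (q : MvPolynomial (Fin n) R)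
    | .x i => X i
    | .d _ => 0

private theorem xs_induct_mon (W : Submodule R (MvPolynomial (Ix n) R))
    (h1 : (1 : MvPolynomial (Ix n) R) ∈ W)
    (hx : ∀ i, ∀ P ∈ W, X (.x i) * P ∈ W) (hs : ∀ P ∈ W, X .s * P ∈ W) (N : ℕ) :
    ∀ e : Ix n →₀ ℕ, e.degree = N → (∀ i, e (.d i) = 0) →
      (monomial e (1 : R) : MvPolynomial (Ix n) R) ∈ W := by
  induction N with
  | zero =>
    intro e he _
    rw [(Finsupp.degree_eq_zero_iff e).1 he]
    exact h1
  | succ N ih =>
    intro e he hd
    have hne : e ≠ 0 := by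
      rintro rfl
      rw [(Finsupp.degree_eq_zero_iff _).2 rfl] at he
      omega
    obtain ⟨k, hk⟩ := Finsupp.ne_iff.1 hne
    have hle : Finsupp.single k 1 ≤ e :=
      Finsupp.single_le_iff.2 (Nat.one_le_iff_ne_zero.2 hk)
    have h2 : (monomial e (1 : R) : MvPolynomial (Ix n) R) =
        X k * monomial (e - Finsupp.single k 1) 1 := by
      rw [X, monomial_mul, mul_one, add_tsub_cancel_of_le hle]
    have h3 : (e - Finsupp.single k 1).degree = N := by
      have h4 : (Finsupp.single k 1 + (e - Finsupp.single k 1)).degree = N + 1 := by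
        rw [add_tsub_cancel_of_le hle, he]
      rw [map_add, Finsupp.degree_single] at h4
      omega
    have h5 : ∀ i, (e - Finsupp.single k 1 : Ix n →₀ ℕ) (.d i) = 0 := fun i => by
      rw [Finsupp.tsub_apply, hd i, Nat.zero_sub]
    have h6 := ih _ h3 h5
    rw [h2]
    cases k with
    | d i => exact absurd (hd i) hk
    | x i => exact hx i _ h6
    | s => exact hs _ h6

/-- Induction principle for operators without derivatives. -/
theorem xs_induct (W : Submodule R (MvPolynomial (Ix n) R)) (h1 : (1 : MvPolynomial (Ix n) R) ∈ W)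
    (hx : ∀ i, ∀ P ∈ W, X (.x i) * P ∈ W) (hs : ∀ P ∈ W, X .s * P ∈ W)
    (G : MvPolynomial (Ix n) R) (hG : xs G) : G ∈ W := by
  rw [G.as_sum]
  refine Submodule.sum_mem _ fun e he => ?_
  have h2 : (monomial e (coeff e G) : MvPolynomial (Ix n) R) = coeff e G • monomial e (1 : R) := by
    rw [smul_monomial, smul_eq_mul, mul_one]
  rw [h2]
  exact W.smul_mem _ (xs_induct_mon W h1 hx hs _ e rfl (hG e he))

/-- `G P v(s)` at `s = q` is `G(x, q) (P v)(q)`, if `G` has no derivatives (`xs_induct`). -/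
private theorem evx_x (q : ℕ) (j : Fin n) :
    evx q (X (.x j) : MvPolynomial (Ix n) R) = X j := by
  unfold evx
  rw [aeval_X]

private theorem evx_s (q : ℕ) :
    evx q (X .s : MvPolynomial (Ix n) R) = (q : MvPolynomial (Fin n) R) := by
  unfold evx
  rw [aeval_X]

theorem op_xs_mul (v : Sq n R) (G : MvPolynomial (Ix n) R) (hG : xs G)
    (P : MvPolynomial (Ix n) R) (q : ℕ) : op v (G * P) q = evx q G * op v P q := by
  let W : Submodule R (MvPolynomial (Ix n) R) :=
    { carrier := {G | op v (G * P) q = evx q G * op v P q}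
      add_mem' := fun {a b} ha hb => by
        have ha' : op v (a * P) q = evx q a * op v P q := ha
        have hb' : op v (b * P) q = evx q b * op v P q := hb
        change op v ((a + b) * P) q = evx q (a + b) * op v P q
        rw [add_mul, map_add, map_add, Pi.add_apply, ha', hb', add_mul]
      zero_mem' := by
        change op v (0 * P) q = evx q 0 * op v P q
        rw [zero_mul, map_zero, map_zero, zero_mul]
        rfl
      smul_mem' := fun r a ha => by
        have ha' : op v (a * P) q = evx q a * op v P q := ha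
        change op v ((r • a) * P) q = evx q (r • a) * op v P q
        rw [smul_mul_assoc, map_smul, map_smul, Pi.smul_apply, ha', smul_mul_assoc] }
  have hW : ∀ G, G ∈ W ↔ op v (G * P) q = evx q G * op v P q := fun _ => Iff.rfl
  refine (hW G).1 (xs_induct W ((hW 1).2 ?_) (fun i Q hQ => (hW _).2 ?_)
    (fun Q hQ => (hW _).2 ?_) G hG)
  · rw [one_mul, map_one, one_mul]
  · have hQ' := (hW Q).1 hQ
    rw [mul_assoc, ← T_x, op_T, tS_x, hQ', map_mul, evx_x, mul_assoc]
  · have hQ' := (hW Q).1 hQ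
    rw [mul_assoc, ← T_s, op_T, tS_s, hQ', map_mul, evx_s, mul_assoc]

theorem op_xs (v : Sq n R) (G : MvPolynomial (Ix n) R) (hG : xs G) (q : ℕ) :
    op v G q = evx q G * v q := by
  have h := op_xs_mul v G hG 1 q
  rwa [mul_one, op_one] at h

theorem xs_add {G H : MvPolynomial (Ix n) R} (hG : xs G) (hH : xs H) : xs (G + H) := by
  classical
  intro e he i
  rcases Finset.mem_union.1 (support_add he) with h | h
  · exact hG e h i
  · exact hH e h i

theorem xs_mul {G H : MvPolynomial (Ix n) R} (hG : xs G) (hH : xs H) : xs (G * H) := by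
  classical
  intro e he i
  obtain ⟨a, ha, b, hb, rfl⟩ := Finset.mem_add.1 (support_mul G H he)
  rw [Finsupp.add_apply, hG a ha i, hH b hb i]

theorem xs_smul (r : R) {G : MvPolynomial (Ix n) R} (hG : xs G) : xs (r • G) := by
  intro e he i
  exact hG e (support_smul he) i

theorem xs_X (i : Ix n) (hi : ∀ j, i ≠ .d j) : xs (X i : MvPolynomial (Ix n) R) := by
  classical
  intro e he j
  rw [mem_support_iff, coeff_X, ne_eq, ite_eq_right_iff, Classical.not_imp] at he
  rw [← he.1, Finsupp.single_apply, if_neg (hi j)]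

theorem xs_C (r : R) : xs (C r : MvPolynomial (Ix n) R) := by
  classical
  intro e he j
  rw [mem_support_iff, coeff_C, ne_eq, ite_eq_right_iff, Classical.not_imp] at he
  rw [← he.1, Finsupp.zero_apply]

theorem xs_rename (G : MvPolynomial (Fin n) R) : xs (rename Ix.x G) := by
  classical
  intro e he j
  rw [mem_support_iff] at he
  obtain ⟨u, hu, -⟩ := coeff_rename_ne_zero _ _ _ he
  rw [← hu]
  refine Finsupp.mapDomain_of_notMem_range _ _ ?_
  rintro ⟨k, hk⟩
  exact absurd hk (by simp)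

private theorem xs_zero : xs (0 : MvPolynomial (Ix n) R) := by
  intro e he
  rw [support_zero] at he
  exact absurd he (Finset.notMem_empty e)

private theorem xs_pderiv_X (i : Fin n) (k : Ix n) :
    xs (pderiv (.x i) (X k) : MvPolynomial (Ix n) R) := by
  classical
  rw [pderiv_X, Pi.single_apply]
  split_ifs
  · exact xs_C 1
  · exact xs_zero

theorem xs_pderiv (i : Fin n) {G : MvPolynomial (Ix n) R} (hG : xs G) : xs (pderiv (.x i) G) := by
  let W : Submodule R (MvPolynomial (Ix n) R) :=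
    { carrier := {G | xs G ∧ xs (pderiv (.x i) G)}
      add_mem' := fun {a b} ha hb => ⟨xs_add ha.1 hb.1, by
        rw [map_add]
        exact xs_add ha.2 hb.2⟩
      zero_mem' := ⟨xs_zero, by
        rw [map_zero]
        exact xs_zero⟩
      smul_mem' := fun r a ha => ⟨xs_smul r ha.1, by
        rw [Derivation.map_smul]
        exact xs_smul r ha.2⟩ }
  have hW : ∀ G, G ∈ W ↔ xs G ∧ xs (pderiv (.x i) G) := fun _ => Iff.rfl
  have h : xs G ∧ xs (pderiv (.x i) G) := by
    refine (hW G).1 (xs_induct W ((hW 1).2 ?_) (fun j Q hQ => (hW _).2 ?_)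
      (fun Q hQ => (hW _).2 ?_) G hG)
    · refine ⟨xs_C 1, ?_⟩
      rw [pderiv_one]
      exact xs_zero
    · refine ⟨xs_mul (xs_X _ fun k hk => by simp at hk) hQ.1, ?_⟩
      rw [pderiv_mul]
      exact xs_add (xs_mul (xs_pderiv_X i _) hQ.1)
        (xs_mul (xs_X _ fun k hk => by simp at hk) hQ.2)
    · refine ⟨xs_mul (xs_X _ fun k hk => by simp at hk) hQ.1, ?_⟩
      rw [pderiv_mul]
      exact xs_add (xs_mul (xs_pderiv_X i _) hQ.1)
        (xs_mul (xs_X _ fun k hk => by simp at hk) hQ.2)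
  exact h.2

theorem evx_rename (q : ℕ) (G : MvPolynomial (Fin n) R) : evx q (rename Ix.x G) = G := by
  unfold evx
  rw [aeval_rename]
  exact aeval_X_left_apply G

/-- `∂_i` commutes with the evaluation at `s = q`. -/
theorem evx_pderiv (q : ℕ) (i : Fin n) {G : MvPolynomial (Ix n) R} (hG : xs G) :
    evx q (pderiv (.x i) G) = pderiv i (evx q G) := by
  classical
  let W : Submodule R (MvPolynomial (Ix n) R) :=
    { carrier := {G | evx q (pderiv (.x i) G) = pderiv i (evx q G)}
      add_mem' := fun {a b} ha hb => by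
        have ha' : evx q (pderiv (.x i) a) = pderiv i (evx q a) := ha
        have hb' : evx q (pderiv (.x i) b) = pderiv i (evx q b) := hb
        change evx q (pderiv (.x i) (a + b)) = pderiv i (evx q (a + b))
        rw [map_add, map_add, map_add, map_add, ha', hb']
      zero_mem' := by
        change evx q (pderiv (.x i) 0) = pderiv i (evx q 0)
        rw [map_zero, map_zero, map_zero]
      smul_mem' := fun r a ha => by
        have ha' : evx q (pderiv (.x i) a) = pderiv i (evx q a) := ha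
        change evx q (pderiv (.x i) (r • a)) = pderiv i (evx q (r • a))
        rw [Derivation.map_smul, map_smul, map_smul, Derivation.map_smul, ha'] }
  have hW : ∀ G, G ∈ W ↔ evx q (pderiv (.x i) G) = pderiv i (evx q G) := fun _ => Iff.rfl
  refine (hW G).1 (xs_induct W ((hW 1).2 ?_) (fun j Q hQ => (hW _).2 ?_)
    (fun Q hQ => (hW _).2 ?_) G hG)
  · rw [pderiv_one, map_zero, map_one, pderiv_one]
  · have hQ' := (hW Q).1 hQ
    have h1 : evx q (pderiv (.x i) (X (.x j)) : MvPolynomial (Ix n) R) =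
        pderiv i (X j : MvPolynomial (Fin n) R) := by
      rw [pderiv_X, pderiv_X, Pi.single_apply, Pi.single_apply]
      by_cases h : j = i
      · subst h
        rw [if_pos rfl, if_pos rfl, map_one]
      · rw [if_neg h, if_neg (fun h' => h (Ix.x.inj h')), map_zero]
    rw [pderiv_mul, map_add, map_mul, map_mul, map_mul, evx_x, pderiv_mul, hQ', h1]
  · have hQ' := (hW Q).1 hQ
    have hq : pderiv i ((q : ℕ) : MvPolynomial (Fin n) R) = 0 := by
      rw [← map_natCast (C : R →+* MvPolynomial (Fin n) R), pderiv_C]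
    have h1 : (pderiv (.x i) (X .s) : MvPolynomial (Ix n) R) = 0 := by
      rw [pderiv_X, Pi.single_apply, if_neg (by simp)]
    rw [pderiv_mul, map_add, map_mul, map_mul, map_mul, evx_s, pderiv_mul, hQ', h1, map_zero, hq]

end MPb07157.GN
end
end

section

/-!
# C4. The shift `s ↦ s + z`
-/

noncomputable section

namespace MPb07157.GN

open MvPolynomial

variable {n : ℕ} {R : Type} [CommRing R]

/-- The substitution `s ↦ s + z`. -/
def sh (R : Type) [CommRing R] (z : ℤ) : MvPolynomial (Ix n) R →ₐ[R] MvPolynomial (Ix n) R :=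
  aeval fun i => match i with
    | .s => X .s + (z : MvPolynomial (Ix n) R)
    | .x i => X (.x i)
    | .d i => X (.d i)

private theorem sh_X_s (z : ℤ) :
    sh R z (X (.s : Ix n)) = X .s + (z : MvPolynomial (Ix n) R) := by
  unfold sh
  rw [aeval_X]

private theorem sh_X_x (z : ℤ) (i : Fin n) : sh R z (X (.x i : Ix n)) = X (.x i) := by
  unfold sh
  rw [aeval_X]

private theorem sh_X_d (z : ℤ) (i : Fin n) : sh R z (X (.d i : Ix n)) = X (.d i) := by
  unfold sh
  rw [aeval_X]

private theorem sh_pd (z : ℤ) (i : Fin n) (P : MvPolynomial (Ix n) R) :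
    sh R z (pderiv (.x i) P) = pderiv (.x i) (sh R z P) := by
  classical
  induction P using MvPolynomial.induction_on with
  | C a => rw [pderiv_C, map_zero, show sh R z (C a) = C a from (sh R z).commutes a, pderiv_C]
  | add p q hp hq => rw [map_add, map_add, hp, hq, map_add, map_add]
  | mul_X p k hp =>
    rw [Derivation.leibniz, map_add, smul_eq_mul, smul_eq_mul, map_mul, map_mul, map_mul,
      Derivation.leibniz, smul_eq_mul, smul_eq_mul, hp]
    congr 2
    cases k with
    | d k =>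
      rw [sh_X_d, pderiv_X_of_ne (by simp), map_zero]
    | x k =>
      rw [sh_X_x]
      by_cases h : k = i
      · subst h
        rw [pderiv_X_self, map_one]
      · rw [pderiv_X_of_ne (by simpa using h), map_zero]
    | s =>
      rw [sh_X_s, pderiv_X_of_ne (by simp), map_zero, map_add, pderiv_X_of_ne (by simp), zero_add]
      have : (z : MvPolynomial (Ix n) R) = C (z : R) := (map_intCast (C : R →+* MvPolynomial (Ix n) R) z).symm
      rw [this, pderiv_C]

private theorem sh_T_d (z : ℤ) (i : Fin n) (P : MvPolynomial (Ix n) R) :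
    sh R z (T R (.d i) P) = T R (.d i) (sh R z P) := by
  rw [T_d, T_d, map_add, map_mul, sh_X_d, sh_pd]

private theorem sh_T_x (z : ℤ) (i : Fin n) (P : MvPolynomial (Ix n) R) :
    sh R z (T R (.x i) P) = T R (.x i) (sh R z P) := by
  rw [T_x, T_x, map_mul, sh_X_x]

private theorem sh_T_s (z : ℤ) (P : MvPolynomial (Ix n) R) :
    sh R z (T R .s P) = T R .s (sh R z P) + (z : R) • sh R z P := by
  rw [T_s, T_s, map_mul, sh_X_s, add_mul]
  congr 1
  rw [MvPolynomial.smul_eq_C_mul, map_intCast]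

/-- `P(s+z) F^(s+j)` at `s = q` is `P(s') F^(s'+j-z)` at `s' = q + z`.

Proof.  `T_induct` for the submodule of all `P` with this property for all `q`: `sh` commutes with
`T (.d i)`, `T (.x i)`, and `sh (T .s P) = (X .s + z) * sh P`, so that
`op v (sh (T .s P)) q = (q + z) * op v (sh P) q`. -/
theorem op_sh (F : MvPolynomial (Fin n) R) (j z : ℤ) (P : MvPolynomial (Ix n) R) (q : ℕ)
    (hq : 0 ≤ (q : ℤ) + z) :
    op (pw F j) (sh R z P) q = op (pw F (j - z)) P ((q : ℤ) + z).toNat := by
  let W : Submodule R (MvPolynomial (Ix n) R) :=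
    { carrier := {P | ∀ q : ℕ, 0 ≤ (q : ℤ) + z →
        op (pw F j) (sh R z P) q = op (pw F (j - z)) P ((q : ℤ) + z).toNat}
      add_mem' := fun {a b} ha hb q hq => by
        have h1 := ha q hq
        have h2 := hb q hq
        simp only [map_add, Pi.add_apply]
        rw [h1, h2]
      zero_mem' := fun q hq => by simp only [map_zero, Pi.zero_apply]
      smul_mem' := fun r a ha q hq => by
        have h1 := ha q hq
        simp only [map_smul, Pi.smul_apply]
        rw [h1] }
  have hW : W = ⊤ := by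
    refine T_induct W ?_ ?_
    · intro q hq
      rw [map_one, op_one, op_one]
      unfold pw
      congr 2
      rw [Int.toNat_of_nonneg hq]
      ring
    · intro i P hP q hq
      have h1 := hP q hq
      cases i with
      | d i =>
        rw [sh_T_d, op_T, op_T, tS_d, tS_d, h1]
      | x i =>
        rw [sh_T_x, op_T, op_T, tS_x, tS_x, h1]
      | s =>
        rw [sh_T_s, map_add, Pi.add_apply, op_T, op_T, tS_s, tS_s, map_smul, Pi.smul_apply, h1]
        have h2 : ((((q : ℤ) + z).toNat : ℕ) : MvPolynomial (Fin n) R) =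
            (q : MvPolynomial (Fin n) R) + (z : MvPolynomial (Fin n) R) := by
          have h3 : ((((q : ℤ) + z).toNat : ℕ) : ℤ) = (q : ℤ) + z := Int.toNat_of_nonneg hq
          have h4 := congrArg (Int.cast : ℤ → MvPolynomial (Fin n) R) h3
          rw [Int.cast_natCast, Int.cast_add, Int.cast_natCast] at h4
          exact h4
        rw [h2, add_mul]
        congr 1
        rw [MvPolynomial.smul_eq_C_mul, map_intCast]
  have hP : P ∈ W := by rw [hW]; trivial
  exact hP q hq

theorem sh_sh (z : ℤ) (P : MvPolynomial (Ix n) R) : sh R z (sh R (-z) P) = P := by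
  have h : (sh R z).comp (sh R (-z)) = AlgHom.id R (MvPolynomial (Ix n) R) := by
    refine MvPolynomial.algHom_ext fun i => ?_
    rw [AlgHom.comp_apply, AlgHom.id_apply]
    cases i with
    | d i => rw [sh_X_d, sh_X_d]
    | x i => rw [sh_X_x, sh_X_x]
    | s =>
      rw [sh_X_s, map_add, sh_X_s, map_intCast, Int.cast_neg]
      ring
  have h1 := congrArg (fun f => f P) h
  simpa using h1

private theorem sh_X_mon [Nontrivial R] (z : ℤ) (i : Ix n) :
    (mo n).Monic (sh R z (X i)) ∧ (mo n).degree (sh R z (X i)) = Finsupp.single i 1 := by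
  cases i with
  | d i =>
    rw [sh_X_d]
    exact ⟨(mo n).leadingCoeff_X, (mo n).degree_X⟩
  | x i =>
    rw [sh_X_x]
    exact ⟨(mo n).leadingCoeff_X, (mo n).degree_X⟩
  | s =>
    rw [sh_X_s]
    have hz : (z : MvPolynomial (Ix n) R) = C (z : R) := (map_intCast (C : R →+* MvPolynomial (Ix n) R) z).symm
    rw [hz]
    have hlt : (mo n).toSyn ((mo n).degree (C (z : R) : MvPolynomial (Ix n) R)) <
        (mo n).toSyn ((mo n).degree (X (.s : Ix n) : MvPolynomial (Ix n) R)) := by
      rw [(mo n).degree_C, (mo n).degree_X, map_zero]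
      refine lt_of_le_of_ne ((mo n).zero_le _) fun h => ?_
      have h2 := (mo n).toSyn.injective ((map_zero (mo n).toSyn).trans h)
      have h3 := DFunLike.congr_fun h2 (.s : Ix n)
      simp at h3
    exact ⟨MonomialOrder.Monic.add_of_lt (mo n).leadingCoeff_X hlt,
      by rw [(mo n).degree_add_of_lt hlt, (mo n).degree_X]⟩

private theorem sh_mono [Nontrivial R] (z : ℤ) (e : Ix n →₀ ℕ) :
    (mo n).Monic (sh R z (monomial e 1)) ∧ (mo n).degree (sh R z (monomial e 1)) = e := by
  suffices h : ∀ (N : ℕ) (e : Ix n →₀ ℕ), e.degree = N →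
      (mo n).Monic (sh R z (monomial e 1)) ∧ (mo n).degree (sh R z (monomial e 1)) = e from
    h _ e rfl
  intro N
  induction N with
  | zero =>
    intro e he
    have : e = 0 := (Finsupp.degree_eq_zero_iff e).1 he
    subst this
    rw [show (monomial 0 1 : MvPolynomial (Ix n) R) = 1 from rfl, map_one]
    exact ⟨(mo n).monic_one, (mo n).degree_one⟩
  | succ N ih =>
    intro e he
    have hne : e ≠ 0 := by
      intro h
      rw [h, map_zero] at he
      omega
    obtain ⟨i, hi⟩ := Finsupp.ne_iff.mp hne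
    have hle : Finsupp.single i 1 ≤ e := by
      rw [Finsupp.single_le_iff]
      have : e i ≠ 0 := hi
      omega
    have hdec : (e - Finsupp.single i 1) + Finsupp.single i 1 = e := tsub_add_cancel_of_le hle
    have hdeg : (e - Finsupp.single i 1).degree = N := by
      have h := congrArg Finsupp.degree hdec
      rw [map_add, Finsupp.degree_single, he] at h
      omega
    obtain ⟨h1, h2⟩ := ih _ hdeg
    obtain ⟨h3, h4⟩ := sh_X_mon (R := R) z i
    have hX : (monomial e (1 : R)) = monomial (e - Finsupp.single i 1) 1 * X i := by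
      rw [X, monomial_mul, hdec, mul_one]
    rw [hX, map_mul]
    refine ⟨h1.mul h3, ?_⟩
    rw [(mo n).degree_mul_of_mul_leadingCoeff_ne_zero (by rw [h1, h3, mul_one]; exact one_ne_zero),
      h2, h4, hdec]

/-- The shift does not change the leading term: the exponents of `sh R z P` are of the form
`e - i e_s` with `e ∈ P.support`, and the coefficient of `sh R z P` at `m.degree P` only gets a
contribution from `e = m.degree P`, `i = 0`. -/
theorem sh_degree (z : ℤ) (P : MvPolynomial (Ix n) R) :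
    (mo n).degree (sh R z P) = (mo n).degree P ∧
      (mo n).leadingCoeff (sh R z P) = (mo n).leadingCoeff P := by
  rcases subsingleton_or_nontrivial R with hR | hR
  · have : sh R z P = P := Subsingleton.elim _ _
    rw [this]
    exact ⟨rfl, rfl⟩
  by_cases hP : P = 0
  · subst hP
    rw [map_zero]
    exact ⟨rfl, rfl⟩
  set e0 := (mo n).degree P with he0
  have hsum : ∀ d : Ix n →₀ ℕ, coeff d (sh R z P) =
      ∑ e ∈ P.support, coeff e P * coeff d (sh R z (monomial e 1)) := by
    intro d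
    conv_lhs => rw [P.as_sum]
    rw [map_sum, coeff_sum]
    refine Finset.sum_congr rfl fun e _ => ?_
    have : monomial e (coeff e P) = coeff e P • monomial e (1 : R) := by
      rw [smul_monomial, smul_eq_mul, mul_one]
    rw [this, map_smul, coeff_smul, smul_eq_mul]
  have hbig : ∀ d : Ix n →₀ ℕ, (mo n).toSyn e0 < (mo n).toSyn d → coeff d (sh R z P) = 0 := by
    intro d hd
    rw [hsum]
    refine Finset.sum_eq_zero fun e he => ?_
    have h1 : (mo n).toSyn e ≤ (mo n).toSyn e0 := (mo n).le_degree he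
    have h3 : coeff d (sh R z (monomial e 1)) = 0 :=
      (mo n).coeff_eq_zero_of_lt (by rw [(sh_mono z e).2]; exact h1.trans_lt hd)
    rw [h3, mul_zero]
  have hlead : coeff e0 (sh R z P) = (mo n).leadingCoeff P := by
    rw [hsum]
    rw [Finset.sum_eq_single e0]
    · have h1 := (sh_mono (R := R) z e0).1.coeff_degree
      rw [(sh_mono z e0).2] at h1
      rw [h1, mul_one]
      rfl
    · intro e he hne
      have h1 : (mo n).toSyn e ≤ (mo n).toSyn e0 := (mo n).le_degree he
      have h2 : (mo n).toSyn e < (mo n).toSyn e0 :=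
        lt_of_le_of_ne h1 fun h => hne ((mo n).toSyn.injective h)
      have h3 : coeff e0 (sh R z (monomial e 1)) = 0 :=
        (mo n).coeff_eq_zero_of_lt (by rw [(sh_mono z e).2]; exact h2)
      rw [h3, mul_zero]
    · intro h
      rw [notMem_support_iff.1 h, zero_mul]
  have hdeg : (mo n).degree (sh R z P) = e0 := by
    apply (mo n).toSyn.injective
    apply le_antisymm
    · rw [(mo n).degree_le_iff]
      intro c hc
      by_contra hcon
      exact (mem_support_iff.1 hc) (hbig c (not_le.1 hcon))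
    · refine (mo n).le_degree (mem_support_iff.2 ?_)
      rw [hlead]
      exact (mo n).leadingCoeff_ne_zero_iff.2 hP
  refine ⟨hdeg, ?_⟩
  rw [MonomialOrder.leadingCoeff, hdeg, hlead]

private theorem sh_mem {F : MvPolynomial (Fin n) R} {j : ℤ} (z : ℤ) {P : MvPolynomial (Ix n) R}
    (h : P ∈ I1 F j) : sh R z P ∈ I1 F (j + z) := by
  obtain ⟨Q, hQ⟩ := h
  refine ⟨sh R z Q, ?_⟩
  obtain ⟨N, hN⟩ := Filter.eventually_atTop.1 hQ
  refine Filter.eventually_atTop.2 ⟨N + z.natAbs, fun q hq => ?_⟩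
  have hq0 : 0 ≤ (q : ℤ) + z := by omega
  have hqN : N ≤ ((q : ℤ) + z).toNat := by omega
  rw [op_sh F (j + z) z P q hq0, op_sh F (j + z + 1) z Q q hq0]
  have e1 : j + z - z = j := by ring
  have e2 : j + z + 1 - z = j + 1 := by ring
  rw [e1, e2]
  exact hN _ hqN

/-- `P ∈ I1 F (j + z)` iff `sh (-z)` of it lies in `I1 F j`, so the constants `a` agree. -/
theorem GB_shift (F : MvPolynomial (Fin n) R) (j z : ℤ) (a : R) (h : GB (mo n) (I1 F j) a) :
    GB (mo n) (I1 F (j + z)) a := by
  intro P hP hP0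
  have h1 : sh R (-z) P ∈ I1 F j := by
    have := sh_mem (-z) hP
    rwa [add_neg_cancel_right] at this
  have h0 : sh R (-z) P ≠ 0 := by
    intro h2
    have h3 := sh_sh z P
    rw [h2, map_zero] at h3
    exact hP0 h3.symm
  obtain ⟨g, hg, hd, hl⟩ := h _ h1 h0
  refine ⟨sh R z g, sh_mem z hg, ?_, ?_⟩
  · rw [(sh_degree z g).1, hd, (sh_degree (-z) P).1]
  · rw [(sh_degree z g).2, hl]

end MPb07157.GN
end
end

section

/-!
# C6. Operators applied to `F^s`
-/

noncomputable section

namespace MPb07157.GN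

open MvPolynomial

variable {n : ℕ} {R : Type} [CommRing R]

private theorem xs_zero' : xs (0 : MvPolynomial (Ix n) R) := by
  intro e he
  simp at he

/-- the submodule of the operators `P` for which denominators can be cleared -/
private def cdW (F : MvPolynomial (Fin n) R) : Submodule R (MvPolynomial (Ix n) R) where
  carrier := {P | ∃ k0 : ℕ, ∀ k ≥ k0, ∃ G, xs G ∧ EqI (op (pw F 0) P) (op (pw F (-(k : ℤ))) G)}
  add_mem' := by
    rintro P Q ⟨k0, hP⟩ ⟨k1, hQ⟩
    refine ⟨max k0 k1, fun k hk => ?_⟩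
    obtain ⟨G, hG, h1⟩ := hP k (le_trans (le_max_left _ _) hk)
    obtain ⟨H, hH, h2⟩ := hQ k (le_trans (le_max_right _ _) hk)
    refine ⟨G + H, xs_add hG hH, ?_⟩
    filter_upwards [h1, h2] with q h1 h2
    rw [map_add, map_add, Pi.add_apply, Pi.add_apply, h1, h2]
  zero_mem' := ⟨0, fun k _ => ⟨0, xs_zero', Filter.Eventually.of_forall fun q => by
    rw [map_zero, map_zero]⟩⟩
  smul_mem' := by
    rintro r P ⟨k0, hP⟩
    refine ⟨k0, fun k hk => ?_⟩
    obtain ⟨G, hG, h1⟩ := hP k hk
    refine ⟨r • G, xs_smul r hG, ?_⟩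
    filter_upwards [h1] with q h1
    rw [map_smul, map_smul, Pi.smul_apply, Pi.smul_apply, h1]

private theorem mem_cdW {F : MvPolynomial (Fin n) R} {P : MvPolynomial (Ix n) R} :
    P ∈ cdW F ↔ ∃ k0 : ℕ, ∀ k ≥ k0, ∃ G, xs G ∧
      EqI (op (pw F 0) P) (op (pw F (-(k : ℤ))) G) := Iff.rfl

private theorem pw_neg (F : MvPolynomial (Fin n) R) (k q : ℕ) :
    pw F (-(k : ℤ)) q = F ^ (q - k) := by
  unfold pw
  congr 1
  omega

private theorem evx_X_x (q : ℕ) (i : Fin n) :
    evx q (X (Ix.x i) : MvPolynomial (Ix n) R) = X i := by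
  unfold evx
  rw [aeval_X]

private theorem evx_X_s (q : ℕ) :
    evx q (X Ix.s : MvPolynomial (Ix n) R) = (q : MvPolynomial (Fin n) R) := by
  unfold evx
  rw [aeval_X]

private theorem evx_C (q : ℕ) (m : ℕ) :
    evx q (C (m : R) : MvPolynomial (Ix n) R) = (m : MvPolynomial (Fin n) R) := by
  unfold evx
  rw [aeval_C, map_natCast]

private theorem xs_x (i : Fin n) : xs (X (Ix.x i) : MvPolynomial (Ix n) R) :=
  xs_X (Ix.x i) fun j h => by cases h

private theorem xs_s : xs (X Ix.s : MvPolynomial (Ix n) R) :=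
  xs_X Ix.s fun j h => by cases h

private theorem step_x (F : MvPolynomial (Fin n) R) (P G : MvPolynomial (Ix n) R) (i : Fin n)
    (k : ℕ) (hG : xs G) (h : EqI (op (pw F 0) P) (op (pw F (-(k : ℤ))) G)) :
    EqI (op (pw F 0) (T R (Ix.x i) P)) (op (pw F (-(k : ℤ))) ((X (Ix.x i) : MvPolynomial (Ix n) R) * G)) := by
  filter_upwards [h] with q h1
  rw [op_T, tS_x, h1, op_xs _ _ hG, op_xs _ _ (xs_mul (xs_x i) hG), map_mul, evx_X_x, mul_assoc]

private theorem step_s (F : MvPolynomial (Fin n) R) (P G : MvPolynomial (Ix n) R)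
    (k : ℕ) (hG : xs G) (h : EqI (op (pw F 0) P) (op (pw F (-(k : ℤ))) G)) :
    EqI (op (pw F 0) (T R (Ix.s : Ix n) P)) (op (pw F (-(k : ℤ))) ((X Ix.s : MvPolynomial (Ix n) R) * G)) := by
  filter_upwards [h] with q h1
  rw [op_T, tS_s, h1, op_xs _ _ hG, op_xs _ _ (xs_mul xs_s hG), map_mul, evx_X_s, mul_assoc]

/-- the operator of the step with `∂_i` -/
private def dG (F : MvPolynomial (Fin n) R) (i : Fin n) (m : ℕ) (G : MvPolynomial (Ix n) R) :
    MvPolynomial (Ix n) R :=
  rename Ix.x F * pderiv (Ix.x i) G +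
    (X Ix.s + C (-(m : R))) * (rename Ix.x (pderiv i F) * G)

private theorem xs_dG (F : MvPolynomial (Fin n) R) (i : Fin n) (m : ℕ) {G : MvPolynomial (Ix n) R}
    (hG : xs G) : xs (dG F i m G) :=
  xs_add (xs_mul (xs_rename _) (xs_pderiv i hG))
    (xs_mul (xs_add xs_s (xs_C _)) (xs_mul (xs_rename _) hG))

private theorem evx_dG (q : ℕ) (F : MvPolynomial (Fin n) R) (i : Fin n) (m : ℕ)
    {G : MvPolynomial (Ix n) R} (hG : xs G) :
    evx q (dG F i m G) = F * pderiv i (evx q G) +
      ((q : MvPolynomial (Fin n) R) - (m : MvPolynomial (Fin n) R)) * (pderiv i F * evx q G) := by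
  unfold dG
  rw [map_add, map_mul, map_mul, map_mul, map_add, evx_rename, evx_rename, evx_pderiv q i hG,
    evx_X_s, C_neg, map_neg, evx_C, ← sub_eq_add_neg]

private theorem step_d (F : MvPolynomial (Fin n) R) (P G : MvPolynomial (Ix n) R) (i : Fin n)
    (m : ℕ) (hG : xs G) (h : EqI (op (pw F 0) P) (op (pw F (-(m : ℤ))) G)) :
    EqI (op (pw F 0) (T R (Ix.d i) P)) (op (pw F (-((m + 1 : ℕ) : ℤ))) (dG F i m G)) := by
  filter_upwards [h, Filter.eventually_ge_atTop (m + 1)] with q h1 hq
  rw [op_T, tS_d, h1, op_xs _ _ hG, op_xs _ _ (xs_dG F i m hG), pw_neg, pw_neg,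
    evx_dG q F i m hG]
  obtain ⟨r, rfl⟩ : ∃ r, q = m + 1 + r := ⟨q - (m + 1), by omega⟩
  have e3 : m + 1 + r - m = r + 1 := by omega
  have e4 : m + 1 + r - (m + 1) = r := by omega
  rw [e3, e4, Derivation.leibniz, Derivation.leibniz_pow]
  simp only [smul_eq_mul, Nat.add_sub_cancel, nsmul_eq_mul]
  push_cast
  ring

private theorem cdW_top (F : MvPolynomial (Fin n) R) : cdW F = ⊤ := by
  refine T_induct _ ?_ ?_
  · refine mem_cdW.2 ⟨0, fun k _ => ⟨rename Ix.x (F ^ k), xs_rename _, ?_⟩⟩
    filter_upwards [Filter.eventually_ge_atTop k] with q hq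
    rw [op_one, op_xs _ _ (xs_rename _), evx_rename, pw_neg, ← pow_add]
    unfold pw
    congr 1
    omega
  · intro i P hP
    obtain ⟨k0, hP⟩ := mem_cdW.1 hP
    refine mem_cdW.2 ?_
    cases i with
    | x i =>
      refine ⟨k0, fun k hk => ?_⟩
      obtain ⟨G, hG, h1⟩ := hP k hk
      exact ⟨_, xs_mul (xs_x i) hG, step_x F P G i k hG h1⟩
    | s =>
      refine ⟨k0, fun k hk => ?_⟩
      obtain ⟨G, hG, h1⟩ := hP k hk
      exact ⟨_, xs_mul xs_s hG, step_s F P G k hG h1⟩
    | d i =>
      refine ⟨k0 + 1, fun k hk => ?_⟩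
      obtain ⟨m, rfl⟩ : ∃ m, k = m + 1 := ⟨k - 1, by omega⟩
      obtain ⟨G, hG, h1⟩ := hP m (by omega)
      exact ⟨_, xs_dG F i m hG, step_d F P G i m hG h1⟩

/-- C6. For every `P` there is `k0` such that for all `k ≥ k0` there is `G` without derivatives
with `P F^s = G F^(s-k)`.

Proof.  `T_induct`.  The set of these `P` is a submodule (take the maximum of the `k0`).
`1`: `k0 = 0`, `G = rename Ix.x (F ^ k)`.  `T (.x i)`, `T .s`: multiply `G`.  `T (.d i)`: take
`k0 + 1`; if `P F^s = G F^(s-k)` for large `q`, then `∂_i P F^s = G' F^(s-(k+1))` with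
`G' = F ∂_i G + (s - k) (∂_i F) G` (`F` stands for `rename Ix.x F`); use `op_xs`, `evx_pderiv`,
and `∂_i (F ^ (m + 1)) = (m + 1) F ^ m ∂_i F`. -/
theorem clear_den (F : MvPolynomial (Fin n) R) (P : MvPolynomial (Ix n) R) :
    ∃ k0 : ℕ, ∀ k ≥ k0, ∃ G, xs G ∧ EqI (op (pw F 0) P) (op (pw F (-(k : ℤ))) G) := by
  have hP : P ∈ cdW F := by rw [cdW_top]; exact Submodule.mem_top
  exact mem_cdW.1 hP

/-- `(P ∘ F^k) F^(s-k) = P F^s`. -/
theorem op_rm_iterate (F : MvPolynomial (Fin n) R) (P : MvPolynomial (Ix n) R) (k : ℕ) :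
    EqI (op (pw F (-(k : ℤ))) ((rm F)^[k] P)) (op (pw F 0) P) := by
  induction k with
  | zero =>
    have h : (-((0 : ℕ) : ℤ)) = 0 := by simp
    rw [h]
    exact EqI.refl _
  | succ k ih =>
    rw [Function.iterate_succ_apply']
    have h : (-((k + 1 : ℕ) : ℤ)) = -(k : ℤ) - 1 := by push_cast; ring
    rw [h]
    exact (op_rm_pw F (-(k : ℤ)) _).trans ih

/-- C6'. `P ∘ F^k - G` annihilates `F^(s-k)` (`clear_den`, and `op_rm_pw` iterated). -/
theorem rm_iterate (F : MvPolynomial (Fin n) R) (P : MvPolynomial (Ix n) R) :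
    ∃ k0 : ℕ, ∀ k ≥ k0, ∃ G, xs G ∧ (rm F)^[k] P - G ∈ I0 F (-(k : ℤ)) := by
  obtain ⟨k0, h⟩ := clear_den F P
  refine ⟨k0, fun k hk => ?_⟩
  obtain ⟨G, hG, h1⟩ := h k hk
  refine ⟨G, hG, mem_I0.2 ?_⟩
  filter_upwards [op_rm_iterate F P k, h1] with q h2 h1
  rw [map_sub, Pi.sub_apply, h2, h1, sub_self]
  rfl

private def psi (n : ℕ) (R : Type) [CommRing R] :
    MvPolynomial (Ix n) R →ₐ[R] Polynomial (MvPolynomial (Fin n) R) :=
  aeval fun i => match i with
    | .s => Polynomial.X
    | .x i => Polynomial.C (X i)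
    | .d _ => 0

private def phi (n : ℕ) (R : Type) [CommRing R] :
    Polynomial (MvPolynomial (Fin n) R) →+* MvPolynomial (Ix n) R :=
  Polynomial.eval₂RingHom ((rename Ix.x : MvPolynomial (Fin n) R →ₐ[R] MvPolynomial (Ix n) R) :
    MvPolynomial (Fin n) R →+* MvPolynomial (Ix n) R) (X .s)

private theorem psi_C (r : R) : psi n R (C r) = Polynomial.C (C r) := by
  unfold psi
  rw [aeval_C]
  rfl

private theorem psi_s : psi n R (X .s) = Polynomial.X := by
  unfold psi
  rw [aeval_X]

private theorem psi_x (i : Fin n) : psi n R (X (.x i)) = Polynomial.C (X i) := by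
  unfold psi
  rw [aeval_X]

private theorem phi_C (a : MvPolynomial (Fin n) R) : phi n R (Polynomial.C a) = rename Ix.x a := by
  simp [phi]

private theorem phi_X : phi n R Polynomial.X = X .s := by
  simp [phi]

private theorem phi_psi_mul {P Q : MvPolynomial (Ix n) R} (h : phi n R (psi n R P) = P)
    (h' : phi n R (psi n R Q) = Q) : phi n R (psi n R (P * Q)) = P * Q := by
  rw [map_mul, map_mul, h, h']

private def W0 (n : ℕ) (R : Type) [CommRing R] : Submodule R (MvPolynomial (Ix n) R) where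
  carrier := {G | phi n R (psi n R G) = G}
  add_mem' := by
    intro a b ha hb
    have ha : phi n R (psi n R a) = a := ha
    have hb : phi n R (psi n R b) = b := hb
    show phi n R (psi n R (a + b)) = a + b
    rw [map_add, map_add, ha, hb]
  zero_mem' := by
    show phi n R (psi n R 0) = 0
    rw [map_zero, map_zero]
  smul_mem' := by
    intro r a ha
    have ha : phi n R (psi n R a) = a := ha
    show phi n R (psi n R (r • a)) = r • a
    rw [smul_eq_C_mul]
    refine phi_psi_mul ?_ ha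
    rw [psi_C, phi_C, rename_C]

private theorem mem_W0 {G : MvPolynomial (Ix n) R} : G ∈ W0 n R ↔ phi n R (psi n R G) = G := Iff.rfl

private theorem phi_psi (G : MvPolynomial (Ix n) R) (hG : xs G) : phi n R (psi n R G) = G := by
  have h : G ∈ W0 n R := by
    refine xs_induct (W0 n R) ?_ ?_ ?_ G hG
    · refine mem_W0.2 ?_
      rw [map_one, map_one]
    · intro i P hP
      have e : phi n R (psi n R (X (Ix.x i))) = (X (Ix.x i) : MvPolynomial (Ix n) R) := by
        rw [psi_x, phi_C, rename_X]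
      exact mem_W0.2 (phi_psi_mul e (mem_W0.1 hP))
    · intro P hP
      have e : phi n R (psi n R (X Ix.s)) = (X Ix.s : MvPolynomial (Ix n) R) := by
        rw [psi_s, phi_X]
      exact mem_W0.2 (phi_psi_mul e (mem_W0.1 hP))
  exact mem_W0.1 h

private theorem evx_eq_eval (q : ℕ) (G : MvPolynomial (Ix n) R) :
    evx q G = Polynomial.eval (q : MvPolynomial (Fin n) R) (psi n R G) := by
  have h : (evx q : MvPolynomial (Ix n) R →ₐ[R] MvPolynomial (Fin n) R) =
      ((Polynomial.aeval (R := MvPolynomial (Fin n) R) (q : MvPolynomial (Fin n) R)).restrictScalars R).comp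
        (psi n R) := by
    refine MvPolynomial.algHom_ext fun i => ?_
    cases i with
    | s => simp [evx, psi]
    | x i => simp [evx, psi]
    | d i => simp [evx, psi]
  rw [h]
  simp

/-- C6'''. The same for an equality. -/
theorem xs_eq_of_evx [IsDomain R] [CharZero R] {G H : MvPolynomial (Ix n) R} (hG : xs G)
    (hH : xs H) (h : ∀ᶠ q : ℕ in Filter.atTop, evx q G = evx q H) : G = H := by
  have h1 : psi n R G = psi n R H := by
    refine Polynomial.eq_of_infinite_eval_eq _ _ ?_
    obtain ⟨N, hN⟩ := Filter.eventually_atTop.1 h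
    have hinj : Function.Injective (fun k : ℕ => ((N + k : ℕ) : MvPolynomial (Fin n) R)) := by
      intro a b hab
      have := Nat.cast_injective (R := MvPolynomial (Fin n) R) hab
      omega
    refine (Set.infinite_range_of_injective hinj).mono ?_
    rintro _ ⟨k, rfl⟩
    have := hN (N + k) (by omega)
    rw [evx_eq_eval, evx_eq_eval] at this
    exact this
  rw [← phi_psi G hG, ← phi_psi H hH, h1]

/-- C6''. Operators without derivatives act faithfully: `G(x, q) F^(q+j) = 0` for large `q` gives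
`G(x, q) = 0` for infinitely many `q`, and `G` is a polynomial in `s` over a domain of
characteristic zero. -/
theorem xs_faithful [IsDomain R] [CharZero R] {F : MvPolynomial (Fin n) R} (hF : F ≠ 0) (j : ℤ)
    {G : MvPolynomial (Ix n) R} (hG : xs G) (h : EqI (op (pw F j) G) 0) : G = 0 := by
  refine xs_eq_of_evx hG xs_zero' ?_
  filter_upwards [h] with q hq
  rw [op_xs _ _ hG, Pi.zero_apply] at hq
  rw [map_zero]
  rcases mul_eq_zero.1 hq with h1 | h1
  · exact h1
  · exact absurd h1 (pow_ne_zero _ hF)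

end MPb07157.GN
end
end

section

/-!
# C7. Annihilators after specialization
-/

noncomputable section

namespace MPb07157.GN

open MvPolynomial

variable {n : ℕ} {A B : Type} [CommRing A] [IsDomain A] [Field B]

/-- C7'. Descent of one level. -/
theorem ext_step (φ : A →+* B) (F : MvPolynomial (Fin n) A) {a : A} (ha : φ a ≠ 0)
    (hGB : GB (mo n) (I1 F 0) a) (j : ℤ) {u : MvPolynomial (Ix n) B}
    (hu : rm (map φ F) u ∈ ext φ (I0 F (j - 1))) : u ∈ ext φ (I0 F j) := by
  have h1 : GB (mo n) (I1 F (j - 1)) a := by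
    have h2 := GB_shift F 0 (j - 1) a hGB
    rwa [zero_add] at h2
  exact GB.lift φ ha (rm F) (rm (map φ F)) (rm_map φ F) (I0 F j) (I0 F (j - 1)) (I1 F (j - 1))
    (I0_step F j) (I1_step F j) h1 hu

omit [IsDomain A] in
private theorem xs_map (φ : A →+* B) {G : MvPolynomial (Ix n) A} (hG : xs G) : xs (map φ G) :=
  fun e he i => hG e (support_map_subset φ G he) i

omit [IsDomain A] in
private theorem iter_map (φ : A →+* B) (F : MvPolynomial (Fin n) A) (k : ℕ)
    (P : MvPolynomial (Ix n) A) :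
    (rm (map φ F))^[k] (map φ P) = map φ ((rm F)^[k] P) := by
  induction k with
  | zero => rfl
  | succ k ih => rw [Function.iterate_succ_apply', Function.iterate_succ_apply', ih, rm_map]

private theorem iter_smul {M : Type} [AddCommGroup M] [Module B M] (f : M →ₗ[B] M) (k : ℕ)
    (b : B) (x : M) : f^[k] (b • x) = b • f^[k] x := by
  induction k with
  | zero => rfl
  | succ k ih => rw [Function.iterate_succ_apply', Function.iterate_succ_apply', ih, map_smul]

omit [IsDomain A] in
private theorem dec_key (φ : A →+* B) (F : MvPolynomial (Fin n) A) (u : MvPolynomial (Ix n) B) :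
    ∃ k0 : ℕ, ∀ k ≥ k0, ∃ G Z : MvPolynomial (Ix n) B, xs G ∧ Z ∈ ext φ (I0 F (-(k : ℤ))) ∧
      (rm (map φ F))^[k] u = G + Z := by
  induction u using MvPolynomial.induction_on' with
  | monomial e b =>
    obtain ⟨k0, hk0⟩ := rm_iterate F (monomial e (1 : A))
    refine ⟨k0, fun k hk => ?_⟩
    obtain ⟨G, hG, hZ⟩ := hk0 k hk
    refine ⟨b • map φ G, b • map φ ((rm F)^[k] (monomial e (1 : A)) - G),
      xs_smul _ (xs_map φ hG),
      Submodule.smul_mem _ _ (Submodule.subset_span ⟨_, hZ, rfl⟩), ?_⟩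
    have h1 : (monomial e b : MvPolynomial (Ix n) B) = b • map φ (monomial e (1 : A)) := by
      rw [map_monomial, map_one, smul_monomial, smul_eq_mul, mul_one]
    rw [h1, iter_smul, iter_map, ← smul_add, map_sub, add_sub_cancel]
  | add p q hp hq =>
    obtain ⟨k1, h1⟩ := hp
    obtain ⟨k2, h2⟩ := hq
    refine ⟨max k1 k2, fun k hk => ?_⟩
    obtain ⟨G1, Z1, hG1, hZ1, e1⟩ := h1 k (le_trans (le_max_left _ _) hk)
    obtain ⟨G2, Z2, hG2, hZ2, e2⟩ := h2 k (le_trans (le_max_right _ _) hk)
    refine ⟨G1 + G2, Z1 + Z2, xs_add hG1 hG2, Submodule.add_mem _ hZ1 hZ2, ?_⟩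
    rw [iterate_map_add, e1, e2, add_add_add_comm]

omit [IsDomain A] in
private theorem ext_I0_kills (φ : A →+* B) (F : MvPolynomial (Fin n) A) (j : ℤ)
    {Z : MvPolynomial (Ix n) B} (hZ : Z ∈ ext φ (I0 F j)) : EqI (op (pw (map φ F) j) Z) 0 := by
  have hle : ext φ (I0 F j) ≤ I0 (map φ F) j := by
    refine Submodule.span_le.2 ?_
    rintro _ ⟨P, hP, rfl⟩
    have h1 : EqI (op (pw F j) P) (op (pw F j) 0) := by
      have h2 := mem_I0.1 hP
      rw [map_zero]
      exact h2
    have h3 := EqI_map φ h1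
    rw [map_zero, map_zero] at h3
    exact mem_I0.2 h3
  exact mem_I0.1 (hle hZ)

private theorem ext_iter (φ : A →+* B) (F : MvPolynomial (Fin n) A) {a : A} (ha : φ a ≠ 0)
    (hGB : GB (mo n) (I1 F 0) a) (k : ℕ) : ∀ (j : ℤ) (u : MvPolynomial (Ix n) B),
    (rm (map φ F))^[k] u ∈ ext φ (I0 F (j - k)) → u ∈ ext φ (I0 F j) := by
  induction k with
  | zero =>
    intro j u hu
    simpa using hu
  | succ k ih =>
    intro j u hu
    rw [Function.iterate_succ_apply] at hu
    refine ext_step φ F ha hGB j (ih (j - 1) _ ?_)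
    have h1 : j - ((k + 1 : ℕ) : ℤ) = j - 1 - (k : ℤ) := by push_cast; ring
    rwa [h1] at hu

/-- C7. The operators that annihilate `f^s`, `f = map φ F`, come from operators over `A` that
annihilate `F^s`.

Proof.  Write `u = ∑ μ_i • map φ P_i` (`P_i` monomials with coefficient one).  For large `k`,
`(rm F)^[k] P_i = G_i + Z_i` with `xs G_i` and `Z_i ∈ I0 F (-k)` (`rm_iterate`), hence
`(rm f)^[k] u = G + Z`, `G = ∑ μ_i • map φ G_i`, `Z = ∑ μ_i • map φ Z_i ∈ ext φ (I0 F (-k))`
(`rm_map`).  Apply this to `f^(s-k)`: `(rm f)^[k] u` gives `u f^s = 0` (`op_rm_iterate`), `Z` gives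
`0` (`EqI_map`), so `G f^(s-k) = 0` and `G = 0` (`xs_faithful`).  So
`(rm f)^[k] u ∈ ext φ (I0 F (-k))`; now use `ext_step` `k` times. -/
theorem ker_lift [CharZero B] (φ : A →+* B) (F : MvPolynomial (Fin n) A) (hF : map φ F ≠ 0)
    {a : A} (ha : φ a ≠ 0) (hGB : GB (mo n) (I1 F 0) a) {u : MvPolynomial (Ix n) B}
    (hu : EqI (op (pw (map φ F) 0) u) 0) : u ∈ ext φ (I0 F 0) := by
  obtain ⟨k, hk⟩ := dec_key φ F u
  obtain ⟨G, Z, hG, hZ, e⟩ := hk k le_rfl
  have h1 : EqI (op (pw (map φ F) (-(k : ℤ))) ((rm (map φ F))^[k] u)) 0 :=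
    (op_rm_iterate (map φ F) u k).trans hu
  have h2 := ext_I0_kills φ F (-(k : ℤ)) hZ
  have h3 : EqI (op (pw (map φ F) (-(k : ℤ))) G) 0 := by
    rw [e] at h1
    filter_upwards [h1, h2] with q hq1 hq2
    rw [map_add, Pi.add_apply, hq2] at hq1
    have h0 : (0 : Sq n B) q = 0 := rfl
    rw [h0] at hq1 ⊢
    rwa [add_zero] at hq1
  have h4 : G = 0 := xs_faithful hF _ hG h3
  rw [h4, zero_add] at e
  refine ext_iter φ F ha hGB k 0 u ?_
  rw [e, zero_sub]
  exact hZ

omit [IsDomain A] in
private theorem rm_mem_ext (φ : A →+* B) (F : MvPolynomial (Fin n) A)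
    (P : MvPolynomial (Ix n) B) : rm (map φ F) P ∈ ext φ (I1 F 0) := by
  induction P using MvPolynomial.induction_on' with
  | monomial e c =>
    have h6 : (monomial e c : MvPolynomial (Ix n) B) = c • map φ (monomial e (1 : A)) := by
      rw [map_monomial, map_one, smul_monomial, smul_eq_mul, mul_one]
    rw [h6, LinearMap.map_smul, rm_map]
    refine Submodule.smul_mem _ _ (Submodule.subset_span ⟨_, ?_, rfl⟩)
    have h7 := (I1_step F 1 (rm F (monomial e (1 : A)))).2
      ⟨_, 0, Submodule.zero_mem _, (add_zero _).symm⟩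
    rwa [sub_self] at h7
  | add p q hp hq =>
    rw [map_add]
    exact Submodule.add_mem _ hp hq

/-- C7''. If `b f^s ∈ D[s] f^(s+1)`, `f = map φ F`, then `b` comes from operators over `A` with
this property.

Proof.  `b f^s = P f^(s+1)` gives `(b - rm f P) f^s = 0` (`op_rm_pw` with `j = 1`), so
`b - rm f P ∈ ext φ (I0 F 0) ≤ ext φ (I1 F 0)` by `ker_lift`, and
`rm f P = ∑ μ_i • map φ (rm F P_i) ∈ ext φ (I1 F 0)`, since `rm F P_i ∈ I1 F 0` (`I1_step` with
`j = 1`). -/
theorem mem_ext_I1 [CharZero B] (φ : A →+* B) (F : MvPolynomial (Fin n) A) (hF : map φ F ≠ 0)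
    {a : A} (ha : φ a ≠ 0) (hGB : GB (mo n) (I1 F 0) a) {b P : MvPolynomial (Ix n) B}
    (hb : EqI (op (pw (map φ F) 0) b) (op (pw (map φ F) 1) P)) : b ∈ ext φ (I1 F 0) := by
  have h1 := op_rm_pw (map φ F) 1 P
  rw [sub_self] at h1
  have h2 : EqI (op (pw (map φ F) 0) (b - rm (map φ F) P)) 0 := by
    filter_upwards [hb, h1] with q hq1 hq2
    rw [map_sub, Pi.sub_apply, hq1, hq2, sub_self]
    rfl
  have h3 := ker_lift φ F hF ha hGB h2
  have h4 : ext φ (I0 F 0) ≤ ext φ (I1 F 0) :=
    Submodule.span_mono (Set.image_mono (I0_le_I1 F 0))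
  have h5 := rm_mem_ext φ F P
  have h8 := Submodule.add_mem _ (h4 h3) h5
  rwa [sub_add_cancel] at h8

end MPb07157.GN
end
end

section

/-!
# E1. Specialization of roots
-/

noncomputable section

namespace MPb07157.GN

open MvPolynomial

variable {n : ℕ}

/-- The value of an operator at `x = 0`, `∂ = 0`, `s = s₀`. -/
def evS {R : Type} [CommRing R] (s₀ : R) : MvPolynomial (Ix n) R →ₐ[R] R :=
  aeval fun i => match i with
    | .s => s₀
    | .x _ => 0
    | .d _ => 0

/-- All `G` with exponents in `L` and `G f^s ∈ D[s] f^(s+1)` vanish at `(0, s₀)`. -/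
def RootL {R : Type} [CommRing R] (f : MvPolynomial (Fin n) R) (L : Set (Ix n →₀ ℕ)) (s₀ : R) :
    Prop :=
  ∀ G P : MvPolynomial (Ix n) R, (∀ e ∈ G.support, e ∈ L) →
    EqI (op (pw f 0) G) (op (pw f 1) P) → evS s₀ G = 0

theorem evS_map {R S : Type} [CommRing R] [CommRing S] (φ : R →+* S) (s₀ : R)
    (G : MvPolynomial (Ix n) R) : evS (φ s₀) (map φ G) = φ (evS s₀ G) := by
  induction G using MvPolynomial.induction_on with
  | C a => simp
  | add p q hp hq => rw [map_add, map_add, hp, hq, map_add, map_add]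
  | mul_X p i hp =>
    rw [map_mul, map_mul, hp, map_mul, map_mul, map_X]
    congr 1
    unfold evS
    rw [aeval_X, aeval_X]
    cases i <;> simp

/-- E1. Specialization of roots: `φ₁` is injective (the generic point), `φ` is arbitrary with
`φ a ≠ 0`.

Proof.  Let `G` have exponents in `L` and `G f^s ∈ D[s] f^(s+1)`, `f = map φ F`.  By `mem_ext_I1`
and `GB.lower`, `G` is a linear combination of the `map φ Q`, `Q ∈ I1 F 0` with exponents in `L`.
It is enough that `evS s₀ Q = 0` for these `Q` (`evS_map`).  `φ₁` is injective and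
`φ₁ (evS s₀ Q) = evS (φ₁ s₀) (map φ₁ Q) = 0` because `map φ₁ Q` has exponents in `L` and
`(map φ₁ Q) f₁^s ∈ D[s] f₁^(s+1)` (`EqI_map`). -/
theorem rootL_spec {A B C : Type} [CommRing A] [IsDomain A] [Field B] [CharZero B] [CommRing C]
    (φ : A →+* B) (φ₁ : A →+* C) (hφ₁ : Function.Injective φ₁) (F : MvPolynomial (Fin n) A)
    (hF : map φ F ≠ 0) {a : A} (ha : φ a ≠ 0) (hGB : GB (mo n) (I1 F 0) a) (L : Set (Ix n →₀ ℕ))
    (hL : ∀ e e', (mo n).toSyn e ≤ (mo n).toSyn e' → e' ∈ L → e ∈ L) (s₀ : A)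
    (h : RootL (map φ₁ F) L (φ₁ s₀)) : RootL (map φ F) L (φ s₀) := by
  intro G P hG hGP
  have hm : G ∈ ext φ (I1 F 0) := mem_ext_I1 φ F hF ha hGB hGP
  have hl := hGB.lower φ ha L hL hm hG
  have hle : Submodule.span B (MvPolynomial.map φ '' {Q | Q ∈ I1 F 0 ∧ ∀ e ∈ Q.support, e ∈ L}) ≤
      LinearMap.ker (evS (n := n) (φ s₀)).toLinearMap := by
    rw [Submodule.span_le]
    rintro _ ⟨Q, ⟨hQ, hQL⟩, rfl⟩
    show evS (φ s₀) (map φ Q) = 0
    obtain ⟨Q', hQ'⟩ := mem_I1.1 hQ
    rw [zero_add] at hQ'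
    have h1 : φ₁ (evS s₀ Q) = 0 := by
      rw [← evS_map]
      exact h (map φ₁ Q) (map φ₁ Q') (fun e he => hQL e (support_map_subset φ₁ Q he)) (EqI_map φ₁ hQ')
    have h2 : evS s₀ Q = 0 := hφ₁ (by rw [h1, map_zero])
    rw [evS_map, h2, map_zero]
  exact hle hl

/-- E1'. The constant `a` exists (`exists_GB` with `T_degree` and `I1_T`). -/
theorem exists_GB_I1 {A : Type} [CommRing A] [IsDomain A] (F : MvPolynomial (Fin n) A) :
    ∃ a : A, a ≠ 0 ∧ GB (mo n) (I1 F 0) a :=
  exists_GB (mo n) (T A) (fun i P hP => T_degree i P hP) (I1 F 0) fun i P hP => I1_T F 0 i P hP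

end MPb07157.GN
end
end

section

/-!
# D1. Comparison with `InDn`: elementary part
-/

noncomputable section

namespace MPb07157.GN

open MvPolynomial

variable {n : ℕ}

/-- A polynomial in `x` with coefficients in `ℂ[s]`, as an operator. -/
def io : MvPolynomial (Fin n) (Polynomial ℂ) →+* MvPolynomial (Ix n) ℂ :=
  eval₂Hom (Polynomial.aeval (X .s : MvPolynomial (Ix n) ℂ)).toRingHom fun i => X (.x i)

theorem io_X (i : Fin n) : io (X i) = X (.x i) := by
  unfold io
  simp

theorem io_C (b : Polynomial ℂ) :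
    io (C b : MvPolynomial (Fin n) (Polynomial ℂ)) = Polynomial.aeval (X .s) b := by
  unfold io
  simp

private theorem gnD1_mono (k : ℕ) (a : ℂ) :
    Polynomial.aeval (X .s : MvPolynomial (Ix n) ℂ) (Polynomial.monomial k a) =
      monomial (Finsupp.single Ix.s k) a := by
  rw [Polynomial.aeval_monomial, MvPolynomial.algebraMap_eq, X_pow_eq_monomial, C_mul_monomial,
    mul_one]

/-- Polynomials in `s` only contain `s`. -/
private theorem gnD1_supp (b : Polynomial ℂ) :
    ∀ e ∈ (Polynomial.aeval (X .s : MvPolynomial (Ix n) ℂ) b).support,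
      ∀ i, e (.d i) = 0 ∧ e (.x i) = 0 := by
  classical
  induction b using Polynomial.induction_on' with
  | add p q hp hq =>
    intro e he
    rw [map_add] at he
    rcases Finset.mem_union.1 (support_add he) with h | h
    · exact hp e h
    · exact hq e h
  | monomial k a =>
    intro e he i
    rw [gnD1_mono] at he
    have h1 := support_monomial_subset he
    rw [Finset.mem_singleton] at h1
    subst h1
    simp

theorem xs_io (g : MvPolynomial (Fin n) (Polynomial ℂ)) : xs (io g) := by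
  induction g using MvPolynomial.induction_on with
  | C b =>
    rw [io_C]
    intro e he i
    exact (gnD1_supp b e he i).1
  | add p q hp hq =>
    rw [map_add]
    exact xs_add hp hq
  | mul_X p i hp =>
    rw [map_mul, io_X]
    exact xs_mul hp (xs_X _ (fun j => by simp))

/-- The value at `s = q`. -/
theorem evx_io (q : ℕ) (g : MvPolynomial (Fin n) (Polynomial ℂ)) :
    evx q (io g) = map (Polynomial.evalRingHom (q : ℂ)) g := by
  have h : ((evx q : MvPolynomial (Ix n) ℂ →ₐ[ℂ] MvPolynomial (Fin n) ℂ).toRingHom).comp io =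
      map (Polynomial.evalRingHom (q : ℂ)) := by
    refine MvPolynomial.ringHom_ext (fun b => ?_) fun i => ?_
    · rw [RingHom.comp_apply, io_C, map_C]
      change evx q (Polynomial.aeval (X .s) b) = C (Polynomial.eval (q : ℂ) b)
      rw [← Polynomial.aeval_algHom_apply]
      have h1 : evx q (X .s : MvPolynomial (Ix n) ℂ) =
          algebraMap ℂ (MvPolynomial (Fin n) ℂ) (q : ℂ) := by
        unfold evx
        rw [aeval_X, MvPolynomial.algebraMap_eq, map_natCast]
      rw [h1, Polynomial.aeval_algebraMap_apply, MvPolynomial.algebraMap_eq, Polynomial.coe_aeval_eq_eval]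
    · rw [RingHom.comp_apply, io_X, map_X]
      change evx q (X (.x i)) = X i
      unfold evx
      rw [aeval_X]
  exact RingHom.congr_fun h g

theorem io_liftS (f : MvPolynomial (Fin n) ℂ) : io (liftS f) = rename Ix.x f := by
  unfold liftS
  induction f using MvPolynomial.induction_on with
  | C a => rw [map_C, io_C, rename_C, Polynomial.aeval_C, MvPolynomial.algebraMap_eq]
  | add p q hp hq => rw [map_add, map_add, hp, hq, map_add]
  | mul_X p i hp => rw [map_mul, map_mul, hp, map_X, io_X, map_mul, rename_X]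

/-- Every operator without derivatives is of this form (`xs_induct`). -/
theorem exists_io (G : MvPolynomial (Ix n) ℂ) (hG : xs G) : ∃ g, io g = G := by
  let W : Submodule ℂ (MvPolynomial (Ix n) ℂ) :=
    { carrier := {G | ∃ g, io g = G}
      add_mem' := fun {a b} ⟨g, hg⟩ ⟨g', hg'⟩ => ⟨g + g', by rw [map_add, hg, hg']⟩
      zero_mem' := ⟨0, map_zero _⟩
      smul_mem' := fun r a ⟨g, hg⟩ => ⟨C (Polynomial.C r) * g, by
        rw [map_mul, hg, io_C, Polynomial.aeval_C, MvPolynomial.algebraMap_eq,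
          ← MvPolynomial.smul_eq_C_mul]⟩ }
  refine xs_induct W ⟨1, map_one _⟩ ?_ ?_ G hG
  · rintro i P ⟨g, hg⟩
    exact ⟨X i * g, by rw [map_mul, io_X, hg]⟩
  · rintro P ⟨g, hg⟩
    exact ⟨C Polynomial.X * g, by rw [map_mul, io_C, Polynomial.aeval_X, hg]⟩

theorem evS_io (s₀ : ℂ) (g : MvPolynomial (Fin n) (Polynomial ℂ)) :
    evS s₀ (io g) = (constantCoeff g).eval s₀ := by
  have h : ((evS s₀ : MvPolynomial (Ix n) ℂ →ₐ[ℂ] ℂ).toRingHom).comp io =
      (Polynomial.evalRingHom s₀).comp constantCoeff := by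
    refine MvPolynomial.ringHom_ext (fun b => ?_) fun i => ?_
    · rw [RingHom.comp_apply, RingHom.comp_apply, io_C, constantCoeff_C]
      change evS s₀ (Polynomial.aeval (X .s) b) = Polynomial.eval s₀ b
      rw [← Polynomial.aeval_algHom_apply]
      have h1 : evS s₀ (X .s : MvPolynomial (Ix n) ℂ) = s₀ := by
        unfold evS
        rw [aeval_X]
      rw [h1, Polynomial.coe_aeval_eq_eval]
    · rw [RingHom.comp_apply, RingHom.comp_apply, io_X, constantCoeff_X, map_zero]
      change evS s₀ (X (.x i)) = 0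
      unfold evS
      rw [aeval_X]
  exact RingHom.congr_fun h g

/-- Polynomials in `s`. -/
theorem exists_io_C (G : MvPolynomial (Ix n) ℂ)
    (hG : ∀ e ∈ G.support, ∀ i, e (.d i) = 0 ∧ e (.x i) = 0) : ∃ b : Polynomial ℂ, io (C b) = G := by
  classical
  refine ⟨∑ e ∈ G.support, Polynomial.monomial (e .s) (coeff e G), ?_⟩
  rw [io_C, map_sum]
  conv_rhs => rw [G.as_sum]
  refine Finset.sum_congr rfl fun e he => ?_
  have h1 : Finsupp.single Ix.s (e .s) = e := by
    ext a
    rw [Finsupp.single_apply]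
    cases a with
    | d i => rw [if_neg (by simp), (hG e he i).1]
    | x i => rw [if_neg (by simp), (hG e he i).2]
    | s => rw [if_pos rfl]
  rw [gnD1_mono, h1]

theorem io_C_support (b : Polynomial ℂ) :
    ∀ e ∈ (io (C b : MvPolynomial (Fin n) (Polynomial ℂ))).support,
      ∀ i, e (.d i) = 0 ∧ e (.x i) = 0 := by
  rw [io_C]
  exact gnD1_supp b

end MPb07157.GN
end
end

section

/-!
# D2. Comparison with `InDn`
-/

noncomputable section

namespace MPb07157.GN

open MvPolynomial

variable {n : ℕ} {f : MvPolynomial (Fin n) ℂ}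

private theorem gnD2_val (f : MvPolynomial (Fin n) ℂ) (j : ℤ)
    (g : MvPolynomial (Fin n) (Polynomial ℂ)) (q : ℕ) :
    op (pw f j) (io g) q =
      map (Polynomial.evalRingHom (q : ℂ)) g * f ^ ((q : ℤ) + j).toNat := by
  rw [op_xs _ _ (xs_io g), evx_io]
  rfl

private theorem gnD2_liftS (q : ℕ) (h : MvPolynomial (Fin n) ℂ) :
    map (Polynomial.evalRingHom (q : ℂ)) (liftS h) = h := by
  unfold liftS
  rw [MvPolynomial.map_map]
  have h1 : (Polynomial.evalRingHom (q : ℂ)).comp Polynomial.C = RingHom.id ℂ := by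
    ext a
    simp
  rw [h1, MvPolynomial.map_id]

private theorem gnD2_deriv (i : Fin n) {k : ℕ} {g : MvPolynomial (Fin n) (Polynomial ℂ)}
    {P : MvPolynomial (Ix n) ℂ} (h : EqI (op (pw f (1 - (k : ℤ))) (io g)) (op (pw f 1) P)) :
    EqI (op (pw f (1 - ((k + 1 : ℕ) : ℤ))) (io (liftS f * pderiv i g +
        C (Polynomial.X + 1 - (k : Polynomial ℂ)) * liftS (pderiv i f) * g)))
      (op (pw f 1) (T ℂ (.d i) P)) := by
  filter_upwards [h, Filter.eventually_ge_atTop k] with q hq hqk
  rw [op_T, tS_d, ← hq, gnD2_val, gnD2_val]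
  have e1 : ((q : ℤ) + (1 - (k : ℤ))).toNat = (q - k) + 1 := by omega
  have e2 : ((q : ℤ) + (1 - ((k + 1 : ℕ) : ℤ))).toNat = q - k := by omega
  rw [e1, e2]
  simp only [map_add, map_mul, gnD2_liftS, map_C]
  have e3 : (Polynomial.evalRingHom (q : ℂ)) (Polynomial.X + 1 - (k : Polynomial ℂ)) =
      ((q - k : ℕ) : ℂ) + 1 := by
    simp only [Polynomial.coe_evalRingHom, Polynomial.eval_sub, Polynomial.eval_add,
      Polynomial.eval_X, Polynomial.eval_one, Polynomial.eval_natCast]
    rw [Nat.cast_sub hqk]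
    ring
  rw [e3, pderiv_mul, (pderiv i).leibniz_pow, ← pderiv_map]
  simp only [C_add, C_1, map_natCast, smul_eq_mul, nsmul_eq_mul, add_tsub_cancel_right]
  push_cast
  ring

private theorem gnD2_raise {k : ℕ} {g : MvPolynomial (Fin n) (Polynomial ℂ)} :
    EqI (op (pw f (1 - ((k + 1 : ℕ) : ℤ))) (io (liftS f * g)))
      (op (pw f (1 - (k : ℤ))) (io g)) := by
  filter_upwards [Filter.eventually_ge_atTop k] with q hqk
  rw [gnD2_val, gnD2_val]
  have e1 : ((q : ℤ) + (1 - (k : ℤ))).toNat = (q - k) + 1 := by omega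
  have e2 : ((q : ℤ) + (1 - ((k + 1 : ℕ) : ℤ))).toNat = q - k := by omega
  rw [e1, e2, map_mul, gnD2_liftS]
  ring

private theorem gnD2_mul (c : MvPolynomial (Fin n) (Polynomial ℂ)) {j : ℤ}
    {g : MvPolynomial (Fin n) (Polynomial ℂ)} {P : MvPolynomial (Ix n) ℂ}
    (h : EqI (op (pw f j) (io g)) (op (pw f 1) P)) :
    EqI (op (pw f j) (io (c * g))) (op (pw f 1) (io c * P)) := by
  filter_upwards [h] with q hq
  rw [map_mul, op_xs_mul _ _ (xs_io c), op_xs_mul _ _ (xs_io c), hq]

/-- D2. If `g f^(s+1-k) ∈ D[s] f^(s+1)`, there is an operator `P` with `g f^(s+1-k) = P f^(s+1)`.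

Proof.  Induction.  `base`: `P = 1`.  `mul c`: `io c * P` (`op_xs_mul`, `xs_io`).  `deriv i`:
`T (.d i) P`; for large `q`, `∂_i (g_q f^(q+1-k)) = (f ∂_i g_q + (q+1-k) (∂_i f) g_q) f^(q-k)`, where
`g_q = evx q (io g)` (`op_xs`, `evx_io`).  `raise`, `lower`: `P` itself, because
`(f g_q) f^(q-k) = g_q f^(q+1-k)` for `q ≥ k`. -/
theorem InDn.exists_op {k : ℕ} {g : MvPolynomial (Fin n) (Polynomial ℂ)} (h : InDn f k g) :
    ∃ P, EqI (op (pw f (1 - (k : ℤ))) (io g)) (op (pw f 1) P) := by
  induction h with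
  | base =>
    refine ⟨1, ?_⟩
    rw [map_one, Nat.cast_zero, sub_zero]
    exact EqI.refl _
  | add _ _ ih1 ih2 =>
    obtain ⟨P, hP⟩ := ih1
    obtain ⟨Q, hQ⟩ := ih2
    refine ⟨P + Q, ?_⟩
    filter_upwards [hP, hQ] with q h1 h2
    rw [map_add, map_add, map_add, Pi.add_apply, Pi.add_apply, h1, h2]
  | mul c _ ih =>
    obtain ⟨P, hP⟩ := ih
    exact ⟨_, gnD2_mul c hP⟩
  | deriv i _ ih =>
    obtain ⟨P, hP⟩ := ih
    exact ⟨_, gnD2_deriv i hP⟩
  | raise _ ih =>
    obtain ⟨P, hP⟩ := ih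
    exact ⟨P, gnD2_raise.trans hP⟩
  | lower _ ih =>
    obtain ⟨P, hP⟩ := ih
    exact ⟨P, gnD2_raise.symm.trans hP⟩

private theorem gnD2_raise_iter {k : ℕ} {g : MvPolynomial (Fin n) (Polynomial ℂ)}
    {P : MvPolynomial (Ix n) ℂ} (h : InDn f k g)
    (h' : EqI (op (pw f (1 - (k : ℤ))) (io g)) (op (pw f 1) P)) (j : ℕ) :
    ∃ g', InDn f (k + j) g' ∧
      EqI (op (pw f (1 - ((k + j : ℕ) : ℤ))) (io g')) (op (pw f 1) P) := by
  induction j with
  | zero => exact ⟨g, h, h'⟩
  | succ j ih =>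
    obtain ⟨g', h1, h2⟩ := ih
    exact ⟨liftS f * g', h1.raise, gnD2_raise.trans h2⟩

/-- D2'. Every `P f^(s+1)` is of the form `g f^(s+1-k)` with `InDn f k g`.

Proof.  `T_induct`; for sums take the same `k` (`raise`). -/
theorem exists_inDn (P : MvPolynomial (Ix n) ℂ) :
    ∃ (k : ℕ) (g : MvPolynomial (Fin n) (Polynomial ℂ)), InDn f k g ∧
      EqI (op (pw f (1 - (k : ℤ))) (io g)) (op (pw f 1) P) := by
  let W : Submodule ℂ (MvPolynomial (Ix n) ℂ) :=
    { carrier := {P | ∃ (k : ℕ) (g : MvPolynomial (Fin n) (Polynomial ℂ)), InDn f k g ∧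
        EqI (op (pw f (1 - (k : ℤ))) (io g)) (op (pw f 1) P)}
      add_mem' := by
        rintro a b ⟨k, g, h1, h2⟩ ⟨l, g', h3, h4⟩
        obtain ⟨u, h5, h6⟩ := gnD2_raise_iter h1 h2 l
        obtain ⟨v, h7, h8⟩ := gnD2_raise_iter h3 h4 k
        rw [add_comm l k] at h7 h8
        refine ⟨k + l, u + v, h5.add h7, ?_⟩
        filter_upwards [h6, h8] with q hu hv
        rw [map_add, map_add, map_add, Pi.add_apply, Pi.add_apply, hu, hv]
      zero_mem' := by
        refine ⟨0, 0 * 1, InDn.base.mul 0, ?_⟩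
        rw [zero_mul, map_zero, map_zero, map_zero]
        exact EqI.refl _
      smul_mem' := by
        rintro r a ⟨k, g, h1, h2⟩
        refine ⟨k, C (Polynomial.C r) * g, h1.mul _, ?_⟩
        have h3 := gnD2_mul (C (Polynomial.C r)) h2
        rwa [io_C, Polynomial.aeval_C, MvPolynomial.algebraMap_eq,
          ← MvPolynomial.smul_eq_C_mul (a := r)] at h3 }
  have hW : W = ⊤ := by
    refine T_induct W ?_ ?_
    · refine ⟨0, 1, InDn.base, ?_⟩
      rw [map_one, Nat.cast_zero, sub_zero]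
      exact EqI.refl _
    · rintro i P ⟨k, g, h1, h2⟩
      cases i with
      | d i => exact ⟨k + 1, _, h1.deriv i, gnD2_deriv i h2⟩
      | x i =>
        refine ⟨k, X i * g, h1.mul _, ?_⟩
        have h3 := gnD2_mul (X i) h2
        rwa [io_X, ← T_x] at h3
      | s =>
        refine ⟨k, C Polynomial.X * g, h1.mul _, ?_⟩
        have h3 := gnD2_mul (C Polynomial.X) h2
        rwa [io_C, Polynomial.aeval_X, ← T_s] at h3
  have hP : P ∈ W := by rw [hW]; exact Submodule.mem_top
  exact hP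

private theorem gnD2_lower_iter (k : ℕ) (g : MvPolynomial (Fin n) (Polynomial ℂ))
    (h : InDn f (1 + k) (liftS f ^ k * g)) : InDn f 1 g := by
  induction k with
  | zero => simpa using h
  | succ k ih =>
    refine ih ?_
    rw [pow_succ', mul_assoc] at h
    exact h.lower

private theorem gnD2_eq {g h : MvPolynomial (Fin n) (Polynomial ℂ)}
    (H : ∀ᶠ q : ℕ in Filter.atTop, map (Polynomial.evalRingHom (q : ℂ)) g =
      map (Polynomial.evalRingHom (q : ℂ)) h) : g = h := by
  ext1 e
  obtain ⟨N, hN⟩ := Filter.eventually_atTop.1 H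
  refine Polynomial.eq_of_infinite_eval_eq _ _ ?_
  refine Set.Infinite.mono (s := (fun q : ℕ => (q : ℂ)) '' Set.Ici N) ?_
    ((Set.Ici_infinite N).image (Nat.cast_injective.injOn))
  rintro _ ⟨q, hq, rfl⟩
  have h1 := congrArg (coeff e) (hN q hq)
  rw [coeff_map, coeff_map] at h1
  exact h1

/-- D2''. Conversely: if `g₀ f^s = P f^(s+1)`, then `InDn f 1 g₀`.

Proof.  `exists_inDn` for `P`, with `k ≥ 1` (`raise`): `g_q f^(q+1-k) = g₀_q f^q` for large `q`,
hence `g_q = f^(k-1) g₀_q`, so `g = liftS f ^ (k-1) * g₀` (`xs_eq_of_evx`, and `io` is injective by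
comparison of `evx q`).  Now `lower` `k - 1` times. -/
theorem inDn_of_op (hf : f ≠ 0) (g₀ : MvPolynomial (Fin n) (Polynomial ℂ))
    (P : MvPolynomial (Ix n) ℂ) (h : EqI (op (pw f 0) (io g₀)) (op (pw f 1) P)) :
    InDn f 1 g₀ := by
  obtain ⟨k, g, h1, h2⟩ := exists_inDn (f := f) P
  have h3 : EqI (op (pw f (1 - ((k + 1 : ℕ) : ℤ))) (io (liftS f * g))) (op (pw f 0) (io g₀)) :=
    (gnD2_raise.trans h2).trans h.symm
  have h4 : liftS f * g = liftS f ^ k * g₀ := by
    refine gnD2_eq ?_
    filter_upwards [h3, Filter.eventually_ge_atTop k] with q hq hqk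
    rw [gnD2_val, gnD2_val] at hq
    have e2 : ((q : ℤ) + (1 - ((k + 1 : ℕ) : ℤ))).toNat = q - k := by omega
    have e3 : ((q : ℤ) + 0).toNat = k + (q - k) := by omega
    rw [e2, e3, pow_add, ← mul_assoc] at hq
    have h5 := mul_right_cancel₀ (pow_ne_zero _ hf) hq
    rw [h5, map_mul, map_pow, gnD2_liftS, mul_comm]
  have h6 := h1.raise
  rw [h4, add_comm] at h6
  exact gnD2_lower_iter k g₀ h6

end MPb07157.GN
end
end

section

/-!
# D3. The two kinds of roots
-/

noncomputable section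

namespace MPb07157.GN

open MvPolynomial

variable {n : ℕ}

/-- The exponents of the powers of `s`. -/
def Ls (n : ℕ) : Set (Ix n →₀ ℕ) := {e | ∀ i, e (.d i) = 0 ∧ e (.x i) = 0}

/-- The exponents without derivatives. -/
def Lx (n : ℕ) : Set (Ix n →₀ ℕ) := {e | ∀ i, e (.d i) = 0}

/-- `s₀` is a root of all `g(0, s)` with `g f^s ∈ D[s] f^(s+1)`, `g ∈ ℂ[x, s]`. -/
def StrongRoot (f : MvPolynomial (Fin n) ℂ) (s₀ : ℂ) : Prop :=
  ∀ g : MvPolynomial (Fin n) (Polynomial ℂ), InDn f 1 g → (constantCoeff g).eval s₀ = 0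

/-- D3. (`InDn.exists_op`, `io_C_support` one direction, `exists_io_C`, `inDn_of_op` the other;
`evS_io`.) -/
theorem rootL_s_iff {f : MvPolynomial (Fin n) ℂ} (hf : f ≠ 0) (s₀ : ℚ) :
    RootL f (Ls n) (s₀ : ℂ) ↔ IsBernsteinSatoRoot f s₀ := by
  constructor
  · intro h b hb
    obtain ⟨P, hP⟩ := InDn.exists_op (show InDn f 1 (C b) from hb)
    have h0 : (1 - ((1 : ℕ) : ℤ)) = 0 := by norm_num
    rw [h0] at hP
    have h1 := h (io (C b)) P (fun e he => io_C_support b e he) hP
    rwa [evS_io, constantCoeff_C] at h1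
  · intro h G P hG hE
    obtain ⟨b, rfl⟩ := exists_io_C G fun e he => hG e he
    have h1 : InDn f 1 (C b) := inDn_of_op hf (C b) P hE
    rw [evS_io, constantCoeff_C]
    exact h b h1

/-- D3'. -/
theorem rootL_x_iff {f : MvPolynomial (Fin n) ℂ} (hf : f ≠ 0) (s₀ : ℂ) :
    RootL f (Lx n) s₀ ↔ StrongRoot f s₀ := by
  constructor
  · intro h g hg
    obtain ⟨P, hP⟩ := InDn.exists_op hg
    have h0 : (1 - ((1 : ℕ) : ℤ)) = 0 := by norm_num
    rw [h0] at hP
    have h1 := h (io g) P (fun e he => xs_io g e he) hP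
    rwa [evS_io] at h1
  · intro h G P hG hE
    obtain ⟨g, rfl⟩ := exists_io G fun e he => hG e he
    have h1 : InDn f 1 g := inDn_of_op hf g P hE
    rw [evS_io]
    exact h g h1

/-- D3''. `Ls` and `Lx` are closed under passing to smaller exponents (`s_lower`, `xs_lower`). -/
theorem Ls_lower (e e' : Ix n →₀ ℕ) (h : (mo n).toSyn e ≤ (mo n).toSyn e') (h' : e' ∈ Ls n) :
    e ∈ Ls n := s_lower e e' h h'

theorem Lx_lower (e e' : Ix n →₀ ℕ) (h : (mo n).toSyn e ≤ (mo n).toSyn e') (h' : e' ∈ Lx n) :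
    e ∈ Lx n := xs_lower e e' h h'

end MPb07157.GN
end
end
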