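import Mathlib

/-!
# Normally ordered differential operators: definitions

The free `R`-module `MvPolynomial (Ix n) R` stands for `D_n(R)[s]`: the monomial with exponents
`β` (of the `d i`), `α` (of the `x i`), `j` (of `s`) is the operator `x^α ∂^β s^j`.  `T R i` is the
left multiplication by the generator `i`.
-/

noncomputable section

namespace MPb07157.GN

open MvPolynomial

/-- The generators `∂_i`, `x_i`, `s` of `D_n[s]`. -/
inductive Ix (n : ℕ) : Type
  | d (i : Fin n)
  | x (i : Fin n)
  | s

variable {n : ℕ}

/-- The position of a generator; smaller positions are larger in the monomial order. -/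
def Ix.rk : Ix n → ℕ
  | .d i => i
  | .x i => n + i
  | .s => 2 * n

theorem Ix.rk_inj : Function.Injective (Ix.rk : Ix n → ℕ) := by
  intro a b h
  cases a with
  | d i =>
    cases b with
    | d j => exact congrArg Ix.d (Fin.ext h)
    | x j => simp only [Ix.rk] at h; omega
    | s => simp only [Ix.rk] at h; omega
  | x i =>
    cases b with
    | d j => simp only [Ix.rk] at h; omega
    | x j => simp only [Ix.rk] at h; exact congrArg Ix.x (Fin.ext (by omega))
    | s => simp only [Ix.rk] at h; omega
  | s =>
    cases b with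
    | d j => simp only [Ix.rk] at h; omega
    | x j => simp only [Ix.rk] at h; omega
    | s => rfl

instance : LinearOrder (Ix n) := LinearOrder.lift' Ix.rk Ix.rk_inj

instance : Finite (Ix n) :=
  Finite.of_injective (fun a : Ix n => (⟨a.rk, by cases a <;> simp only [Ix.rk] <;> omega⟩ :
    Fin (2 * n + 1))) fun a b h => Ix.rk_inj (Fin.mk.inj h)

theorem Ix.lt_iff {a b : Ix n} : a < b ↔ a.rk < b.rk := Iff.rfl

/-- The lexicographic monomial order, `∂ > x > s`. -/
def mo (n : ℕ) : MonomialOrder (Ix n) := MonomialOrder.lex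

/-- Left multiplication by a generator. -/
def T (R : Type) [CommRing R] : Ix n → MvPolynomial (Ix n) R →ₗ[R] MvPolynomial (Ix n) R
  | .d i => LinearMap.mulLeft R (X (.d i)) + (pderiv (R := R) (Ix.x i)).toLinearMap
  | .x i => LinearMap.mulLeft R (X (.x i))
  | .s => LinearMap.mulLeft R (X .s)

theorem T_d {R : Type} [CommRing R] (i : Fin n) (P : MvPolynomial (Ix n) R) :
    T R (.d i) P = X (.d i) * P + pderiv (.x i) P := rfl

theorem T_x {R : Type} [CommRing R] (i : Fin n) (P : MvPolynomial (Ix n) R) :
    T R (.x i) P = X (.x i) * P := rfl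

theorem T_s {R : Type} [CommRing R] (P : MvPolynomial (Ix n) R) :
    T R (.s : Ix n) P = X .s * P := rfl

/-- The commutation relations of the generators, for linear maps on an `R`-module. -/
structure Rel {R V : Type} [CommRing R] [AddCommGroup V] [Module R V] (t : Ix n → V →ₗ[R] V) :
    Prop where
  dd : ∀ i j v, t (.d i) (t (.d j) v) = t (.d j) (t (.d i) v)
  xx : ∀ i j v, t (.x i) (t (.x j) v) = t (.x j) (t (.x i) v)
  sd : ∀ i v, t .s (t (.d i) v) = t (.d i) (t .s v)
  sx : ∀ i v, t .s (t (.x i) v) = t (.x i) (t .s v)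
  dx : ∀ i j v, t (.d i) (t (.x j) v) = t (.x j) (t (.d i) v) + if i = j then v else 0

/-- `G` does not contain derivatives. -/
def xs {R : Type} [CommRing R] (G : MvPolynomial (Ix n) R) : Prop :=
  ∀ e ∈ G.support, ∀ i, e (.d i) = 0

end MPb07157.GN
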