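import Mathlib

/-!
# N2. Descent of linear equations
-/

noncomputable section

namespace MPb07157.GN

open MvPolynomial

/-- N2. Descent of linear equations from a field to a subring.

Proof.  `K = FractionRing A`; `B` is a `K`-vector space by `IsFractionRing.lift hφ`, and there is a
`K`-linear `π : B → K` with `π 1 = 1` (`LinearMap.exists_leftInverse_of_injective`).  Apply `π` to
the coefficients of the equation: `H = ∑ t, β'_t * G t` with `β'_t ∈ MvPolynomial σ K` (look at each
coefficient: the equation at the exponent `e` is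
`φ (coeff e H) = ∑ t, ∑ (u, v) ∈ antidiagonal e, coeff u (α t) * φ (coeff v (G t))`).  Now multiply
with a common denominator `Δ` of the finitely many coefficients of the `β'_t`. -/
theorem descent {A B σ τ : Type} [CommRing A] [IsDomain A] [Field B] [Fintype τ] (φ : A →+* B)
    (hφ : Function.Injective φ) (G : τ → MvPolynomial σ A) (H : MvPolynomial σ A)
    (α : τ → MvPolynomial σ B) (h : map φ H = ∑ t, α t * map φ (G t)) :
    ∃ (Δ : A) (β : τ → MvPolynomial σ A), Δ ≠ 0 ∧ C Δ * H = ∑ t, β t * G t := by
  classical
  let K := FractionRing A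
  let f : K →+* B := IsFractionRing.lift hφ
  letI : Algebra K B := f.toAlgebra
  have hf : ∀ a : A, φ a = algebraMap K B (algebraMap A K a) := fun a =>
    (IsFractionRing.lift_algebraMap hφ a).symm
  obtain ⟨π, hπ⟩ := LinearMap.exists_leftInverse_of_injective (Algebra.linearMap K B)
    (LinearMap.ker_eq_bot.2 (FaithfulSMul.algebraMap_injective K B))
  have hπ1 : ∀ k : K, π (algebraMap K B k) = k := fun k => LinearMap.congr_fun hπ k
  have hπm : ∀ (b : B) (a : A), π (b * φ a) = π b * algebraMap A K a := by
    intro b a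
    rw [hf, mul_comm, ← Algebra.smul_def, map_smul, smul_eq_mul, mul_comm]
  let S : Finset K := Finset.univ.biUnion fun t : τ => (α t).support.image fun m => π (coeff m (α t))
  obtain ⟨Δ, hΔ⟩ := IsLocalization.exist_integer_multiples_of_finset (nonZeroDivisors A) S
  have hex : ∀ (t : τ) (m : σ →₀ ℕ), ∃ a : A, algebraMap A K a = algebraMap A K Δ * π (coeff m (α t)) := by
    intro t m
    by_cases hm : m ∈ (α t).support
    · obtain ⟨a, ha⟩ := hΔ (π (coeff m (α t)))
        (Finset.mem_biUnion.2 ⟨t, Finset.mem_univ _, Finset.mem_image.2 ⟨m, hm, rfl⟩⟩)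
      refine ⟨a, ?_⟩
      rw [ha]
      exact Algebra.smul_def _ _
    · rw [notMem_support_iff] at hm
      exact ⟨0, by rw [hm, map_zero, map_zero, mul_zero]⟩
  choose c hc using hex
  let β : τ → MvPolynomial σ A := fun t => ∑ m ∈ (α t).support, monomial m (c t m)
  have hβ : ∀ (t : τ) (m : σ →₀ ℕ), algebraMap A K (coeff m (β t)) = algebraMap A K Δ * π (coeff m (α t)) := by
    intro t m
    have h1 : coeff m (β t) = if m ∈ (α t).support then c t m else 0 := by
      simp only [β, coeff_sum, coeff_monomial]
      rw [Finset.sum_ite_eq' (α t).support m (c t)]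
    rw [h1]
    split_ifs with hm
    · exact hc t m
    · rw [notMem_support_iff] at hm
      rw [hm, map_zero, map_zero, mul_zero]
  refine ⟨Δ, β, nonZeroDivisors.ne_zero Δ.2, ?_⟩
  ext e
  apply IsFractionRing.injective A K
  have h2 := congrArg (fun P => π (coeff e P)) h
  simp only [coeff_map, coeff_sum, coeff_mul, map_sum, hπm] at h2
  rw [hf, hπ1] at h2
  rw [coeff_C_mul, map_mul, h2, Finset.mul_sum, coeff_sum, map_sum]
  refine Finset.sum_congr rfl fun t _ => ?_
  rw [coeff_mul, Finset.mul_sum, map_sum]
  refine Finset.sum_congr rfl fun x _ => ?_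
  rw [map_mul, hβ, mul_assoc]

end MPb07157.GN
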