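import Mathlib
import Pool.Agent.Lib.MP_b07157_ag.GN.D3
import Pool.Agent.Lib.MP_b07157_ag.NewtGeneric
import Pool.Agent.Lib.MP_b07157_ag.GN.N2
import Pool.Agent.Lib.MP_9b38bc_ag.Count
import Pool.Agent.Lib.MP_b07157_ag.PS.Main

section

/-!
# N1. Nullstellensatz
-/

noncomputable section

namespace MPb07157.GN

open MvPolynomial

/-- N1. Nullstellensatz for a hypersurface that is smooth in the torus.

Proof.  `∏ X_i` vanishes at all common zeros of `h` and the `pderiv j h`: so a power of it lies in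
the ideal (`MvPolynomial.vanishingIdeal_zeroLocus_eq_radical`), `Ideal.span` of a range. -/
theorem nullst {n : ℕ} (h : MvPolynomial (Fin n) ℂ)
    (hnd : ∀ u : Fin n → ℂ, (∀ j, u j ≠ 0) → eval u h = 0 → ∃ j, eval u (pderiv j h) ≠ 0) :
    ∃ (N : ℕ) (α : Option (Fin n) → MvPolynomial (Fin n) ℂ),
      (∏ i, X i) ^ N = α none * h + ∑ j, α (some j) * pderiv j h := by
  classical
  let g : Option (Fin n) → MvPolynomial (Fin n) ℂ := fun o => o.elim h fun j => pderiv j h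
  have hmem : (∏ i, X i : MvPolynomial (Fin n) ℂ) ∈ (Ideal.span (Set.range g)).radical := by
    rw [← MvPolynomial.vanishingIdeal_zeroLocus_eq_radical (K := ℂ),
      MvPolynomial.mem_vanishingIdeal_iff]
    intro u hu
    rw [MvPolynomial.mem_zeroLocus_iff] at hu
    by_contra hne
    have hprod : aeval u (∏ i, X i : MvPolynomial (Fin n) ℂ) = ∏ i, u i := by
      rw [map_prod]
      exact Finset.prod_congr rfl fun i _ => aeval_X u i
    rw [hprod, Finset.prod_eq_zero_iff] at hne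
    push Not at hne
    have h1 : eval u h = 0 := by
      have h2 := hu h (Ideal.subset_span ⟨none, rfl⟩)
      rwa [← MvPolynomial.coe_aeval_eq_eval]
    obtain ⟨j, hj⟩ := hnd u (fun j => hne j (Finset.mem_univ j)) h1
    apply hj
    have h2 := hu (pderiv j h) (Ideal.subset_span ⟨some j, rfl⟩)
    rwa [← MvPolynomial.coe_aeval_eq_eval]
  obtain ⟨N, hN⟩ := hmem
  rw [Ideal.mem_span_range_iff_exists_fun] at hN
  obtain ⟨c, hc⟩ := hN
  refine ⟨N, c, ?_⟩
  rw [← hc, Fintype.sum_option]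
  rfl

end MPb07157.GN
end
end

section

/-!
# E2. Roots for generic coefficients
-/

noncomputable section

namespace MPb07157.GN

open MvPolynomial

variable {n : ℕ}

/-- The generic polynomial with exponents in `S`. -/
def gp (S : Finset (Fin n →₀ ℕ)) :
    MvPolynomial (Fin n) (MvPolynomial {v : Fin n →₀ ℕ // v ∈ S} ℚ) :=
  ∑ v : {v : Fin n →₀ ℕ // v ∈ S}, monomial v.1 (X v)

/-- The evaluation at the coefficients of `f`. -/
def evc (S : Finset (Fin n →₀ ℕ)) (f : MvPolynomial (Fin n) ℂ) :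
    MvPolynomial {v : Fin n →₀ ℕ // v ∈ S} ℚ →ₐ[ℚ] ℂ :=
  aeval fun v => coeff v.1 f

theorem map_gp {S : Finset (Fin n →₀ ℕ)} {f : MvPolynomial (Fin n) ℂ} (hf : f.support = S) :
    map (evc S f).toRingHom (gp S) = f := by
  have h1 : map (evc S f).toRingHom (gp S) =
      ∑ v : {v : Fin n →₀ ℕ // v ∈ S}, monomial v.1 (coeff v.1 f) := by
    unfold gp
    rw [map_sum]
    refine Finset.sum_congr rfl fun v _ => ?_
    rw [map_monomial]
    congr 1
    exact aeval_X _ v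
  rw [h1, Finset.sum_coe_sort S fun v => monomial v (coeff v f), ← hf]
  exact support_sum_monomial_coeff f

/-- E2. For every finite `S` there is a nonzero polynomial `Δ` such that all rational roots of the
Bernstein-Sato polynomial of one `f₁` with algebraically independent coefficients are roots for all
`f` with the same support and `Δ(f) ≠ 0`; the same for the strong roots.

Proof.  `A = MvPolynomial S ℚ`, `Δ = a` from `exists_GB_I1 (gp S)`, `rootL_spec` with
`φ₁ = evc S f₁` (injective by algebraic independence) and `φ = evc S f`, `s₀ = C s₀`,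
`L = Ls n`, `Lx n`; then D3. -/
theorem exists_Δ_root (S : Finset (Fin n →₀ ℕ)) (hS : S.Nonempty) :
    ∃ Δ : MvPolynomial {v : Fin n →₀ ℕ // v ∈ S} ℚ, Δ ≠ 0 ∧
      ∀ f f₁ : MvPolynomial (Fin n) ℂ, f.support = S → f₁.support = S → evc S f Δ ≠ 0 →
        AlgebraicIndependent ℚ (fun v : {v : Fin n →₀ ℕ // v ∈ S} => coeff v.1 f₁) →
        (∀ s₀ : ℚ, IsBernsteinSatoRoot f₁ s₀ → IsBernsteinSatoRoot f s₀) ∧
          ∀ s₀ : ℚ, StrongRoot f₁ s₀ → StrongRoot f s₀ := by
  obtain ⟨a, ha, hGB⟩ := exists_GB_I1 (gp S)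
  refine ⟨a, ha, fun f f₁ hf hf₁ hfa hind => ?_⟩
  have hne : f ≠ 0 := by
    rw [← support_nonempty, hf]
    exact hS
  have hne₁ : f₁ ≠ 0 := by
    rw [← support_nonempty, hf₁]
    exact hS
  have hmap := map_gp hf
  have hmap₁ := map_gp hf₁
  have hinj : Function.Injective (evc S f₁).toRingHom := hind
  have hC : ∀ (g : MvPolynomial (Fin n) ℂ) (s₀ : ℚ),
      (evc S g).toRingHom (C s₀) = (s₀ : ℂ) := fun g s₀ => (evc S g).commutes s₀
  have key : ∀ (L : Set (Ix n →₀ ℕ)),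
      (∀ e e', (mo n).toSyn e ≤ (mo n).toSyn e' → e' ∈ L → e ∈ L) → ∀ s₀ : ℚ,
      RootL f₁ L (s₀ : ℂ) → RootL f L (s₀ : ℂ) := by
    intro L hL s₀ h
    have h1 := rootL_spec (evc S f).toRingHom (evc S f₁).toRingHom hinj (gp S)
      (by rw [hmap]; exact hne) (a := a) hfa hGB L hL (C s₀)
    rw [hmap, hmap₁, hC, hC] at h1
    exact h1 h
  refine ⟨fun s₀ h => ?_, fun s₀ h => ?_⟩
  · rw [← rootL_s_iff hne]
    rw [← rootL_s_iff hne₁] at h
    exact key (Ls n) Ls_lower s₀ h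
  · rw [← rootL_x_iff hne]
    rw [← rootL_x_iff hne₁] at h
    exact key (Lx n) Lx_lower s₀ h

end MPb07157.GN
end
end

section

/-!
# N3. Nondegeneracy for generic coefficients
-/

noncomputable section

namespace MPb07157.GN

open MvPolynomial

variable {n : ℕ}

/-- There are polynomials with any given support and algebraically independent coefficients
(`Pool.Agent.Lib.MP_9b38bc_ag.exists_algIndep`; algebraically independent numbers are not zero). -/
theorem exists_algInd (S : Finset (Fin n →₀ ℕ)) :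
    ∃ f₁ : MvPolynomial (Fin n) ℂ, f₁.support = S ∧
      AlgebraicIndependent ℚ (fun v : {v : Fin n →₀ ℕ // v ∈ S} => coeff v.1 f₁) := by
  classical
  obtain ⟨g, hg⟩ :=
    Pool.Agent.Lib.MP_9b38bc_ag.exists_algIndep {v : Fin n →₀ ℕ // v ∈ S}
  set f₁ : MvPolynomial (Fin n) ℂ := ∑ v : {v : Fin n →₀ ℕ // v ∈ S}, monomial v.1 (g v) with hf₁
  have hc : ∀ v : {v : Fin n →₀ ℕ // v ∈ S}, coeff v.1 f₁ = g v := by
    intro v
    rw [hf₁, coeff_sum, Finset.sum_eq_single v]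
    · rw [coeff_monomial, if_pos rfl]
    · intro w _ hw
      rw [coeff_monomial, if_neg fun h => hw (Subtype.ext h)]
    · intro h
      exact absurd (Finset.mem_univ v) h
  have hc0 : ∀ v : Fin n →₀ ℕ, v ∉ S → coeff v f₁ = 0 := by
    intro v hv
    rw [hf₁, coeff_sum]
    refine Finset.sum_eq_zero fun w _ => ?_
    rw [coeff_monomial, if_neg fun h : w.1 = v => hv (h ▸ w.2)]
  refine ⟨f₁, ?_, ?_⟩
  · ext v
    rw [mem_support_iff]
    constructor
    · intro h
      by_contra hv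
      exact h (hc0 v hv)
    · intro hv
      rw [hc ⟨v, hv⟩]
      exact hg.ne_zero ⟨v, hv⟩
  · have e : (fun v : {v : Fin n →₀ ℕ // v ∈ S} => coeff v.1 f₁) = g := funext hc
    rw [e]
    exact hg

/-- The generic initial form. -/
private def gF (S I : Finset (Fin n →₀ ℕ)) (hI : I ⊆ S) :
    MvPolynomial (Fin n) (MvPolynomial {v : Fin n →₀ ℕ // v ∈ S} ℚ) :=
  ∑ v ∈ I.attach, monomial v.1 (X ⟨v.1, hI v.2⟩)

private theorem map_gF {S I : Finset (Fin n →₀ ℕ)} (hI : I ⊆ S) (f : MvPolynomial (Fin n) ℂ) :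
    map (evc S f).toRingHom (gF S I hI) = inForm f I := by
  unfold gF inForm
  rw [map_sum]
  rw [← Finset.sum_attach I fun v => monomial v (coeff v f)]
  refine Finset.sum_congr rfl fun v _ => ?_
  rw [map_monomial]
  congr 1
  show evc S f (X ⟨v.1, hI v.2⟩) = _
  unfold evc
  rw [aeval_X]

/-- N3. Nondegeneracy for one set of exponents `I`.

Proof.  `f₁` from `exists_algInd`; `nondegAt_of_algInd` and `nullst` for `h = inForm f₁ I` give
`(∏ X_i)^N = α h + ∑ α_j ∂_j h`; here `h = map φ₁ F_I`, `F_I = ∑ v ∈ I, monomial v (X v)`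
(`φ₁ = evc S f₁`).  `descent` gives `Δ ≠ 0` and
`C Δ * (∏ X_i)^N = β F_I + ∑ β_j ∂_j F_I` over `A`.  Apply `map (evc S f)` and `eval u` for `u` in
the torus: if `inForm f I` and all `∂_j` of it vanish at `u`, then `Δ(f) * (∏ u_i)^N = 0`. -/
theorem exists_Δ_nondeg (S I : Finset (Fin n →₀ ℕ)) (hI : I ⊆ S) (hne : I.Nonempty) :
    ∃ Δ : MvPolynomial {v : Fin n →₀ ℕ // v ∈ S} ℚ, Δ ≠ 0 ∧
      ∀ f : MvPolynomial (Fin n) ℂ, f.support = S → evc S f Δ ≠ 0 → NondegAt f I := by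
  classical
  obtain ⟨f₁, hs, hf₁⟩ := exists_algInd S
  have hnd : NondegAt f₁ I := by
    subst hs
    exact nondegAt_of_algInd f₁ hf₁ I hI hne
  obtain ⟨N, α, hα⟩ := nullst (inForm f₁ I) hnd
  have hinj : Function.Injective (evc S f₁).toRingHom := hf₁
  set G : Option (Fin n) →
      MvPolynomial (Fin n) (MvPolynomial {v : Fin n →₀ ℕ // v ∈ S} ℚ) :=
    fun t => t.elim (gF S I hI) fun j => pderiv j (gF S I hI) with hG
  have hmap : ∀ f : MvPolynomial (Fin n) ℂ, ∀ j,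
      map (evc S f).toRingHom (pderiv j (gF S I hI)) = pderiv j (inForm f I) := by
    intro f j
    rw [← map_gF hI f, pderiv_map]
  have h1 : map (evc S f₁).toRingHom ((∏ i, X i) ^ N) =
      ∑ t, α t * map (evc S f₁).toRingHom (G t) := by
    rw [Fintype.sum_option]
    simp only [hG, Option.elim_none, Option.elim_some]
    rw [map_gF hI f₁]
    simp only [hmap]
    rw [← hα, map_pow, map_prod]
    simp only [map_X]
  obtain ⟨Δ, β, hΔ, hβ⟩ := descent (evc S f₁).toRingHom hinj G _ α h1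
  refine ⟨Δ, hΔ, ?_⟩
  intro f _ hfΔ u hu h0
  by_contra hcon
  push Not at hcon
  have h2 := congrArg (fun q => eval u (map (evc S f).toRingHom q)) hβ
  simp only [map_mul, map_pow, map_prod, map_C, map_X, eval_C, eval_X, map_sum] at h2
  rw [Fintype.sum_option] at h2
  simp only [hG, Option.elim_none, Option.elim_some] at h2
  rw [map_gF hI f] at h2
  simp only [hmap] at h2
  rw [h0, mul_zero, zero_add, Finset.sum_eq_zero fun j _ => by rw [hcon j, mul_zero]] at h2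
  rcases mul_eq_zero.1 h2 with h3 | h3
  · exact hfΔ h3
  · exact pow_ne_zero _ (Finset.prod_ne_zero_iff.2 fun j _ => hu j) h3

/-- N4. Nondegeneracy for all sets of exponents (product over the nonempty subsets of `S`). -/
theorem exists_Δ_nondeg_all (S : Finset (Fin n →₀ ℕ)) :
    ∃ Δ : MvPolynomial {v : Fin n →₀ ℕ // v ∈ S} ℚ, Δ ≠ 0 ∧
      ∀ f : MvPolynomial (Fin n) ℂ, f.support = S → evc S f Δ ≠ 0 →
        ∀ I ⊆ f.support, I.Nonempty → NondegAt f I := by
  classical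
  have h : ∀ I : Finset (Fin n →₀ ℕ), ∃ Δ : MvPolynomial {v : Fin n →₀ ℕ // v ∈ S} ℚ, Δ ≠ 0 ∧
      (I ⊆ S → I.Nonempty → ∀ f : MvPolynomial (Fin n) ℂ, f.support = S → evc S f Δ ≠ 0 →
        NondegAt f I) := by
    intro I
    by_cases hI : I ⊆ S ∧ I.Nonempty
    · obtain ⟨Δ, h1, h2⟩ := exists_Δ_nondeg S I hI.1 hI.2
      exact ⟨Δ, h1, fun _ _ => h2⟩
    · exact ⟨1, one_ne_zero, fun h1 h2 => absurd ⟨h1, h2⟩ hI⟩
  choose Δ h1 h2 using h
  refine ⟨∏ I ∈ S.powerset, Δ I, Finset.prod_ne_zero_iff.2 fun I _ => h1 I, ?_⟩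
  intro f hf hΔ I hI hne
  rw [hf] at hI
  rw [map_prod] at hΔ
  exact h2 I hI hne f hf (Finset.prod_ne_zero_iff.1 hΔ I (Finset.mem_powerset.2 hI))

end MPb07157.GN
end
end

section

/-!
# T1. The combinatorial data only depend on the support
-/

noncomputable section

namespace MPb07157.GN

open MvPolynomial Finset

variable {n : ℕ} {f f₁ : MvPolynomial (Fin n) ℂ} {D : Finset (Fin n)} {s₀ : ℚ}

/-- The good sets, in terms of the support. -/
structure GSet (S : Finset (Fin n →₀ ℕ)) (s₀ : ℚ) (k : GG n) (ρ : Finset {v // v ∈ S})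
    (γ : {v // v ∈ S} → ℚ) : Prop where
  face : ∀ v ∈ ρ, v.1 ∈ S.filter fun u => dotH u k = k.2
  lin : ∀ g : {v // v ∈ S} → ℚ, (∀ v, v ∉ ρ → g v = 0) →
      (∀ j, ∑ v, g v * ((v.1 j : ℕ) : ℚ) = 0) → g = 0
  zero : ∀ v, v ∉ ρ → γ v = 0
  one : ∀ j ∈ suppG k, ∑ v, γ v * ((v.1 j : ℕ) : ℚ) = 1
  tw : ∀ j ∈ suppG k, (∃ v ∈ ρ, (∀ m : ℕ, γ v ≠ m + 1) ∧ 0 < v.1 j) ∨
      ∃ j' ∈ suppG k, j' ≠ j ∧ ∀ v ∈ ρ, v.1 j' = v.1 j
  sum : -∑ v, γ v = s₀

theorem goodSet_iff {k : GG n} {ρ : Finset (Sf f)} {γ : Sf f → ℚ} :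
    GoodSet f s₀ k ρ γ ↔ GSet f.support s₀ k ρ γ :=
  ⟨fun h => ⟨h.face, h.lin, h.zero, h.one, h.tw, h.sum⟩,
    fun h => ⟨h.face, h.lin, h.zero, h.one, h.tw, h.sum⟩⟩

theorem car_congr (h : f.support = f₁.support) (k : GG n) : car f k = car f₁ k := by
  unfold car
  rw [h]

theorem isB_congr (h : f.support = f₁.support) {k : GG n} (hk : IsB f D s₀ k) :
    IsB f₁ D s₀ k := by
  have h1 := car_congr h k
  exact ⟨hk.pos, h1 ▸ hk.mem, h1 ▸ hk.bv, h1 ▸ hk.s0, hk.zero⟩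

theorem goodSet_congr (h : f.support = f₁.support) {k : GG n}
    (hg : ∃ ρ γ, GoodSet f s₀ k ρ γ) : ∃ ρ γ, GoodSet f₁ s₀ k ρ γ := by
  obtain ⟨ρ, γ, hg⟩ := hg
  have h1 : ∃ ρ γ, GSet f.support s₀ k ρ γ := ⟨ρ, γ, goodSet_iff.1 hg⟩
  rw [h] at h1
  obtain ⟨ρ', γ', h2⟩ := h1
  exact ⟨ρ', γ', goodSet_iff.2 h2⟩

/-- The parts of the zeta function are regular if there are no good sets (nondegenerate
polynomials). -/
theorem ZJm_regular_of_noGood' (hf : f ≠ 0)
    (hnd : ∀ I ⊆ f.support, I.Nonempty → NondegAt f I)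
    (h1 : s₀ ≠ -1) {K : ℕ} (hK : -s₀ < K) {D : Finset (Fin n)}
    (hng : ∀ k, IsB f D s₀ k → ∀ (ρ : Finset (Sf f)) (γ : Sf f → ℚ), ¬ GoodSet f s₀ k ρ γ) :
    ZJm f K D ∈ regularAt s₀ := by
  classical
  refine ZJm_regular hf hnd h1 hK
    (fun k => if h : IsB f D s₀ k then (h.exists_confFree (hng k h)).choose else ∅) fun k hk => ?_
  rw [dif_pos hk]
  exact (hk.exists_confFree (hng k hk)).choose_spec

/-- Poles of the global zeta function of nondegenerate polynomials come from good sets. -/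
theorem exists_good_of_pole (hf : f ≠ 0) (hnd : ∀ I ⊆ f.support, I.Nonempty → NondegAt f I)
    (h1 : s₀ ≠ -1) (hp : IsPole (Zmot f) s₀) :
    ∃ (D : Finset (Fin n)) (k : GG n), IsB f D s₀ k ∧ ∃ ρ γ, GoodSet f s₀ k ρ γ := by
  by_contra hcon
  push Not at hcon
  have hnd' : ∀ a : Fin n → ℕ, NondegAt f (face f a (nuf f a)) := by
    intro a
    refine hnd _ (Finset.filter_subset _ _) ?_
    obtain ⟨-, v, hv, hvN⟩ := isMinWt_nuf hf a
    exact ⟨v, Finset.mem_filter.2 ⟨hv, hvN⟩⟩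
  obtain ⟨K, hK⟩ := exists_nat_gt (max (-s₀) 1)
  have hK1 : 1 ≤ K := by
    have : (1 : ℚ) < K := lt_of_le_of_lt (le_max_right _ _) hK
    exact_mod_cast this.le
  have hKs : -s₀ < K := lt_of_le_of_lt (le_max_left _ _) hK
  apply hp
  rw [Zmot_eq, ZE_zero_eq hf hK1 hnd']
  exact Subalgebra.sum_mem _ fun J _ =>
    ZJm_regular_of_noGood' hf hnd h1 hKs fun k hk ρ γ hg => hcon _ k hk ρ γ hg

end MPb07157.GN
end
end

section

/-!
# The strong monodromy conjecture for generic coefficients (global version)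
-/

noncomputable section

namespace MPb07157.GN

open MvPolynomial Finset

variable {n : ℕ}

/-- **The strong monodromy conjecture (global motivic version) for all polynomials with generic
coefficients, for each set of exponents, in any number of variables.** -/
theorem smc_generic (S : Finset (Fin n →₀ ℕ)) (hS : S.Nonempty) (h0 : (0 : Fin n →₀ ℕ) ∉ S) :
    ∃ Δ : MvPolynomial {v : Fin n →₀ ℕ // v ∈ S} ℚ, Δ ≠ 0 ∧
      ∀ f : MvPolynomial (Fin n) ℂ, f.support = S → evc S f Δ ≠ 0 →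
        ∀ s₀ : ℚ, IsPole (Zmot f) s₀ → IsBernsteinSatoRoot f s₀ := by
  obtain ⟨Δ₁, hΔ₁, h1⟩ := exists_Δ_root S hS
  obtain ⟨Δ₂, hΔ₂, h2⟩ := exists_Δ_nondeg_all S
  obtain ⟨f₁, hf₁, halg⟩ := exists_algInd S
  refine ⟨Δ₁ * Δ₂, mul_ne_zero hΔ₁ hΔ₂, fun f hf hΔ s₀ hp => ?_⟩
  rw [map_mul] at hΔ
  have hf0 : f ≠ 0 := by
    rw [← MvPolynomial.support_nonempty, hf]
    exact hS
  have hf₁0 : f₁ ≠ 0 := by
    rw [← MvPolynomial.support_nonempty, hf₁]
    exact hS
  by_cases hs : s₀ = -1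
  · subst hs
    exact (roots_of_form (f := f) (s₀ := -1) fun b hb =>
      neg_one_root hf0 (by rwa [hf]) b hb).1
  obtain ⟨D, k, hk, hg⟩ := exists_good_of_pole hf0 (h2 f hf (right_ne_zero_of_mul hΔ)) hs hp
  have hs' : f.support = f₁.support := hf.trans hf₁.symm
  obtain ⟨ρ, γ, hg'⟩ := goodSet_congr hs' hg
  have halg' : AlgebraicIndependent ℚ (cf f₁) := by
    subst hf₁
    exact halg
  exact (h1 f f₁ hf hf₁ (left_ne_zero_of_mul hΔ) halg).1 s₀ (hg'.root hf₁0 halg' (isB_congr hs' hk))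

end MPb07157.GN
end
end
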