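import Pool.Agent.Lib.MP_b07157_ag.LC.FE0
import Pool.Agent.Lib.MP_b07157_ag.LC.Final
import Pool.Agent.Lib.MP_b07157_ag.LC.S2
import Pool.Agent.Lib.MP_b07157_ag.LC.G4
import Pool.Agent.Lib.MP_b07157_ag.PS.Main
import Pool.Agent.Lib.MP_b07157_ag.E.RootL
import Pool.Agent.Lib.MP_b07157_ag.PS.Lab2
import Pool.Agent.Lib.MP_b07157_ag.GN.Main

section

/-!
# Every cell has a deficit inside the union of the conflict-free deficits
-/

set_option linter.unusedSectionVars false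

namespace MPb07157.LC

open Finset Module MPb07157.EX MPb07157.SK

variable {ι κ W W' : Type} [Fintype ι] [DecidableEq ι] [Fintype κ] [DecidableEq κ]
  [AddCommGroup W] [Module ℚ W] [AddCommGroup W'] [Module ℚ W']
variable {a : ι → W} {ah : ι → W'} {pr : W' →ₗ[ℚ] W} {L : κ → W →ₗ[ℚ] ℚ} {c : κ → ι → ℕ} {one : W}
  {H0 : W →ₗ[ℚ] ℚ} {h : ι → ℚ} {J R : Finset κ} {v v' w w' : κ → ι} {φ ψ : W →ₗ[ℚ] ℚ}

/-- LC-65. **Every cell has a deficit inside `Jp`.**

Proof. `Cfg.sys` and `Jp_nonempty`.  Second part: otherwise `exists_TP` (`Jp_fam`), `s2` (`Jp_max`),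
`zeta_swap`, `off_cell` (for the form `ψ` of `s2`), `final`. -/
theorem fe [FiniteDimensional ℚ W] [FiniteDimensional ℚ W'] (hC : Cfg a ah pr L c one H0)
    (hHL : HL a ah c one h) :
    (Jp c univ (rel a)).Nonempty ∧ ∀ φ : W →ₗ[ℚ] ℚ,
      (∀ e, On c (Jp c univ (rel a)) e → 0 ≤ φ (a e) + h e) →
      ∃ R ⊆ Jp c univ (rel a), R.Nonempty ∧
        finrank ℚ (Submodule.span ℚ (ah '' {e | On c R e ∧ φ (a e) + h e = 0})) + 1
          ≤ 2 * R.card := by
  have hne : (Jp c univ (rel a)).Nonempty := Jp_nonempty (hC.sys hHL)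
  refine ⟨hne, fun φ hφ => ?_⟩
  by_contra hcon
  have hmax := (Jp_max hC.pre).2
  obtain ⟨v, v', hTP⟩ := exists_TP hC Jp_fam hne hφ (fun R hR hRn => by
    by_contra hlt
    exact hcon ⟨R, hR, hRn, by omega⟩)
  obtain ⟨w, w', ψ, hT, hsp⟩ := s2 hC Jp_fam hmax hTP
  obtain ⟨w1, w1', hT1, hsp1, ζ, hζ, h0, h1, h2⟩ := zeta_swap hC Jp_fam hmax hT hsp
  obtain ⟨ρ, φ', r0, r1, r2, r3, r4, r5, r6⟩ := off_cell hC h ψ
  exact final hC Jp_fam hHL hT1 hsp1 hζ h0 h1 h2 r0 r1 r2 r3 r4 r5 r6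

end MPb07157.LC
end

section

/-!
# Tied pairs for a larger cone
-/

noncomputable section

namespace MPb07157

open MvPolynomial Finset

variable {n : ℕ} {f : MvPolynomial (Fin n) ℂ} {s₀ : ℚ}

private lemma a4a_den (y : Fin n → ℚ) : ∃ (d : ℕ) (Y : Fin n → ℤ), 0 < d ∧
    ∀ i, ((Y i : ℤ) : ℚ) = d * y i := by
  classical
  refine ⟨∏ i, (y i).den, fun i => (∏ k ∈ univ.erase i, ((y k).den : ℤ)) * (y i).num, ?_, ?_⟩
  · exact Finset.prod_pos fun i _ => (y i).den_pos
  · intro i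
    have h1 : (∏ k, (y k).den) = (y i).den * ∏ k ∈ univ.erase i, (y k).den :=
      (Finset.mul_prod_erase univ _ (mem_univ i)).symm
    rw [h1]
    push_cast
    have h2 : ((y i).num : ℚ) = y i * (y i).den := by
      have := Rat.mul_den_eq_num (y i)
      exact_mod_cast this.symm
    rw [h2]
    ring

private lemma a4a_gap {P : Finset (Fin n)} {G : Finset (Fin n →₀ ℕ)}
    (φ : ({j // j ∈ P} → ℚ) →ₗ[ℚ] ℚ) (b : Fin n → ℤ) (e : {u // u ∈ G}) :
    ∑ i, (if h : i ∈ P then φ (Pi.single ⟨i, h⟩ 1) else ((b i : ℤ) : ℚ)) * ((e.1 i : ℕ) : ℚ) =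
      φ (aP G P e) + hb G P b e := by
  classical
  rw [← Finset.sum_add_sum_compl P]
  congr 1
  · have h1 : aP G P e = ∑ j : {j // j ∈ P}, ((e.1 j.1 : ℕ) : ℚ) • (Pi.single j (1 : ℚ) : {j // j ∈ P} → ℚ) := by
      funext j
      rw [Finset.sum_apply]
      rw [Finset.sum_eq_single j]
      · simp [aP]
      · intro k _ hk
        simp [Pi.single_eq_of_ne (Ne.symm hk)]
      · intro h
        exact absurd (mem_univ j) h
    rw [h1, map_sum, ← Finset.sum_coe_sort P]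
    refine Finset.sum_congr rfl fun j _ => ?_
    rw [map_smul, smul_eq_mul, dif_pos j.2, mul_comm]
  · unfold hb
    refine Finset.sum_congr rfl fun i hi => ?_
    rw [dif_neg (Finset.mem_compl.1 hi)]

/-- LC-80. Tied pairs for a larger cone contradict `LFE` for a smaller cone.

Proof. Let `y j = φ (Pi.single j 1)` for `j ∈ suppG t`, `y i = b i` for `i ∉ suppG t`, so the gap of
`u ∈ Gk f t` is `∑ y i * u i`.  Choose a common denominator `d > 0` and a large integer `l`: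
`b' = d y + l t.1` (integers), `m' = l t.2`.  For `i ∉ suppG t₂`: `b' i ≥ 1` (if `i ∈ suppG t` then
`t.1 i ≥ 1`, `l` large; if `i ∉ suppG t` then `t.1 i = 0`, `b' i = d b i ≥ 1`).  For
`u ∈ Gk f t₂ \ Gk f t`: `b'·u > m'` for large `l` (`dotH u t ≥ t.2 + 1`); for `u ∈ Gk f t`:
`b'·u = d gap + m'`.  So the hypotheses of `LFE (Gk f t₂) (suppG t₂) J` hold (with `v j`), and it
gives `J₀ ⊆ J`; but the vectors `v j, v' j`, `j ∈ J₀`, are independent (`2 * J₀.card` vectors in the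
set).  `J = Jt.map _`. -/
theorem no_TP {t t₂ : GG n} (ht : IsB f ∅ s₀ t) (ht₂ : IsB f ∅ s₀ t₂) (hc : t₂ ∈ car f t)
    {Jt : Finset {j // j ∈ suppG t}}
    (hL : LFE (Gk f t₂) (suppG t₂) (Jt.map (Function.Embedding.subtype _)))
    (b : Fin n → ℤ) (hb1 : ∀ i, i ∉ suppG t → 1 ≤ b i)
    {v v' : {j // j ∈ suppG t} → {u // u ∈ Gk f t}} {φ : ({j // j ∈ suppG t} → ℚ) →ₗ[ℚ] ℚ}
    (h : LC.TP (aP (Gk f t) (suppG t)) (vc (Gk f t)) (cP (Gk f t) (suppG t)) Jt
      (hb (Gk f t) (suppG t) b) v v' φ)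
    (hd : Disj01 (Gk f t) (Jt.map (Function.Embedding.subtype _))) : False := by
  classical
  obtain ⟨d, Y, hd0, hY⟩ := a4a_den (fun i => if h : i ∈ suppG t then φ (Pi.single ⟨i, h⟩ 1)
    else ((b i : ℤ) : ℚ))
  have hgap : ∀ e : {u // u ∈ Gk f t}, ((∑ i, Y i * (e.1 i : ℤ) : ℤ) : ℚ) =
      d * (φ (aP (Gk f t) (suppG t) e) + hb (Gk f t) (suppG t) b e) := by
    intro e
    rw [← a4a_gap φ b e, Finset.mul_sum]
    push_cast
    refine Finset.sum_congr rfl fun i _ => ?_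
    rw [hY i]
    ring
  have htm := ht.mem
  -- the large integer
  obtain ⟨l, hl1, hl2⟩ : ∃ l : ℕ, (∀ i, 1 ≤ Y i + l) ∧
      ∀ u ∈ f.support, 0 ≤ ∑ i, Y i * (u i : ℤ) + l := by
    refine ⟨∑ i, ((Y i).natAbs + 1) + ∑ u ∈ f.support, (∑ i, Y i * (u i : ℤ)).natAbs, ?_, ?_⟩
    · intro i
      have h1 : (Y i).natAbs + 1 ≤ ∑ i, ((Y i).natAbs + 1) :=
        Finset.single_le_sum (f := fun i => (Y i).natAbs + 1) (fun _ _ => Nat.zero_le _)
          (mem_univ i)
      omega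
    · intro u hu
      have h1 : (∑ i, Y i * (u i : ℤ)).natAbs ≤ ∑ u ∈ f.support, (∑ i, Y i * (u i : ℤ)).natAbs :=
        Finset.single_le_sum (f := fun u : Fin n →₀ ℕ => (∑ i, Y i * (u i : ℤ)).natAbs)
          (fun _ _ => Nat.zero_le _) hu
      omega
  have hdot : ∀ u : Fin n →₀ ℕ, ∑ i, (Y i + l * t.1 i) * (u i : ℤ) =
      ∑ i, Y i * (u i : ℤ) + l * dotH u t := by
    intro u
    rw [dotH_apply, Finset.mul_sum, ← Finset.sum_add_distrib]
    exact Finset.sum_congr rfl fun i _ => by ring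
  have hsub : Gk f t ⊆ Gk f t₂ := Gk_mono hc
  have hone : ∀ e : {u // u ∈ Gk f t}, ∀ j ∈ Jt, cP (Gk f t) (suppG t) j e ≠ 0 → e.1 j.1 = 1 := by
    intro e j hj hje
    have h1 := (disj01_iff.1 hd).1 e.1 e.2 j.1 (Finset.mem_map.2 ⟨j, hj, rfl⟩)
    have h2 : e.1 j.1 ≠ 0 := hje
    omega
  have hzero : ∀ e : {u // u ∈ Gk f t}, φ (aP (Gk f t) (suppG t) e) +
      hb (Gk f t) (suppG t) b e = 0 → ∑ i, (Y i + l * t.1 i) * (e.1 i : ℤ) = l * t.2 := by
    intro e he
    have h1 := hgap e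
    rw [he, mul_zero] at h1
    have h2 : ∑ i, Y i * (e.1 i : ℤ) = 0 := by exact_mod_cast h1
    have h3 : dotH e.1 t = t.2 := (Finset.mem_filter.1 e.2).2
    rw [hdot, h2, h3, zero_add]
  obtain ⟨J₀, hJ₀, hne, hrk⟩ := hL (fun i => Y i + l * t.1 i) (l * t.2) (by
      intro i hi
      show 1 ≤ Y i + l * t.1 i
      by_cases hit : i ∈ suppG t
      · have h1 : t.1 i ≠ 0 := (Finset.mem_filter.1 hit).2
        have h2 := htm.1 i
        have h3 : 1 ≤ t.1 i := by omega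
        have h4 := hl1 i
        have h5 : (l : ℤ) ≤ l * t.1 i := by nlinarith
        linarith
      · have h1 : t.1 i = 0 := by
          by_contra hcon
          exact hit (Finset.mem_filter.2 ⟨mem_univ _, hcon⟩)
        rw [h1, mul_zero, add_zero]
        have h2 := hY i
        simp only [dif_neg hit] at h2
        have h3 : Y i = d * b i := by exact_mod_cast h2
        rw [h3]
        have h4 := hb1 i hit
        have h5 : (1 : ℤ) ≤ d := by exact_mod_cast hd0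
        nlinarith) (by
      rintro u hu ⟨j, hj, huj⟩
      show (l : ℤ) * t.2 ≤ ∑ i, (Y i + l * t.1 i) * (u i : ℤ)
      rw [hdot]
      have huS : u ∈ f.support := (Finset.mem_filter.1 hu).1
      by_cases hut : u ∈ Gk f t
      · have h1 := hgap ⟨u, hut⟩
        obtain ⟨k, hk, rfl⟩ := Finset.mem_map.1 hj
        have h2 := h.pos ⟨u, hut⟩ ⟨k, hk, huj⟩
        have h3 : (0 : ℚ) ≤ ((∑ i, Y i * (u i : ℤ) : ℤ) : ℚ) := by
          rw [h1]
          exact mul_nonneg (Nat.cast_nonneg _) h2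
        have h4 : 0 ≤ ∑ i, Y i * (u i : ℤ) := by exact_mod_cast h3
        have h5 : dotH u t = t.2 := (Finset.mem_filter.1 hut).2
        rw [h5]
        linarith
      · have h1 := htm.2.2.1 u huS
        have h2 : dotH u t ≠ t.2 := fun h2 => hut (Finset.mem_filter.2 ⟨huS, h2⟩)
        have h3 : t.2 + 1 ≤ dotH u t := by omega
        have h4 := hl2 u huS
        have h5 : (l : ℤ) * (t.2 + 1) ≤ l * dotH u t :=
          mul_le_mul_of_nonneg_left h3 (Int.natCast_nonneg _)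
        linarith) (by
      intro j hj
      obtain ⟨k, hk, rfl⟩ := Finset.mem_map.1 hj
      refine ⟨(v k).1, hsub (v k).2, hone (v k) k hk (h.mem k hk).1, ?_⟩
      exact hzero (v k) (h.tie k hk).1)
  -- the rank
  obtain ⟨T, hT⟩ : ∃ T : Finset {j // j ∈ suppG t}, T.map (Function.Embedding.subtype _) = J₀ := by
    refine ⟨J₀.subtype (· ∈ suppG t), ?_⟩
    rw [Finset.subtype_map, Finset.filter_true_of_mem]
    intro x hx
    obtain ⟨k, -, rfl⟩ := Finset.mem_map.1 (hJ₀ hx)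
    exact k.2
  have hTJ : T ⊆ Jt := by
    rw [← hT] at hJ₀
    exact Finset.map_subset_map.1 hJ₀
  set g : {j // j ∈ T} ⊕ {j // j ∈ T} → (Fin n → ℚ) :=
    Sum.elim (fun j => vc (Gk f t) (v j.1)) (fun j => vc (Gk f t) (v' j.1)) with hg
  have hli : LinearIndependent ℚ g := by
    rw [Fintype.linearIndependent_iff]
    intro c hc0
    rw [Fintype.sum_sum_type] at hc0
    have h1 := h.ind (fun j => if hj : j ∈ T then c (Sum.inl ⟨j, hj⟩) else 0)
      (fun j => if hj : j ∈ T then c (Sum.inr ⟨j, hj⟩) else 0) (by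
        rw [← hc0, ← Finset.sum_add_distrib]
        rw [← Finset.sum_subset hTJ (by
          intro j _ hj
          rw [dif_neg hj, dif_neg hj, zero_smul, zero_smul, add_zero])]
        rw [← Finset.sum_coe_sort T]
        refine Finset.sum_congr rfl fun j _ => ?_
        rw [dif_pos j.2, dif_pos j.2]
        rfl)
    rintro (j | j)
    · have h2 := (h1 j.1 (hTJ j.2)).1
      simp only [dif_pos j.2] at h2
      exact h2
    · have h2 := (h1 j.1 (hTJ j.2)).2
      simp only [dif_pos j.2] at h2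
      exact h2
  have hcard := finrank_span_eq_card hli
  have hle : Submodule.span ℚ (Set.range g) ≤ Submodule.span ℚ {x : Fin n → ℚ | ∃ u ∈ Gk f t₂,
      (∃ j ∈ J₀, u j ≠ 0) ∧ ∑ i, (Y i + l * t.1 i) * (u i : ℤ) = l * t.2 ∧
        x = fun i => (u i : ℚ)} := by
    refine Submodule.span_mono ?_
    rintro _ ⟨p, rfl⟩
    rcases p with j | j
    · refine ⟨(v j.1).1, hsub (v j.1).2, ⟨j.1.1, ?_, (h.mem j.1 (hTJ j.2)).1⟩,
        hzero (v j.1) (h.tie j.1 (hTJ j.2)).1, rfl⟩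
      rw [← hT]
      exact Finset.mem_map.2 ⟨j.1, j.2, rfl⟩
    · refine ⟨(v' j.1).1, hsub (v' j.1).2, ⟨j.1.1, ?_, (h.mem j.1 (hTJ j.2)).2⟩,
        hzero (v' j.1) (h.tie j.1 (hTJ j.2)).2, rfl⟩
      rw [← hT]
      exact Finset.mem_map.2 ⟨j.1, j.2, rfl⟩
  have hmono := Submodule.finrank_mono hle
  rw [hcard, Fintype.card_sum, Fintype.card_coe] at hmono
  have hcT : J₀.card = T.card := by rw [← hT, Finset.card_map]
  omega

end MPb07157
end
end

section

/-!
# No good sets: owners in all cells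
-/

noncomputable section

namespace MPb07157

open MvPolynomial Finset

variable {n : ℕ} {f : MvPolynomial (Fin n) ℂ} {s₀ : ℚ}

/-- LC-74. Without good sets in compact faces the hypothesis `HL` holds for all heights. -/
theorem IsB.hl {k : GG n} (hk : IsB f ∅ s₀ k)
    (hno : ∀ (ω : Fin n → ℕ) (N : ℕ) (ρ : Finset (Sf f)) (γ : Sf f → ℚ),
      ¬ GoodSetL f s₀ k ω N ρ γ) (b : Fin n → ℤ) (hb1 : ∀ i, i ∉ suppG k → 1 ≤ b i) :
    LC.HL (aP (Gk f k) (suppG k)) (vc (Gk f k)) (cP (Gk f k) (suppG k)) (fun _ => 1)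
      (hb (Gk f k) (suppG k) b) := by
  intro φ ρ h1 h2 h3 h4
  by_contra hcon
  obtain ⟨ρ₁, γ, hg, hρ⟩ := hk.goodP ρ h3 h4 hcon
  obtain ⟨ω, N, hN, hω, hmin, htie⟩ := hk.compact b hb1 φ h1
  refine hno ω N ρ₁ γ ⟨hg, hN, hω, hmin, fun v hv => ?_⟩
  obtain ⟨h, h'⟩ := hρ v hv
  exact htie ⟨v.1, h⟩ (h2 _ h')

end MPb07157
end
end

section

/-!
# LFE for the cores
-/

noncomputable section

namespace MPb07157

open MvPolynomial Finset

variable {n : ℕ} {f : MvPolynomial (Fin n) ℂ} {s₀ : ℚ}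

private lemma a4_lift {P S : Finset (Fin n)} (hS : S ⊆ P) :
    ∃ T : Finset {j // j ∈ P}, T.map (Function.Embedding.subtype _) = S := by
  classical
  refine ⟨S.subtype (· ∈ P), ?_⟩
  rw [Finset.subtype_map, Finset.filter_true_of_mem fun x hx => hS hx]

private lemma a4_map_sub {P : Finset (Fin n)} {S T : Finset {j // j ∈ P}} :
    S.map (Function.Embedding.subtype _) ⊆ T.map (Function.Embedding.subtype _) ↔ S ⊆ T :=
  Finset.map_subset_map

private lemma a4_mem {P : Finset (Fin n)} {S : Finset {j // j ∈ P}} {j : {j // j ∈ P}} :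
    j.1 ∈ S.map (Function.Embedding.subtype _) ↔ j ∈ S := by
  constructor
  · intro h
    obtain ⟨x, hx, hxj⟩ := Finset.mem_map.1 h
    have : x = j := Subtype.ext hxj
    rw [← this]
    exact hx
  · intro h
    exact Finset.mem_map.2 ⟨j, h, rfl⟩

/-- The linear form of a weight. -/
private def a4phi (P : Finset (Fin n)) (b : Fin n → ℤ) (m : ℤ) (k : GG n) :
    ({j // j ∈ P} → ℚ) →ₗ[ℚ] ℚ :=
  (∑ j : {j // j ∈ P}, ((b j.1 : ℤ) : ℚ) • LinearMap.proj j) - ((m : ℤ) : ℚ) • HP P k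

private lemma a4_gap {G : Finset (Fin n →₀ ℕ)} {P : Finset (Fin n)} (b : Fin n → ℤ) (m : ℤ)
    (k : GG n) (e : {u // u ∈ G}) (h1 : HP P k (aP G P e) = 1) :
    a4phi P b m k (aP G P e) + hb G P b e = ((∑ i, b i * (e.1 i : ℤ) - m : ℤ) : ℚ) := by
  classical
  have h2 : (∑ j : {j // j ∈ P}, ((b j.1 : ℤ) : ℚ) • LinearMap.proj (R := ℚ) (φ := fun _ => ℚ) j)
      (aP G P e) = ∑ j ∈ P, ((b j : ℤ) : ℚ) * ((e.1 j : ℕ) : ℚ) := by
    rw [LinearMap.sum_apply, ← Finset.sum_coe_sort P]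
    refine Finset.sum_congr rfl fun j _ => ?_
    rw [LinearMap.smul_apply, LinearMap.proj_apply, smul_eq_mul]
    rfl
  unfold a4phi
  rw [LinearMap.sub_apply, h2, LinearMap.smul_apply, h1, smul_eq_mul, mul_one]
  unfold hb
  have h3 := Finset.sum_add_sum_compl P fun j => ((b j : ℤ) : ℚ) * ((e.1 j : ℕ) : ℚ)
  push_cast
  linarith

/-- LC-81. **`LFE` for the cores.**

Proof. Let `Jt` be `J` as a set of columns of `t` (`J ⊆ suppG t₂ ⊆ suppG t`); it is a family
(`Disj01.mono`, `IsB.col_ne`, `fam_iff`), and `K` the union of the minimal deficits in `Jt`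
(`LC.phi_max`), `CoreP .. = K.map _` (`minDfcP_iff`).  Suppose `LFE` fails for `b`, `m`: with
`φ x = ∑ b j * x j - m * HP x` the gaps are `b·u - m`, and for all nonempty `R ⊆ K` the rank is at
least `2 * R.card`.  If `K` is not empty, `LC.exists_TP` gives tied pairs for `K` (if `K` is empty,
any functions and any `φ` are tied pairs; `Gk f t` is not empty).  `LC.TP.extend` gives tied pairs
for `Jt`, contradiction to `no_TP`. -/
theorem LFE.core {t t₂ : GG n} (ht : IsB f ∅ s₀ t) (ht₂ : IsB f ∅ s₀ t₂) (hc : t₂ ∈ car f t)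
    {J : Finset (Fin n)} (hJ : J ⊆ suppG t₂) (hd : Disj01 (Gk f t₂) J)
    (hL : LFE (Gk f t₂) (suppG t₂) J) :
    LFE (Gk f t) (suppG t) (CoreP (Gk f t) (suppG t) J) := by
  classical
  have hPP : suppG t₂ ⊆ suppG t := suppG_mono hc
  have hJP : J ⊆ suppG t := hJ.trans hPP
  have hne : ∀ j ∈ suppG t, ∃ u ∈ Gk f t, u j ≠ 0 := fun j hj => ht.col_ne hj
  have hdJ : Disj01 (Gk f t) J :=
    Disj01.mono (Gk_mono hc) Finset.Subset.rfl hd fun j hj => hne j (hJP hj)
  obtain ⟨Jt, hJt⟩ := a4_lift hJP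
  have hU : SK.Fam (cP (Gk f t) (suppG t)) univ ∅ Jt := by
    rw [fam_iff hne, hJt]
    exact hdJ
  have hC := ht.cfg
  obtain ⟨K, hKJ, hKm, hKmax, -⟩ := LC.phi_max hC.pre hU
  have hKc : K.map (Function.Embedding.subtype _) = CoreP (Gk f t) (suppG t) J := by
    ext j
    rw [mem_CoreP]
    constructor
    · intro hj
      obtain ⟨x, hx, rfl⟩ := Finset.mem_map.1 hj
      obtain ⟨Z, hZ, hZm, hxZ⟩ := (hKm x).1 hx
      refine ⟨?_, Z.map (Function.Embedding.subtype _), ?_, (minDfcP_iff hne Z).1 hZm, ?_⟩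
      · rw [← hJt]
        exact Finset.mem_map.2 ⟨x, hKJ hx, rfl⟩
      · rw [← hJt]
        exact a4_map_sub.2 hZ
      · exact Finset.mem_map.2 ⟨x, hxZ, rfl⟩
    · rintro ⟨hj, J', hJ', hm, hjJ'⟩
      obtain ⟨Z, hZ⟩ := a4_lift (hJ'.trans hJP)
      subst hZ
      obtain ⟨x, hx, rfl⟩ := Finset.mem_map.1 hjJ'
      refine Finset.mem_map.2 ⟨x, (hKm x).2 ⟨Z, ?_, (minDfcP_iff hne Z).2 hm, hx⟩, rfl⟩
      rw [← hJt] at hJ'
      exact a4_map_sub.1 hJ'
  intro b m hb1 hge htie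
  by_contra hcon
  have hgap := fun e : {u // u ∈ Gk f t} =>
    a4_gap (G := Gk f t) (P := suppG t) b m t e (hC.hom e)
  obtain ⟨j₀, hj₀⟩ := hL.nonempty
  obtain ⟨u₀, hu₀, -⟩ := hne j₀ (hJP hj₀)
  have : Nonempty {u // u ∈ Gk f t} := ⟨⟨u₀, hu₀⟩⟩
  have hTP : ∃ v v' φ, LC.TP (aP (Gk f t) (suppG t)) (vc (Gk f t)) (cP (Gk f t) (suppG t)) K
      (hb (Gk f t) (suppG t) b) v v' φ := by
    rcases K.eq_empty_or_nonempty with hK0 | hKn
    · subst hK0
      refine ⟨fun _ => ⟨u₀, hu₀⟩, fun _ => ⟨u₀, hu₀⟩, 0, ?_, ?_, ?_, ?_⟩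
      · intro j hj
        exact absurd hj (Finset.notMem_empty j)
      · intro μ μ' _ j hj
        exact absurd hj (Finset.notMem_empty j)
      · rintro e ⟨j, hj, -⟩
        exact absurd hj (Finset.notMem_empty j)
      · intro j hj
        exact absurd hj (Finset.notMem_empty j)
    · have hKF : SK.Fam (cP (Gk f t) (suppG t)) univ ∅ K :=
        ⟨hKJ.trans hU.sub, fun k hk => hU.zo k (hKJ hk),
          fun k hk k' hk' => hU.dj k (hKJ hk) k' (hKJ hk')⟩
      have hex := LC.exists_TP (h := hb (Gk f t) (suppG t) b) (φ := a4phi (suppG t) b m t)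
        hC hKF hKn (fun e he => by
          obtain ⟨j, hj, hje⟩ := he
          rw [hgap e]
          have h1 := hge e.1 e.2 ⟨j.1, by rw [← hKc]; exact a4_mem.2 hj, hje⟩
          have h2 : (0 : ℤ) ≤ ∑ i, b i * (e.1 i : ℤ) - m := by linarith
          exact_mod_cast h2) (fun R hR hRn => by
          by_contra hlt
          refine hcon ⟨R.map (Function.Embedding.subtype _), ?_, hRn.map, ?_⟩
          · rw [← hKc]
            exact a4_map_sub.2 hR
          · rw [Finset.card_map]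
            have hset : {x : Fin n → ℚ | ∃ u ∈ Gk f t,
                (∃ j ∈ R.map (Function.Embedding.subtype _), u j ≠ 0) ∧
                ∑ i, b i * (u i : ℤ) = m ∧ x = fun i => (u i : ℚ)} =
                vc (Gk f t) '' {e | LC.On (cP (Gk f t) (suppG t)) R e ∧
                  a4phi (suppG t) b m t (aP (Gk f t) (suppG t) e) +
                    hb (Gk f t) (suppG t) b e = 0} := by
              ext x
              constructor
              · rintro ⟨u, hu, ⟨j, hj, hju⟩, hum, rfl⟩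
                obtain ⟨y, hy, rfl⟩ := Finset.mem_map.1 hj
                refine ⟨⟨u, hu⟩, ⟨⟨y, hy, hju⟩, ?_⟩, rfl⟩
                rw [hgap ⟨u, hu⟩]
                have h2 : ∑ i, b i * (u i : ℤ) - m = 0 := by linarith
                exact_mod_cast h2
              · rintro ⟨e, ⟨⟨y, hy, hye⟩, he⟩, rfl⟩
                refine ⟨e.1, e.2, ⟨y.1, a4_mem.2 hy, hye⟩, ?_, rfl⟩
                rw [hgap e] at he
                have h2 : ∑ i, b i * (e.1 i : ℤ) - m = 0 := by exact_mod_cast he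
                linarith
            rw [hset]
            omega)
      obtain ⟨v, v', hv⟩ := hex
      exact ⟨v, v', _, hv⟩
  obtain ⟨v, v', φ, hv⟩ := hTP
  obtain ⟨w, w', ψ, hw⟩ := LC.TP.extend hC hU hKJ hKmax hv
  refine no_TP ht ht₂ hc (Jt := Jt) ?_ b hb1 hw ?_
  · rw [hJt]
    exact hL
  · rw [hJt]
    exact hdJ

end MPb07157
end
end

section

/-!
# Every cell has a deficit inside `J⁺`
-/

noncomputable section

namespace MPb07157

open MvPolynomial Finset

variable {n : ℕ} {f : MvPolynomial (Fin n) ℂ} {s₀ : ℚ}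

/-- LC-78. `LFE` for `J⁺`.

Proof. `LC.fe` for `IsB.cfg` and `IsB.hl`.  Given `b`, `m` as in `LFE`, let
`φ x = ∑_{j ∈ suppG k} b j * x j - m * HP x`, so that `φ (aP u) + hb u = ∑ b i * u i - m` for
`u ∈ Gk f k` (`Cfg.hom`).  `J₀ = R.map _`; the two sets of vectors are equal. -/
theorem IsB.lfe {k : GG n} (hk : IsB f ∅ s₀ k)
    (hno : ∀ (ω : Fin n → ℕ) (N : ℕ) (ρ : Finset (Sf f)) (γ : Sf f → ℚ),
      ¬ GoodSetL f s₀ k ω N ρ γ) : LFE (Gk f k) (suppG k) (JlP f k) := by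
  classical
  intro b m hb1 hb2 _
  obtain ⟨-, hfe⟩ := LC.fe hk.cfg (hk.hl hno b hb1)
  set φ : ({j // j ∈ suppG k} → ℚ) →ₗ[ℚ] ℚ :=
    (∑ j : {j // j ∈ suppG k}, ((b j.1 : ℤ) : ℚ) • LinearMap.proj j) -
      ((m : ℤ) : ℚ) • HP (suppG k) k with hφ
  have hval : ∀ u : {u // u ∈ Gk f k}, φ (aP (Gk f k) (suppG k) u) +
      hb (Gk f k) (suppG k) b u = ((∑ i, b i * (u.1 i : ℤ) - m : ℤ) : ℚ) := by
    intro u
    have h1 : HP (suppG k) k (aP (Gk f k) (suppG k) u) = 1 := hk.cfg.hom u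
    rw [hφ, LinearMap.sub_apply, LinearMap.smul_apply, h1, LinearMap.sum_apply]
    have h2 : ∀ j : {j // j ∈ suppG k}, ((((b j.1 : ℤ) : ℚ) •
        (LinearMap.proj j : ({j // j ∈ suppG k} → ℚ) →ₗ[ℚ] ℚ))) (aP (Gk f k) (suppG k) u) =
        ((b j.1 * (u.1 j.1 : ℤ) : ℤ) : ℚ) := by
      intro j
      rw [LinearMap.smul_apply, LinearMap.proj_apply]
      unfold aP
      push_cast
      rfl
    rw [Finset.sum_congr rfl fun j _ => h2 j,
      Finset.sum_coe_sort (suppG k) fun j => ((b j * (u.1 j : ℤ) : ℤ) : ℚ)]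
    unfold hb
    rw [← Finset.sum_add_sum_compl (suppG k)]
    push_cast
    simp only [smul_eq_mul, mul_one]
    ring
  obtain ⟨R, hR, hne, hrk⟩ := hfe φ (by
    rintro e ⟨j, hj, hje⟩
    rw [hval e]
    have h1 := hb2 e.1 e.2 ⟨j.1, Finset.mem_map_of_mem (Function.Embedding.subtype _) hj, hje⟩
    have h2 : (0 : ℤ) ≤ ∑ i, b i * (e.1 i : ℤ) - m := by linarith
    exact_mod_cast h2)
  refine ⟨R.map (Function.Embedding.subtype _), Finset.map_subset_map.2 hR, hne.map, ?_⟩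
  rw [Finset.card_map]
  refine le_trans (Nat.add_le_add_right (Submodule.finrank_mono (Submodule.span_mono ?_)) 1) hrk
  rintro x ⟨u, hu, ⟨j, hj, hju⟩, hm, rfl⟩
  obtain ⟨j', hj', rfl⟩ := Finset.mem_map.1 hj
  refine ⟨⟨u, hu⟩, ⟨⟨j', hj', hju⟩, ?_⟩, rfl⟩
  rw [hval ⟨u, hu⟩]
  have h2 : ∑ i, b i * (u i : ℤ) - m = 0 := by linarith
  exact_mod_cast h2

end MPb07157
end
end

section

/-!
# The strong monodromy conjecture for very general polynomials: local version, compact facets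
-/

noncomputable section

namespace MPb07157

open MvPolynomial Finset

variable {n : ℕ} {f : MvPolynomial (Fin n) ℂ} {D : Finset (Fin n)} {s₀ : ℚ}

/-- A good set in a compact face gives a root of the local Bernstein–Sato polynomial. -/
theorem GoodSet.root_local (hf : f ≠ 0) (halg : AlgebraicIndependent ℚ (cf f)) {k : GG n}
    (hk : IsB f D s₀ k) (hpos : ∀ j, 0 < k.1 j) {ρ : Finset (Sf f)} {γ : Sf f → ℚ}
    (h : GoodSet f s₀ k ρ γ) :
    IsLocalBernsteinSatoRoot f s₀ := by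
  classical
  have hcar := hk.mem
  have hwt : ∀ v : Fin n →₀ ℕ, ((wt (fun i => (k.1 i).toNat) v : ℕ) : ℤ) = dotH v k := by
    intro v
    unfold wt
    rw [dotH_apply]
    push_cast
    refine Finset.sum_congr rfl fun j _ => ?_
    rw [Int.toNat_of_nonneg (hcar.1 j)]
  have hN : ((k.2.toNat : ℕ) : ℤ) = k.2 := Int.toNat_of_nonneg hk.pos.le
  have hN0 : 0 < k.2.toNat := by have := hk.pos; omega
  have hmin : ∀ v ∈ f.support, k.2.toNat ≤ wt (fun i => (k.1 i).toNat) v := by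
    intro v hv
    have h2 := hcar.2.2.1 v hv
    have h3 := hwt v
    omega
  have hρ : ∀ v ∈ ρ, wt (fun i => (k.1 i).toNat) v.1 = k.2.toNat := by
    intro v hv
    have h2 : dotH v.1 k = k.2 := (Finset.mem_filter.1 (h.face v hv)).2
    have h3 := hwt v.1
    omega
  have hω : ∀ j, 0 < (k.1 j).toNat := by
    intro j
    have := hpos j
    omega
  refine (roots_of_form fun b hb => ?_).2
  have h1 := root_twin_form hf halg (w := fun i => (k.1 i).toNat) (ω := fun i => (k.1 i).toNat)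
    (N := k.2.toNat) (Nω := k.2.toNat) hN0 hN0 hmin hω hmin
    (suppG k) (fun j _ => by
      unfold suppG
      refine Finset.mem_filter.2 ⟨Finset.mem_univ _, fun h0 => ?_⟩
      have := hpos j
      rw [h0] at this
      exact lt_irrefl _ this) ρ hρ hρ
    h.lin γ h.zero h.one h.tw b hb
  rw [← h.sum]
  exact_mod_cast h1

/-- **The strong monodromy conjecture (local motivic version) for all convenient polynomials with
algebraically independent coefficients, in any number of variables.** -/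
theorem smc_local_convenient (hf : f ≠ 0) (h0 : (0 : Fin n →₀ ℕ) ∉ f.support)
    (hconv : ∀ i, ∃ m : ℕ, Finsupp.single i m ∈ f.support)
    (halg : AlgebraicIndependent ℚ (cf f)) (s₀ : ℚ) :
    IsPole (Zmot0 f) s₀ → IsLocalBernsteinSatoRoot f s₀ := by
  intro hp
  by_cases h1 : s₀ = -1
  · subst h1
    exact (roots_of_form (f := f) (s₀ := -1) fun b hb => neg_one_root hf h0 b hb).2
  by_contra hnr
  have hnd : ∀ a : Fin n → ℕ, NondegAt f (face f a (nuf f a)) := by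
    intro a
    refine nondegAt_of_algInd f halg _ (Finset.filter_subset _ _) ?_
    obtain ⟨-, v, hv, hvN⟩ := isMinWt_nuf hf a
    exact ⟨v, Finset.mem_filter.2 ⟨hv, hvN⟩⟩
  obtain ⟨K, hK⟩ := exists_nat_gt (max (-s₀) 1)
  have hK1 : 1 ≤ K := by
    have : (1 : ℚ) < K := lt_of_le_of_lt (le_max_right _ _) hK
    exact_mod_cast this.le
  have hKs : -s₀ < K := lt_of_le_of_lt (le_max_left _ _) hK
  apply hp
  rw [Zmot0_eq, ZE_one_eq hf hK1 hnd]
  refine ZJm_regular_of_noGood hf halg h1 hKs fun k hk ρ γ hg => hnr ?_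
  refine hg.root_local hf halg hk fun j => ?_
  obtain ⟨m, hm⟩ := hconv j
  have h2 := hk.mem.2.2.1 _ hm
  rw [dotH_apply, Finset.sum_eq_single j] at h2
  · rw [Finsupp.single_eq_same] at h2
    have h3 := hk.mem.1 j
    have h4 := hk.pos
    by_contra h5
    have h6 : k.1 j = 0 := le_antisymm (not_lt.1 h5) h3
    rw [h6] at h2
    simp at h2
    omega
  · intro i _ hi
    rw [Finsupp.single_eq_of_ne hi]
    simp
  · intro h
    exact absurd (Finset.mem_univ _) h

end MPb07157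
end
end

section

/-!
# The labels of the flags, local version
-/

noncomputable section

namespace MPb07157

open MvPolynomial Finset

variable {n : ℕ} {f : MvPolynomial (Fin n) ℂ} {s₀ : ℚ}

/-- The labels, by recursion on the flag. -/
private inductive LabP (f : MvPolynomial (Fin n) ℂ) (Jl : GG n → Finset (Fin n)) :
    Finset (GG n) → Finset (Fin n) → Prop
  | top {F : Finset (GG n)} {t : GG n} (ht : t ∈ F) (h : ∀ k ∈ F, k ∈ car f t) : LabP f Jl F (Jl t)
  | core {F : Finset (GG n)} {t : GG n} {J : Finset (Fin n)} (ht : t ∈ F) (h : ∀ k ∈ F, k ∈ car f t)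
      (hJ : LabP f Jl (F.erase t) J) : LabP f Jl F (CoreP (Gk f t) (suppG t) J)

private theorem labP_ne {Jl : GG n → Finset (Fin n)} {F : Finset (GG n)} {J : Finset (Fin n)}
    (h : LabP f Jl F J) : F.Nonempty := by
  cases h with
  | top ht _ => exact ⟨_, ht⟩
  | core ht _ _ => exact ⟨_, ht⟩

private theorem labP_uniq {F : Finset (GG n)} (hF : F ∈ Fl f ∅ s₀) {t t' : GG n} (ht : t ∈ F)
    (h : ∀ k ∈ F, k ∈ car f t) (ht' : t' ∈ F) (h' : ∀ k ∈ F, k ∈ car f t') : t' = t :=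
  IsB.eq_of_car_eq (hF.1 t' ht') (hF.1 t ht)
    (Set.Subset.antisymm (car_subset (h t' ht')) (car_subset (h' t ht)))

private theorem labP_Gk {F : Finset (GG n)} (hF : F ∈ Fl f ∅ s₀) {t : GG n} (ht : t ∈ F)
    (h : ∀ k ∈ F, k ∈ car f t) : Gk f (∑ k ∈ F, k) = Gk f t := by
  ext u
  rw [mem_Gk_sum hF]
  unfold Gk
  rw [mem_filter]
  exact ⟨fun h1 => ⟨h1.1, h1.2 t ht⟩, fun h1 => ⟨h1.1, fun k hk => (h k hk).2.2.2 u h1.1 h1.2⟩⟩

private theorem labP_supp {F : Finset (GG n)} (hF : F ∈ Fl f ∅ s₀) {t : GG n} (ht : t ∈ F)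
    (h : ∀ k ∈ F, k ∈ car f t) : suppG (∑ k ∈ F, k) = suppG t := by
  ext i
  unfold suppG
  rw [mem_filter, mem_filter]
  have e1 : (∑ k ∈ F, k).1 i = ∑ k ∈ F, k.1 i := by
    rw [Prod.fst_sum, Finset.sum_apply]
  rw [e1]
  have h0 : ∀ k ∈ F, 0 ≤ k.1 i := fun k hk => (hF.1 k hk).mem.1 i
  constructor
  · rintro ⟨h1, h2⟩
    refine ⟨h1, fun h3 => h2 ?_⟩
    exact Finset.sum_eq_zero fun k hk => (h k hk).2.1 i h3
  · rintro ⟨h1, h2⟩
    refine ⟨h1, fun h3 => h2 ?_⟩
    exact (Finset.sum_eq_zero_iff_of_nonneg h0).1 h3 t ht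

private theorem coreP_sub (G : Finset (Fin n →₀ ℕ)) (P J : Finset (Fin n)) : CoreP G P J ⊆ J :=
  fun _ hj => (mem_CoreP.1 hj).1

private theorem coreP_mono (G : Finset (Fin n →₀ ℕ)) (P : Finset (Fin n)) {J J' : Finset (Fin n)}
    (h : J ⊆ J') : CoreP G P J ⊆ CoreP G P J' := by
  intro j hj
  obtain ⟨h1, J₀, h2, h3, h4⟩ := mem_CoreP.1 hj
  exact mem_CoreP.2 ⟨h h1, J₀, h2.trans h, h3, h4⟩

private theorem labP_B {Jl : GG n → Finset (Fin n)}
    (h1 : ∀ k, IsB f ∅ s₀ k → Jl k ⊆ suppG k ∧ Disj01 (Gk f k) (Jl k))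
    (h2 : ∀ k, IsB f ∅ s₀ k → ∀ J' ⊆ suppG k, MinDfcP (Gk f k) (suppG k) J' →
      Disj01 (Gk f k) (Jl k ∪ J')) (m : ℕ) : ∀ F : Finset (GG n), F.card ≤ m →
    F ∈ Fl f ∅ s₀ → ∀ t ∈ F, (∀ k ∈ F, k ∈ car f t) →
    ∃ U, U ⊆ suppG t ∧ Disj01 (Gk f t) U ∧ ∀ J, LabP f Jl F J → J ⊆ U := by
  induction m with
  | zero =>
    intro F hm _ t ht _
    rw [Nat.le_zero, card_eq_zero] at hm
    rw [hm] at ht
    exact absurd ht (notMem_empty _)
  | succ m ih =>
    intro F hm hF t ht h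
    have hcf := h1 t (hF.1 t ht)
    have hcp := h2 t (hF.1 t ht)
    by_cases hne : (F.erase t).Nonempty
    · have hF2 := Fl.subset hF (erase_subset t F)
      obtain ⟨t2, ht2, h2⟩ := Fl.exists_top hF2 hne
      have hm2 : (F.erase t).card ≤ m := by
        rw [card_erase_of_mem ht]
        omega
      obtain ⟨U, u1, u2, u3⟩ := ih (F.erase t) hm2 hF2 t2 ht2 h2
      have hc := h t2 (mem_of_mem_erase ht2)
      have hs := suppG_mono hc
      have hG := Gk_mono hc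
      refine ⟨Jl t ∪ CoreP (Gk f t) (suppG t) U,
        union_subset hcf.1 ((coreP_sub _ _ _).trans (u1.trans hs)), ?_, ?_⟩
      · have d1 := disj01_iff.1 hcf.2
        have d2 := disj01_iff.1 u2
        have hcore : ∀ j ∈ CoreP (Gk f t) (suppG t) U,
            j ∈ U ∧ ∃ J' ⊆ U, MinDfcP (Gk f t) (suppG t) J' ∧ j ∈ J' := by
          intro j hj
          exact mem_CoreP.1 hj
        have hmix : ∀ u ∈ Gk f t, ∀ i ∈ Jl t, ∀ j ∈ CoreP (Gk f t) (suppG t) U, i ≠ j →
            u i = 0 ∨ u j = 0 := by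
          intro u hu i hi j hj hij
          obtain ⟨_, J', hJ1, hJ2, hJ3⟩ := hcore j hj
          have h3 := disj01_iff.1 (hcp J' (hJ1.trans (u1.trans hs)) hJ2)
          exact h3.2.1 u hu i (mem_union_left _ hi) j (mem_union_right _ hJ3) hij
        rw [disj01_iff]
        refine ⟨?_, ?_, ?_⟩
        · intro u hu i hi
          rcases mem_union.1 hi with hi | hi
          · exact d1.1 u hu i hi
          · exact d2.1 u (hG hu) i (hcore i hi).1
        · intro u hu i hi j hj hij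
          rcases mem_union.1 hi with hi | hi
          · rcases mem_union.1 hj with hj | hj
            · exact d1.2.1 u hu i hi j hj hij
            · exact hmix u hu i hi j hj hij
          · rcases mem_union.1 hj with hj | hj
            · exact (hmix u hu j hj i hi (Ne.symm hij)).symm
            · exact d2.2.1 u (hG hu) i (hcore i hi).1 j (hcore j hj).1 hij
        · intro j hj
          rcases mem_union.1 hj with hj | hj
          · exact d1.2.2 j hj
          · obtain ⟨_, J', hJ1, hJ2, hJ3⟩ := hcore j hj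
            exact (disj01_iff.1 hJ2.1.2.1).2.2 j hJ3
      · intro J hJ
        cases hJ with
        | top ht' h' =>
          rw [labP_uniq hF ht h ht' h']
          exact subset_union_left
        | core ht' h' hJ' =>
          have e := labP_uniq hF ht h ht' h'
          rw [e] at hJ' ⊢
          exact (coreP_mono _ _ (u3 _ hJ')).trans subset_union_right
    · refine ⟨Jl t, hcf.1, hcf.2, ?_⟩
      intro J hJ
      cases hJ with
      | top ht' h' =>
        rw [labP_uniq hF ht h ht' h']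
      | core ht' h' hJ' =>
        rw [labP_uniq hF ht h ht' h'] at hJ'
        exact absurd (labP_ne hJ') hne

private theorem labP_A {Jl : GG n → Finset (Fin n)}
    (h1 : ∀ k, IsB f ∅ s₀ k → Jl k ⊆ suppG k ∧ Disj01 (Gk f k) (Jl k))
    (h2 : ∀ k, IsB f ∅ s₀ k → ∀ J' ⊆ suppG k, MinDfcP (Gk f k) (suppG k) J' →
      Disj01 (Gk f k) (Jl k ∪ J'))
    (h3 : ∀ k, IsB f ∅ s₀ k → LFE (Gk f k) (suppG k) (Jl k))
    {F : Finset (GG n)} {J : Finset (Fin n)}
    (hL : LabP f Jl F J) : F ∈ Fl f ∅ s₀ → ∀ t ∈ F, (∀ k ∈ F, k ∈ car f t) →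
    LFE (Gk f t) (suppG t) J := by
  induction hL with
  | top ht h =>
    intro hF t ht' h'
    have e := labP_uniq hF ht h ht' h'
    rw [e]
    exact h3 _ (hF.1 _ ht)
  | @core F₁ t₁ J₁ ht h hJ ih =>
    intro hF t ht' h'
    have e := labP_uniq hF ht h ht' h'
    rw [e]
    have hF2 := Fl.subset hF (erase_subset t₁ F₁)
    obtain ⟨t2, ht2, h2'⟩ := Fl.exists_top hF2 (labP_ne hJ)
    have i1 := ih hF2 t2 ht2 h2'
    have hc := h t2 (mem_of_mem_erase ht2)
    obtain ⟨U, u1, u2, u3⟩ := labP_B h1 h2 (F₁.erase t₁).card (F₁.erase t₁) le_rfl hF2 t2 ht2 h2'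
    have hU := u3 _ hJ
    have hB2 := hF2.1 t2 ht2
    exact LFE.core (hF.1 _ ht) hB2 hc (hU.trans u1)
      (u2.mono Subset.rfl hU fun j hj => hB2.col_ne (u1 (hU hj))) i1

private theorem labP_D {Jl : GG n → Finset (Fin n)} (m : ℕ) : ∀ F : Finset (GG n), F.card ≤ m →
    F ∈ Fl f ∅ s₀ → ∀ F' ⊆ F, ∀ J', LabP f Jl F' J' → ∃ J, LabP f Jl F J ∧ J ⊆ J' := by
  induction m with
  | zero =>
    intro F hm _ F' hF' J' hJ'
    rw [Nat.le_zero, card_eq_zero] at hm
    rw [hm, subset_empty] at hF'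
    have := labP_ne hJ'
    rw [hF'] at this
    exact absurd this not_nonempty_empty
  | succ m ih =>
    intro F hm hF F' hF' J' hJ'
    obtain ⟨t, ht, h⟩ := Fl.exists_top hF ((labP_ne hJ').mono hF')
    have hF2 := Fl.subset hF (erase_subset t F)
    have hm2 : (F.erase t).card ≤ m := by
      rw [card_erase_of_mem ht]
      omega
    by_cases htF : t ∈ F'
    · have hFl' := Fl.subset hF hF'
      have h' : ∀ k ∈ F', k ∈ car f t := fun k hk => h k (hF' hk)
      cases hJ' with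
      | top ht1 h1 =>
        rw [labP_uniq hFl' htF h' ht1 h1]
        exact ⟨Jl t, LabP.top ht h, Subset.refl _⟩
      | core ht1 h1 hJ1 =>
        have e := labP_uniq hFl' htF h' ht1 h1
        rw [e] at hJ1 ⊢
        obtain ⟨J, i1, i2⟩ := ih (F.erase t) hm2 hF2 (F'.erase t) (erase_subset_erase t hF') _ hJ1
        exact ⟨_, LabP.core ht h i1, coreP_mono _ _ i2⟩
    · obtain ⟨J, i1, i2⟩ := ih (F.erase t) hm2 hF2 F'
        (fun k hk => mem_erase.2 ⟨fun e => htF (e ▸ hk), hF' hk⟩) _ hJ'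
      exact ⟨_, LabP.core ht h i1, (coreP_sub _ _ _).trans i2⟩

/-- LC-82. **The labels of the flags.**  Copy of `exists_labels` (`PS/Lab2.lean`), with
`Lab2`: `top` = `Jl t`, `core` = `CoreP (Gk f t) (suppG t) J`, and `D = ∅`.

(A) `LFE (Gk f t) (suppG t) J` for the labels `J` of `F` with top `t`: by induction; `top`: `h3`;
`core`: `LFE.core` for the top `t₂` of `F.erase t` (`J ⊆ U`, `Disj01 (Gk f t₂) U` from (B), so
`Disj01 (Gk f t₂) J` by `Disj01.mono`, `IsB.col_ne`).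
(B) and (D) as in `PS/Lab2.lean`. -/
theorem exists_labelsP (Jl : GG n → Finset (Fin n))
    (h1 : ∀ k, IsB f ∅ s₀ k → Jl k ⊆ suppG k ∧ Disj01 (Gk f k) (Jl k))
    (h2 : ∀ k, IsB f ∅ s₀ k → ∀ J' ⊆ suppG k, MinDfcP (Gk f k) (suppG k) J' →
      Disj01 (Gk f k) (Jl k ∪ J'))
    (h3 : ∀ k, IsB f ∅ s₀ k → LFE (Gk f k) (suppG k) (Jl k)) :
    ∃ 𝓢 : Finset (GG n) → Set (Finset (Fin n)), ∀ F ∈ Fl f ∅ s₀, F.Nonempty →
      (𝓢 F).Nonempty ∧
      (∃ U, U ⊆ suppG (∑ k ∈ F, k) ∧ Disj01 (Gk f (∑ k ∈ F, k)) U ∧ ∀ J ∈ 𝓢 F, J ⊆ U) ∧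
      (∀ J ∈ 𝓢 F, LFE (Gk f (∑ k ∈ F, k)) (suppG (∑ k ∈ F, k)) J) ∧
      ∀ F' ⊆ F, F'.Nonempty → ∀ J' ∈ 𝓢 F', ∃ J ∈ 𝓢 F, J ⊆ J' := by
  refine ⟨fun F => {J | LabP f Jl F J}, fun F hF hne => ?_⟩
  obtain ⟨t, ht, h⟩ := Fl.exists_top hF hne
  refine ⟨⟨Jl t, LabP.top ht h⟩, ?_, ?_, ?_⟩
  · obtain ⟨U, u1, u2, u3⟩ := labP_B h1 h2 F.card F le_rfl hF t ht h
    rw [labP_Gk hF ht h, labP_supp hF ht h]
    exact ⟨U, u1, u2, u3⟩
  · intro J hJ
    rw [labP_Gk hF ht h, labP_supp hF ht h]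
    exact labP_A h1 h2 h3 hJ hF t ht h
  · intro F' hF' _ J' hJ'
    exact labP_D F.card F le_rfl hF F' hF' J' hJ'

end MPb07157
end
end

section

/-!
# The strong monodromy conjecture for generic coefficients (local version, convenient supports)
-/

noncomputable section

namespace MPb07157.GN

open MvPolynomial Finset

variable {n : ℕ} {f : MvPolynomial (Fin n) ℂ} {s₀ : ℚ}

/-- Strong roots are roots of the local Bernstein–Sato polynomial. -/
theorem StrongRoot.local (h : StrongRoot f (s₀ : ℂ)) : IsLocalBernsteinSatoRoot f s₀ := by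
  refine (roots_of_form fun b hb => ?_).2
  obtain ⟨p, hp, hpb⟩ := hb.exists_poly
  have h1 := h _ hpb
  rw [map_mul, Polynomial.eval_mul, constantCoeff_C] at h1
  have h2 : constantCoeff (liftS p) = 1 := by
    unfold liftS
    rw [constantCoeff_map, hp, map_one]
  rwa [h2, Polynomial.eval_one, mul_one] at h1

/-- A good set in a compact face gives a strong root. -/
theorem root_strong (hf : f ≠ 0) (halg : AlgebraicIndependent ℚ (cf f)) {D : Finset (Fin n)}
    {k : GG n} (hk : IsB f D s₀ k) (hpos : ∀ j, 0 < k.1 j) {ρ : Finset (Sf f)} {γ : Sf f → ℚ}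
    (h : GoodSet f s₀ k ρ γ) : StrongRoot f (s₀ : ℂ) := by
  classical
  have hcar := hk.mem
  have hwt : ∀ v : Fin n →₀ ℕ, ((wt (fun i => (k.1 i).toNat) v : ℕ) : ℤ) = dotH v k := by
    intro v
    unfold wt
    rw [dotH_apply]
    push_cast
    refine Finset.sum_congr rfl fun j _ => ?_
    rw [Int.toNat_of_nonneg (hcar.1 j)]
  have hN : ((k.2.toNat : ℕ) : ℤ) = k.2 := Int.toNat_of_nonneg hk.pos.le
  have hN0 : 0 < k.2.toNat := by have := hk.pos; omega
  have hmin : ∀ v ∈ f.support, k.2.toNat ≤ wt (fun i => (k.1 i).toNat) v := by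
    intro v hv
    have h2 := hcar.2.2.1 v hv
    have h3 := hwt v
    omega
  have hρ : ∀ v ∈ ρ, wt (fun i => (k.1 i).toNat) v.1 = k.2.toNat := by
    intro v hv
    have h2 : dotH v.1 k = k.2 := (Finset.mem_filter.1 (h.face v hv)).2
    have h3 := hwt v.1
    omega
  have hω : ∀ j, 0 < (k.1 j).toNat := by
    intro j
    have := hpos j
    omega
  intro g hg
  have h1 := root_twin_strong hf halg (w := fun i => (k.1 i).toNat) (ω := fun i => (k.1 i).toNat)
    (N := k.2.toNat) (Nω := k.2.toNat) hN0 hN0 hmin hω hmin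
    (suppG k) (fun j _ => by
      unfold suppG
      refine Finset.mem_filter.2 ⟨Finset.mem_univ _, fun h0 => ?_⟩
      have := hpos j
      rw [h0] at this
      exact lt_irrefl _ this) ρ hρ hρ
    h.lin γ h.zero h.one h.tw g hg
  rw [← h.sum]
  exact_mod_cast h1

/-- Poles of the local zeta function of nondegenerate polynomials come from good sets. -/
theorem exists_good_of_pole_local (hf : f ≠ 0)
    (hnd : ∀ I ⊆ f.support, I.Nonempty → NondegAt f I)
    (h1 : s₀ ≠ -1) (hp : IsPole (Zmot0 f) s₀) :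
    ∃ k : GG n, IsB f ∅ s₀ k ∧ ∃ ρ γ, GoodSet f s₀ k ρ γ := by
  by_contra hcon
  push Not at hcon
  have hnd' : ∀ a : Fin n → ℕ, NondegAt f (face f a (nuf f a)) := by
    intro a
    refine hnd _ (Finset.filter_subset _ _) ?_
    obtain ⟨-, v, hv, hvN⟩ := isMinWt_nuf hf a
    exact ⟨v, Finset.mem_filter.2 ⟨hv, hvN⟩⟩
  obtain ⟨K, hK⟩ := exists_nat_gt (max (-s₀) 1)
  have hK1 : 1 ≤ K := by
    have : (1 : ℚ) < K := lt_of_le_of_lt (le_max_right _ _) hK
    exact_mod_cast this.le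
  have hKs : -s₀ < K := lt_of_le_of_lt (le_max_left _ _) hK
  apply hp
  rw [Zmot0_eq, ZE_one_eq hf hK1 hnd']
  exact ZJm_regular_of_noGood' hf hnd h1 hKs fun k hk ρ γ hg => hcon k hk ρ γ hg

/-- In convenient polynomials the vectors of cones that contribute a pole are positive. -/
theorem pos_of_convenient (hconv : ∀ i, ∃ m : ℕ, Finsupp.single i m ∈ f.support)
    {D : Finset (Fin n)} {k : GG n} (hk : IsB f D s₀ k) (j : Fin n) : 0 < k.1 j := by
  obtain ⟨m, hm⟩ := hconv j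
  have h2 := hk.mem.2.2.1 _ hm
  rw [dotH_apply, Finset.sum_eq_single j] at h2
  · rw [Finsupp.single_eq_same] at h2
    have h3 := hk.mem.1 j
    have h4 := hk.pos
    by_contra h5
    have h6 : k.1 j = 0 := le_antisymm (not_lt.1 h5) h3
    rw [h6] at h2
    simp at h2
    omega
  · intro i _ hi
    rw [Finsupp.single_eq_of_ne hi]
    simp
  · intro h
    exact absurd (Finset.mem_univ _) h

/-- **The strong monodromy conjecture (global and local motivic versions) for convenient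
polynomials with generic coefficients.** -/
theorem smc_generic_convenient (S : Finset (Fin n →₀ ℕ)) (hS : S.Nonempty)
    (h0 : (0 : Fin n →₀ ℕ) ∉ S) (hconv : ∀ i, ∃ m : ℕ, Finsupp.single i m ∈ S) :
    ∃ Δ : MvPolynomial {v : Fin n →₀ ℕ // v ∈ S} ℚ, Δ ≠ 0 ∧
      ∀ f : MvPolynomial (Fin n) ℂ, f.support = S → evc S f Δ ≠ 0 → ∀ s₀ : ℚ,
        (IsPole (Zmot f) s₀ → IsBernsteinSatoRoot f s₀) ∧
          (IsPole (Zmot0 f) s₀ → IsLocalBernsteinSatoRoot f s₀) := by
  obtain ⟨Δ₁, hΔ₁, h1⟩ := exists_Δ_root S hS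
  obtain ⟨Δ₂, hΔ₂, h2⟩ := exists_Δ_nondeg_all S
  obtain ⟨Δ₃, hΔ₃, h3⟩ := smc_generic S hS h0
  obtain ⟨f₁, hf₁, halg⟩ := exists_algInd S
  refine ⟨Δ₁ * Δ₂ * Δ₃, mul_ne_zero (mul_ne_zero hΔ₁ hΔ₂) hΔ₃, fun f hf hΔ s₀ => ?_⟩
  rw [map_mul, map_mul] at hΔ
  refine ⟨h3 f hf (right_ne_zero_of_mul hΔ) s₀, fun hp => ?_⟩
  have hΔ' := left_ne_zero_of_mul hΔ
  have hf0 : f ≠ 0 := by
    rw [← MvPolynomial.support_nonempty, hf]
    exact hS
  have hf₁0 : f₁ ≠ 0 := by
    rw [← MvPolynomial.support_nonempty, hf₁]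
    exact hS
  by_cases hs : s₀ = -1
  · subst hs
    exact (roots_of_form (f := f) (s₀ := -1) fun b hb =>
      neg_one_root hf0 (by rwa [hf]) b hb).2
  obtain ⟨k, hk, hg⟩ := exists_good_of_pole_local hf0 (h2 f hf (right_ne_zero_of_mul hΔ')) hs hp
  have hs' : f.support = f₁.support := hf.trans hf₁.symm
  obtain ⟨ρ, γ, hg'⟩ := goodSet_congr hs' hg
  have halg' : AlgebraicIndependent ℚ (cf f₁) := by
    subst hf₁
    exact halg
  have hk' := isB_congr hs' hk
  exact StrongRoot.local ((h1 f f₁ hf hf₁ (left_ne_zero_of_mul hΔ') halg).2 s₀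
    (root_strong hf₁0 halg' hk' (pos_of_convenient (by rwa [hf₁]) hk') hg'))

end MPb07157.GN
end
end

section

/-!
# Good cells: strong roots from cells that lie in a face of weight `w` and in a compact face
-/

noncomputable section

namespace MPb07157

open MvPolynomial Finset

variable {n : ℕ} {f : MvPolynomial (Fin n) ℂ} {s₀ : ℚ} {S : Finset (Fin n →₀ ℕ)}
  {w ω : Fin n → ℕ} {N Nω : ℕ} {ρ : Finset (Fin n →₀ ℕ)} {γ : (Fin n →₀ ℕ) → ℚ}

/-- A good cell: the independent set `ρ` lies in the face of weight `w` and in the compact face of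
weight `ω`; the point one (in the coordinates `j` with `w j > 0`) is `∑ γ v • v`. -/
structure GCell (S : Finset (Fin n →₀ ℕ)) (s₀ : ℚ) (w ω : Fin n → ℕ) (N Nω : ℕ)
    (ρ : Finset (Fin n →₀ ℕ)) (γ : (Fin n →₀ ℕ) → ℚ) : Prop where
  sub : ρ ⊆ S
  N0 : 0 < N
  Nω0 : 0 < Nω
  min : ∀ v ∈ S, N ≤ wt w v
  pos : ∀ j, 0 < ω j
  minω : ∀ v ∈ S, Nω ≤ wt ω v
  face : ∀ v ∈ ρ, wt w v = N
  faceω : ∀ v ∈ ρ, wt ω v = Nω
  lin : ∀ g : (Fin n →₀ ℕ) → ℚ, (∀ j, ∑ v ∈ ρ, g v * ((v j : ℕ) : ℚ) = 0) → ∀ v ∈ ρ, g v = 0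
  one : ∀ j, 0 < w j → ∑ v ∈ ρ, γ v * ((v j : ℕ) : ℚ) = 1
  sum : ∑ v ∈ ρ, γ v = -s₀
  tw : ∀ j, 0 < w j → (∃ v ∈ ρ, (∀ k : ℕ, γ v ≠ k + 1) ∧ 0 < v j) ∨
    ∃ j', 0 < w j' ∧ j' ≠ j ∧ ∀ v ∈ ρ, v j' = v j

theorem sum_Sf_of_zero (hρ : ρ ⊆ f.support) (F : (Fin n →₀ ℕ) → ℚ) (hF : ∀ v, v ∉ ρ → F v = 0) :
    ∑ v : Sf f, F v.1 = ∑ v ∈ ρ, F v := by
  rw [Finset.sum_coe_sort f.support F]
  exact (Finset.sum_subset hρ fun v _ hv => hF v hv).symm

/-- A good cell gives a strong root. -/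
theorem GCell.strong (hf : f ≠ 0) (halg : AlgebraicIndependent ℚ (cf f))
    (h : GCell f.support s₀ w ω N Nω ρ γ) : GN.StrongRoot f (s₀ : ℂ) := by
  classical
  intro g hg
  let ρ' : Finset (Sf f) := (Finset.univ : Finset (Sf f)).filter (fun v => v.1 ∈ ρ)
  have hmem : ∀ v, v ∈ ρ' ↔ v.1 ∈ ρ := fun v => by simp [ρ']
  let γ' : Sf f → ℚ := fun v => if v.1 ∈ ρ then γ v.1 else 0
  have hsum : ∀ F : (Fin n →₀ ℕ) → ℚ, ∑ v : Sf f, γ' v * F v.1 = ∑ v ∈ ρ, γ v * F v := by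
    intro F
    have h1 := sum_Sf_of_zero (f := f) h.sub (fun v => (if v ∈ ρ then γ v else 0) * F v)
      (fun v hv => by rw [if_neg hv, zero_mul])
    refine h1.trans (Finset.sum_congr rfl fun v hv => ?_)
    rw [if_pos hv]
  have hsum' : ∑ v : Sf f, γ' v = -s₀ := by
    have h1 := hsum fun _ => 1
    simp only [mul_one] at h1
    rw [h1, h.sum]
  have := root_twin_strong hf halg h.N0 h.Nω0 h.min h.pos h.minω
    (Finset.univ.filter fun j => 0 < w j) (fun j hj => by simpa using hj) ρ'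
    (fun v hv => h.face v.1 ((hmem v).1 hv)) (fun v hv => h.faceω v.1 ((hmem v).1 hv)) ?_ γ'
    (fun v hv => if_neg fun h1 => hv ((hmem v).2 h1))
    (fun j hj => by
      rw [hsum fun v => ((v j : ℕ) : ℚ)]
      exact h.one j (Finset.mem_filter.1 hj).2) ?_ g hg
  · rw [hsum', neg_neg] at this
    exact this
  · intro g' h0 hg'
    have h1 := h.lin (fun v => if hv : v ∈ f.support then g' ⟨v, hv⟩ else 0) (fun j => by
      have h2 := sum_Sf_of_zero (f := f) h.sub
        (fun v => (if hv : v ∈ f.support then g' ⟨v, hv⟩ else 0) * ((v j : ℕ) : ℚ))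
        (fun v hv => by
          split_ifs with h2
          · rw [h0 ⟨v, h2⟩ fun h3 => hv ((hmem _).1 h3), zero_mul]
          · rw [zero_mul])
      rw [← h2, ← hg' j]
      refine Finset.sum_congr rfl fun v _ => ?_
      rw [dif_pos v.2])
    funext v
    by_cases hv : v.1 ∈ ρ
    · have h2 := h1 v.1 hv
      rw [dif_pos v.2] at h2
      exact h2
    · exact h0 v fun h2 => hv ((hmem v).1 h2)
  · intro j hj
    rcases h.tw j (Finset.mem_filter.1 hj).2 with ⟨v, hv, h1, h2⟩ | ⟨j', h1, h2, h3⟩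
    · refine Or.inl ⟨⟨v, h.sub hv⟩, (hmem _).2 hv, fun k => ?_, h2⟩
      have : γ' ⟨v, h.sub hv⟩ = γ v := if_pos hv
      rw [this]
      exact h1 k
    · exact Or.inr ⟨j', Finset.mem_filter.2 ⟨Finset.mem_univ _, h1⟩, h2,
        fun v hv => h3 v.1 ((hmem v).1 hv)⟩

/-- A good cell from a set without owner. -/
theorem GCell.of_noOwner (hsub : ρ ⊆ S) (hN : 0 < N) (hNω : 0 < Nω) (hmin : ∀ v ∈ S, N ≤ wt w v)
    (hpos : ∀ j, 0 < ω j) (hminω : ∀ v ∈ S, Nω ≤ wt ω v) (hface : ∀ v ∈ ρ, wt w v = N)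
    (hfaceω : ∀ v ∈ ρ, wt ω v = Nω)
    (hlin : ∀ g : (Fin n →₀ ℕ) → ℚ, (∀ j, ∑ v ∈ ρ, g v * ((v j : ℕ) : ℚ) = 0) → ∀ v ∈ ρ, g v = 0)
    (hone : ∀ j, 0 < w j → ∑ v ∈ ρ, γ v * ((v j : ℕ) : ℚ) = 1)
    (hs : ((∑ j, w j : ℕ) : ℚ) = -s₀ * N)
    (hno : ∀ v ∈ ρ, ∀ j, 0 < w j → ¬ ∀ j', 0 < w j' →
      ((∀ i ∈ ρ, i j' = if i = v then 1 else 0) ↔ j' = j)) :
    GCell S s₀ w ω N Nω ρ γ where
  sub := hsub
  N0 := hN
  Nω0 := hNω
  min := hmin
  pos := hpos
  minω := hminω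
  face := hface
  faceω := hfaceω
  lin := hlin
  one := hone
  sum := by
    have h1 : ∑ v ∈ ρ, γ v * (N : ℚ) = ∑ j, (w j : ℚ) := by
      calc ∑ v ∈ ρ, γ v * (N : ℚ) = ∑ v ∈ ρ, ∑ j, (w j : ℚ) * (γ v * ((v j : ℕ) : ℚ)) := by
            refine Finset.sum_congr rfl fun v hv => ?_
            rw [← hface v hv]
            unfold wt
            push_cast
            rw [Finset.mul_sum]
            exact Finset.sum_congr rfl fun j _ => by ring
        _ = ∑ j, (w j : ℚ) * ∑ v ∈ ρ, γ v * ((v j : ℕ) : ℚ) := by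
            rw [Finset.sum_comm]
            exact Finset.sum_congr rfl fun j _ => by rw [Finset.mul_sum]
        _ = ∑ j, (w j : ℚ) := by
            refine Finset.sum_congr rfl fun j _ => ?_
            rcases Nat.eq_zero_or_pos (w j) with h | h
            · rw [h]
              simp
            · rw [hone j h, mul_one]
    push_cast at hs
    rw [hs, ← Finset.sum_mul] at h1
    have h2 : (N : ℚ) ≠ 0 := by exact_mod_cast hN.ne'
    exact mul_right_cancel₀ h2 h1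
  tw := by
    intro j hj
    by_contra hcon
    push Not at hcon
    obtain ⟨h1, h2⟩ := hcon
    -- all `v ∈ ρ` with `v j > 0` have positive integer coefficients
    have h3 : ∀ v ∈ ρ, 0 < v j → ∃ k : ℕ, γ v = k + 1 := by
      intro v hv hvj
      by_contra h4
      push Not at h4
      exact absurd (h1 v hv h4) (by omega)
    have h4 : ∀ v ∈ ρ, ((v j : ℕ) : ℚ) ≤ γ v * ((v j : ℕ) : ℚ) := by
      intro v hv
      rcases Nat.eq_zero_or_pos (v j) with h | h
      · rw [h]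
        simp
      · obtain ⟨k, hk⟩ := h3 v hv h
        rw [hk]
        have h5 : (0 : ℚ) ≤ k := by positivity
        have h6 : (0 : ℚ) ≤ ((v j : ℕ) : ℚ) := by positivity
        nlinarith
    have h5 := hone j hj
    have h6 : ∃ v ∈ ρ, 0 < v j := by
      by_contra h7
      push Not at h7
      rw [Finset.sum_eq_zero fun v hv => by
        rw [Nat.le_zero.1 (h7 v hv)]
        simp] at h5
      exact zero_ne_one h5
    obtain ⟨v, hv, hvj⟩ := h6
    have h7 : ∑ u ∈ ρ, ((u j : ℕ) : ℚ) ≤ 1 := h5 ▸ Finset.sum_le_sum h4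
    have h8 : ∑ u ∈ ρ, u j ≤ 1 := by exact_mod_cast h7
    have h9 : ∀ i ∈ ρ, i j = if i = v then 1 else 0 := by
      intro i hi
      have h10 := Finset.single_le_sum (f := fun u : Fin n →₀ ℕ => u j)
        (fun _ _ => Nat.zero_le _) hv
      split_ifs with h11
      · rw [h11]
        omega
      · have h12 : ∑ u ∈ ({i, v} : Finset (Fin n →₀ ℕ)), u j ≤ ∑ u ∈ ρ, u j :=
          Finset.sum_le_sum_of_subset (by
            intro u hu
            rcases Finset.mem_insert.1 hu with rfl | hu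
            · exact hi
            · rw [Finset.mem_singleton.1 hu]
              exact hv)
        rw [Finset.sum_pair h11] at h12
        omega
    refine hno v hv j hj fun j' hj' => ⟨fun h10 => ?_, fun h10 => by rw [h10]; exact h9⟩
    by_contra h11
    obtain ⟨u, hu, huj⟩ := h2 j' hj' h11
    exact huj (by rw [h10 u hu, h9 u hu])

/-- **The strong monodromy conjecture (local motivic version) for generic coefficients**, if the
poles of nondegenerate polynomials with the set of exponents `S` come from good cells. -/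
theorem GN.smc_generic_local_of (S : Finset (Fin n →₀ ℕ)) (hS : S.Nonempty)
    (h0 : (0 : Fin n →₀ ℕ) ∉ S)
    (hpole : ∀ f : MvPolynomial (Fin n) ℂ, f.support = S →
      (∀ I ⊆ f.support, I.Nonempty → NondegAt f I) → ∀ s₀ : ℚ, s₀ ≠ -1 → IsPole (Zmot0 f) s₀ →
        ∃ w ω N Nω ρ γ, GCell S s₀ w ω N Nω ρ γ) :
    ∃ Δ : MvPolynomial {v : Fin n →₀ ℕ // v ∈ S} ℚ, Δ ≠ 0 ∧
      ∀ f : MvPolynomial (Fin n) ℂ, f.support = S → GN.evc S f Δ ≠ 0 → ∀ s₀ : ℚ,
        IsPole (Zmot0 f) s₀ → IsLocalBernsteinSatoRoot f s₀ := by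
  obtain ⟨Δ₁, hΔ₁, h1⟩ := GN.exists_Δ_root S hS
  obtain ⟨Δ₂, hΔ₂, h2⟩ := GN.exists_Δ_nondeg_all S
  obtain ⟨f₁, hf₁, halg⟩ := GN.exists_algInd S
  refine ⟨Δ₁ * Δ₂, mul_ne_zero hΔ₁ hΔ₂, fun f hf hΔ s₀ hp => ?_⟩
  rw [map_mul] at hΔ
  have hf0 : f ≠ 0 := by
    rw [← MvPolynomial.support_nonempty, hf]
    exact hS
  have hf₁0 : f₁ ≠ 0 := by
    rw [← MvPolynomial.support_nonempty, hf₁]
    exact hS
  by_cases hs : s₀ = -1
  · subst hs
    exact (roots_of_form (f := f) (s₀ := -1) fun b hb =>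
      neg_one_root hf0 (by rwa [hf]) b hb).2
  obtain ⟨w, ω, N, Nω, ρ, γ, hc⟩ := hpole f hf (h2 f hf (right_ne_zero_of_mul hΔ)) s₀ hs hp
  refine GN.StrongRoot.local ((h1 f f₁ hf hf₁ (left_ne_zero_of_mul hΔ) halg).2 s₀ ?_)
  subst hf₁
  exact hc.strong hf₁0 halg

end MPb07157
end
end

section

/-!
# The strong monodromy conjecture for very general polynomials: local version
-/

noncomputable section

namespace MPb07157

open MvPolynomial Finset

variable {n : ℕ} {f : MvPolynomial (Fin n) ℂ} {s₀ : ℚ}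

/-- The local zeta function is regular if there are no good sets in compact faces. -/
theorem ZJm_regular_of_noGoodL (hf : f ≠ 0) (hnd : ∀ I ⊆ f.support, I.Nonempty → NondegAt f I)
    (h1 : s₀ ≠ -1) {K : ℕ} (hK : -s₀ < K)
    (hng : ∀ k, IsB f ∅ s₀ k → ∀ (ω : Fin n → ℕ) (N : ℕ) (ρ : Finset (Sf f)) (γ : Sf f → ℚ),
      ¬ GoodSetL f s₀ k ω N ρ γ) :
    ZJm f K ∅ ∈ regularAt s₀ := by
  obtain ⟨𝓢, h𝓢⟩ := exists_labelsP (f := f) (s₀ := s₀) (JlP f)
    (fun k hk => ⟨JlP_sub k, hk.JlP_disj⟩) (fun k hk J' hJ' hm => hk.JlP_comp hJ' hm)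
    (fun k hk => hk.lfe (hng k hk))
  exact ZJm_regular_of_labels hf hnd h1 hK 𝓢 h𝓢

/-- **The strong monodromy conjecture (local motivic version) for all polynomials with
algebraically independent coefficients, in any number of variables.** -/
theorem smc_local (hf : f ≠ 0) (h0 : (0 : Fin n →₀ ℕ) ∉ f.support)
    (halg : AlgebraicIndependent ℚ (cf f)) (s₀ : ℚ) :
    IsPole (Zmot0 f) s₀ → IsLocalBernsteinSatoRoot f s₀ := by
  intro hp
  by_cases h1 : s₀ = -1
  · subst h1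
    exact (roots_of_form (f := f) (s₀ := -1) fun b hb => neg_one_root hf h0 b hb).2
  by_contra hnr
  have hnd : ∀ I ⊆ f.support, I.Nonempty → NondegAt f I := fun I hI hne =>
    nondegAt_of_algInd f halg I hI hne
  have hnd' : ∀ a : Fin n → ℕ, NondegAt f (face f a (nuf f a)) := by
    intro a
    refine hnd _ (Finset.filter_subset _ _) ?_
    obtain ⟨-, v, hv, hvN⟩ := isMinWt_nuf hf a
    exact ⟨v, Finset.mem_filter.2 ⟨hv, hvN⟩⟩
  obtain ⟨K, hK⟩ := exists_nat_gt (max (-s₀) 1)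
  have hK1 : 1 ≤ K := by
    have : (1 : ℚ) < K := lt_of_le_of_lt (le_max_right _ _) hK
    exact_mod_cast this.le
  have hKs : -s₀ < K := lt_of_le_of_lt (le_max_left _ _) hK
  apply hp
  rw [Zmot0_eq, ZE_one_eq hf hK1 hnd']
  exact ZJm_regular_of_noGoodL hf hnd h1 hKs fun k hk ω N ρ γ hg => hnr (hg.root hf halg hk)

end MPb07157
end
end

section

/-!
# The strong monodromy conjecture for generic coefficients: local version, all supports
-/

noncomputable section

namespace MPb07157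

open MvPolynomial Finset

variable {n : ℕ} {f : MvPolynomial (Fin n) ℂ} {s₀ : ℚ}

/-- A good set in a compact face is a good cell. -/
theorem GoodSetL.cell {D : Finset (Fin n)} {k : GG n} (hk : IsB f D s₀ k) {ω : Fin n → ℕ} {N : ℕ}
    {ρ : Finset (Sf f)} {γ : Sf f → ℚ} (h : GoodSetL f s₀ k ω N ρ γ) :
    ∃ ρ' γ', GCell f.support s₀ (fun i => (k.1 i).toNat) ω k.2.toNat N ρ' γ' := by
  classical
  have hcar := hk.mem
  have hwt : ∀ v : Fin n →₀ ℕ, ((wt (fun i => (k.1 i).toNat) v : ℕ) : ℤ) = dotH v k := by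
    intro v
    unfold wt
    rw [dotH_apply]
    push_cast
    refine Finset.sum_congr rfl fun j _ => ?_
    rw [Int.toNat_of_nonneg (hcar.1 j)]
  have hN0 : 0 < k.2.toNat := by have := hk.pos; omega
  have hmin : ∀ v ∈ f.support, k.2.toNat ≤ wt (fun i => (k.1 i).toNat) v := by
    intro v hv
    have h2 := hcar.2.2.1 v hv
    have h3 := hwt v
    omega
  have hρ : ∀ v ∈ ρ, wt (fun i => (k.1 i).toNat) v.1 = k.2.toNat := by
    intro v hv
    have h2 : dotH v.1 k = k.2 := (Finset.mem_filter.1 (h.face v hv)).2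
    have h3 := hwt v.1
    omega
  have hsupp : ∀ j, 0 < (k.1 j).toNat → j ∈ suppG k := by
    intro j hj
    unfold suppG
    refine Finset.mem_filter.2 ⟨Finset.mem_univ _, fun h0 => ?_⟩
    rw [h0] at hj
    exact absurd hj (by decide)
  have hsupp' : ∀ j ∈ suppG k, 0 < (k.1 j).toNat := by
    intro j hj
    have h1 : k.1 j ≠ 0 := (Finset.mem_filter.1 hj).2
    have h2 := hcar.1 j
    omega
  have hsum : ∀ F : (Fin n →₀ ℕ) → ℚ, ∑ v ∈ ρ.image Subtype.val, F v = ∑ v ∈ ρ, F v.1 :=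
    fun F => Finset.sum_image fun a _ b _ hab => Subtype.ext hab
  have hsum' : ∀ F : Sf f → ℚ, (∀ v, v ∉ ρ → F v = 0) → ∑ v ∈ ρ, F v = ∑ v, F v :=
    fun F hF => Finset.sum_subset (Finset.subset_univ _) fun v _ hv => hF v hv
  have hγ : ∀ v ∈ ρ, (if hv : v.1 ∈ f.support then γ ⟨v.1, hv⟩ else 0) = γ v := by
    intro v _
    rw [dif_pos v.2]
  refine ⟨ρ.image Subtype.val, fun v => if hv : v ∈ f.support then γ ⟨v, hv⟩ else 0, ?_⟩
  constructor
  · intro v hv
    obtain ⟨u, -, rfl⟩ := Finset.mem_image.1 hv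
    exact u.2
  · exact hN0
  · exact h.hN
  · exact hmin
  · exact h.hω
  · exact h.hmin
  · intro v hv
    obtain ⟨u, hu, rfl⟩ := Finset.mem_image.1 hv
    exact hρ u hu
  · intro v hv
    obtain ⟨u, hu, rfl⟩ := Finset.mem_image.1 hv
    exact h.htie u hu
  · intro g hg v hv
    obtain ⟨u, hu, rfl⟩ := Finset.mem_image.1 hv
    have h1 := h.lin (fun v => if v ∈ ρ then g v.1 else 0) (fun v hv => if_neg hv) (fun j => by
      rw [← hsum' (fun v => (if v ∈ ρ then g v.1 else 0) * ((v.1 j : ℕ) : ℚ))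
        (fun v hv => by rw [if_neg hv, zero_mul])]
      have h3 := hg j
      rw [hsum] at h3
      rw [← h3]
      exact Finset.sum_congr rfl fun v hv => by rw [if_pos hv])
    have h2 := congrFun h1 u
    simp only [Pi.zero_apply] at h2
    rwa [if_pos hu] at h2
  · intro j hj
    rw [hsum, ← h.one j (hsupp j hj), ← hsum' (fun v => γ v * ((v.1 j : ℕ) : ℚ))
      (fun v hv => by rw [h.zero v hv, zero_mul])]
    exact Finset.sum_congr rfl fun v hv => by rw [hγ v hv]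
  · rw [hsum, ← h.sum, ← hsum' γ h.zero, neg_neg]
    exact Finset.sum_congr rfl fun v hv => hγ v hv
  · intro j hj
    rcases h.tw j (hsupp j hj) with ⟨v, hv, h1, h2⟩ | ⟨j', h1, h2, h3⟩
    · refine Or.inl ⟨v.1, Finset.mem_image_of_mem _ hv, fun k => ?_, h2⟩
      rw [hγ v hv]
      exact h1 k
    · refine Or.inr ⟨j', hsupp' j' h1, h2, fun v hv => ?_⟩
      obtain ⟨u, hu, rfl⟩ := Finset.mem_image.1 hv
      exact h3 u hu

/-- Poles of the local zeta function of nondegenerate polynomials come from good cells. -/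
theorem exists_cell_of_pole (hf : f ≠ 0) (hnd : ∀ I ⊆ f.support, I.Nonempty → NondegAt f I)
    (h1 : s₀ ≠ -1) (hp : IsPole (Zmot0 f) s₀) :
    ∃ w ω N Nω ρ γ, GCell f.support s₀ w ω N Nω ρ γ := by
  by_contra hcon
  have hnd' : ∀ a : Fin n → ℕ, NondegAt f (face f a (nuf f a)) := by
    intro a
    refine hnd _ (Finset.filter_subset _ _) ?_
    obtain ⟨-, v, hv, hvN⟩ := isMinWt_nuf hf a
    exact ⟨v, Finset.mem_filter.2 ⟨hv, hvN⟩⟩
  obtain ⟨K, hK⟩ := exists_nat_gt (max (-s₀) 1)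
  have hK1 : 1 ≤ K := by
    have : (1 : ℚ) < K := lt_of_le_of_lt (le_max_right _ _) hK
    exact_mod_cast this.le
  have hKs : -s₀ < K := lt_of_le_of_lt (le_max_left _ _) hK
  apply hp
  rw [Zmot0_eq, ZE_one_eq hf hK1 hnd']
  refine ZJm_regular_of_noGoodL hf hnd h1 hKs fun k hk ω N ρ γ hg => ?_
  obtain ⟨ρ', γ', h2⟩ := hg.cell hk
  exact hcon ⟨_, _, _, _, _, _, h2⟩

/-- **The strong monodromy conjecture (local motivic version) for all polynomials with generic
coefficients, for each set of exponents, in any number of variables.** -/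
theorem GN.smc_generic_local (S : Finset (Fin n →₀ ℕ)) (hS : S.Nonempty)
    (h0 : (0 : Fin n →₀ ℕ) ∉ S) :
    ∃ Δ : MvPolynomial {v : Fin n →₀ ℕ // v ∈ S} ℚ, Δ ≠ 0 ∧
      ∀ f : MvPolynomial (Fin n) ℂ, f.support = S → GN.evc S f Δ ≠ 0 → ∀ s₀ : ℚ,
        IsPole (Zmot0 f) s₀ → IsLocalBernsteinSatoRoot f s₀ := by
  refine GN.smc_generic_local_of S hS h0 fun f hf hnd s₀ h1 hp => ?_
  subst hf
  exact exists_cell_of_pole (MvPolynomial.support_nonempty.1 hS) hnd h1 hp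

end MPb07157
end
end
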