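import Pool.Agent.Lib.MP_b07157_ag.GN.MainL
import Pool.Agent.Lib.MP_b07157_ag.PS.Facet

/-!
# The strong monodromy conjecture for generic coefficients (local version), when the noncompact
facets are compactly thick
-/

noncomputable section

namespace MPb07157

open MvPolynomial Finset GN

variable {n : ℕ}

/-- The root theorem for compactly thick facets, strong version. -/
theorem ThickC.root_strong {f : MvPolynomial (Fin n) ℂ} (hf : f ≠ 0)
    (halg : AlgebraicIndependent ℚ (cf f)) {w : Fin n → ℕ} {N : ℕ} (hN : 0 < N)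
    (hmin : ∀ v ∈ f.support, N ≤ wt w v) (h : ThickC f w N) {s₀ : ℚ}
    (hs : ((∑ j, w j : ℕ) : ℚ) = -s₀ * N) :
    StrongRoot f (s₀ : ℂ) := by
  classical
  obtain ⟨ω, Nω, ρ, hω, hωmin, hρ, hρω, hlin, hcard, hge⟩ := h
  intro b hb
  have hρf : ρ ⊆ f.support := fun v hv => (Finset.mem_filter.1 (hρ hv)).1
  have hcard' : Fintype.card {v // v ∈ ρ} = Module.finrank ℚ ({j // 0 < w j} → ℚ) := by
    rw [Module.finrank_fintype_fun_eq_card, ← hcard, Fintype.card_coe]
  -- there is an exponent with positive weight, so `w` is not zero and `ρ` is not empty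
  have hw : ∃ j, 0 < w j := by
    by_contra hcon
    push Not at hcon
    obtain ⟨v, hv⟩ := MvPolynomial.support_nonempty.2 hf
    have h1 := hmin v hv
    have h2 : wt w v = 0 := by
      unfold wt
      exact Finset.sum_eq_zero fun j _ => by rw [Nat.le_zero.1 (hcon j), zero_mul]
    omega
  have hJ : Nonempty {j // 0 < w j} := ⟨⟨hw.choose, hw.choose_spec⟩⟩
  have hρne : ρ.Nonempty := by
    rw [← Finset.card_pos, hcard]
    exact Fintype.card_pos
  have hρne' : Nonempty {v // v ∈ ρ} := ⟨⟨hρne.choose, hρne.choose_spec⟩⟩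
  let bas := basisOfLinearIndependentOfCardEqFinrank hlin hcard'
  have hbas : ∀ v, bas v = fun j : {j // 0 < w j} => ((v.1 j.1 : ℕ) : ℚ) := fun v => by
    simp [bas]
  have hNω : 0 < Nω := by
    obtain ⟨v, hv⟩ := hρne
    have h1 := (Finset.mem_filter.1 (hρω hv)).2
    rw [← h1]
    by_contra h2
    have h3 : wt ω v = 0 := by omega
    have h4 : ∀ j, v j = 0 := by
      intro j
      unfold wt at h3
      rw [Finset.sum_eq_zero_iff] at h3
      rcases Nat.mul_eq_zero.1 (h3 j (Finset.mem_univ j)) with h5 | h5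
      · exact absurd h5 (hω j).ne'
      · exact h5
    have h5 := (Finset.mem_filter.1 (hρ hv)).2
    unfold wt at h5
    rw [Finset.sum_eq_zero fun j _ => by rw [h4 j, mul_zero]] at h5
    omega
  -- coordinates
  let co : ({j // 0 < w j} → ℚ) → Sf f → ℚ := fun y v =>
    if h : v.1 ∈ ρ then bas.repr y ⟨v.1, h⟩ else 0
  have hco0 : ∀ y v, v.1 ∉ ρ → co y v = 0 := fun y v hv => dif_neg hv
  have hco : ∀ (y : {j // 0 < w j} → ℚ) (j : {j // 0 < w j}),
      ∑ v, co y v * ((v.1 j.1 : ℕ) : ℚ) = y j := by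
    intro y j
    have h1 := sum_ext_Sf ρ hρf (fun v => bas.repr y v) (fun v => ((v j.1 : ℕ) : ℚ))
    rw [show (∑ v, co y v * ((v.1 j.1 : ℕ) : ℚ)) = _ from h1]
    have h2 := congrFun (bas.sum_repr y) j
    rw [Finset.sum_apply] at h2
    rw [← h2]
    refine Finset.sum_congr rfl fun v _ => ?_
    rw [hbas]
    rfl
  let ρ' : Finset (Sf f) := (Finset.univ : Finset (Sf f)).filter (fun v => v.1 ∈ ρ)
  have hmem : ∀ v, v ∈ ρ' ↔ v.1 ∈ ρ := fun v => by simp [ρ']
  let γ : Sf f → ℚ := co fun _ => 1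
  have hγ0 : ∀ v, v ∉ ρ' → γ v = 0 := fun v hv => hco0 _ v fun h => hv ((hmem v).2 h)
  have hγ : ∀ j, 0 < w j → ∑ v, γ v * ((v.1 j : ℕ) : ℚ) = 1 := fun j hj => hco _ ⟨j, hj⟩
  have hρw : ∀ v ∈ ρ', wt w v.1 = N := fun v hv =>
    (Finset.mem_filter.1 (hρ ((hmem v).1 hv))).2
  have hsumρ : ∀ j, (∑ v : Sf f, if v.1 ∈ ρ then ((v.1 j : ℕ) : ℚ) else 0) =
      ((∑ v ∈ ρ, v j : ℕ) : ℚ) := by
    intro j
    rw [← Finset.sum_filter]
    have := sum_Sf f ρ hρf (fun v => ((v j : ℕ) : ℚ))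
    rw [this]
    push_cast
    rfl
  have := root_twin_strong hf halg hN hNω hmin hω hωmin.1
    (Finset.univ.filter fun j => 0 < w j) (fun j hj => by simpa using hj) ρ' hρw
    (fun v hv => (Finset.mem_filter.1 (hρω ((hmem v).1 hv))).2) ?_ γ hγ0
    (fun j hj => hγ j (Finset.mem_filter.1 hj).2) ?_ b hb
  · rw [← sum_coord hN ρ' hρw γ hγ0 hγ hs]
    exact_mod_cast this
  · -- independence
    intro g hg0 hg
    have h1 := Fintype.linearIndependent_iff.1 hlin
      (fun v => if h : v.1 ∈ f.support then g ⟨v.1, h⟩ else 0) (by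
        funext j
        have h2 := hg j.1
        rw [Finset.sum_apply]
        simp only [Pi.smul_apply, smul_eq_mul, Pi.zero_apply]
        refine Eq.trans ?_ h2
        rw [Finset.sum_coe_sort ρ (fun v => (if h : v ∈ f.support then g ⟨v, h⟩ else 0) *
          ((v j.1 : ℕ) : ℚ)), Finset.sum_subset hρf (fun v hv hvρ => by
            rw [dif_pos hv, hg0 ⟨v, hv⟩ (fun h => hvρ ((hmem _).1 h)), zero_mul]),
          ← Finset.sum_coe_sort f.support]
        refine Finset.sum_congr rfl fun v _ => ?_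
        rw [dif_pos v.2])
    funext v
    by_cases hv : v.1 ∈ ρ
    · have h3 := h1 ⟨v.1, hv⟩
      simp only at h3
      rw [dif_pos v.2] at h3
      exact h3
    · exact hg0 v fun h4 => hv ((hmem v).1 h4)
  · intro j hj'
    have hj : 0 < w j := (Finset.mem_filter.1 hj').2
    left
    by_contra hcon
    push Not at hcon
    have h1 : (∑ v : Sf f, if v.1 ∈ ρ then ((v.1 j : ℕ) : ℚ) else 0) ≤
        ∑ v, γ v * ((v.1 j : ℕ) : ℚ) := by
      refine Finset.sum_le_sum fun v _ => ?_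
      split_ifs with hv
      · rcases Nat.eq_zero_or_pos (v.1 j) with h0 | h0
        · rw [h0]; simp
        · have h2 : ∃ k : ℕ, γ v = k + 1 := by
            by_contra h3
            push Not at h3
            exact absurd (hcon v ((hmem v).2 hv) h3) (by omega)
          obtain ⟨k, hk⟩ := h2
          rw [hk]
          have h3 : (0 : ℚ) ≤ k := by positivity
          have h4 : (0 : ℚ) ≤ ((v.1 j : ℕ) : ℚ) := by positivity
          nlinarith
      · rw [hγ0 v fun h => hv ((hmem v).1 h)]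
        simp
    rw [hsumρ, hγ j hj] at h1
    have h2 : (2 : ℚ) ≤ ((∑ v ∈ ρ, v j : ℕ) : ℚ) := by exact_mod_cast hge j hj
    linarith

namespace GN

theorem thickC_congr {f g : MvPolynomial (Fin n) ℂ} (h : f.support = g.support) {w : Fin n → ℕ}
    {N : ℕ} (ht : ThickC f w N) : ThickC g w N := by
  obtain ⟨ω, Nω, ρ, h1, h2, h3, h4, h5⟩ := ht
  refine ⟨ω, Nω, ρ, h1, ?_, ?_, ?_, h5⟩
  · unfold IsMinWt at h2 ⊢
    rwa [← h]
  · unfold face at h3 ⊢
    rwa [← h]
  · unfold face at h4 ⊢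
    rwa [← h]

/-- **The strong monodromy conjecture (local motivic version) for generic coefficients, when each
noncompact facet with `|w| ≠ N` is compactly thick.** -/
theorem smc_generic_local_nc (g : MvPolynomial (Fin n) ℂ) (hg : g ≠ 0)
    (h0 : (0 : Fin n →₀ ℕ) ∉ g.support)
    (hnc : ∀ w N, IsFacetWt g w N → (∃ j, w j = 0) → ∑ j, w j ≠ N → ThickC g w N) :
    ∃ Δ : MvPolynomial {v : Fin n →₀ ℕ // v ∈ g.support} ℚ, Δ ≠ 0 ∧
      ∀ f : MvPolynomial (Fin n) ℂ, f.support = g.support → evc g.support f Δ ≠ 0 → ∀ s₀ : ℚ,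
        IsPole (Zmot0 f) s₀ → IsLocalBernsteinSatoRoot f s₀ := by
  have hS := MvPolynomial.support_nonempty.2 hg
  obtain ⟨Δ₁, hΔ₁, h1⟩ := exists_Δ_root g.support hS
  obtain ⟨Δ₂, hΔ₂, h2⟩ := exists_Δ_nondeg_all g.support
  obtain ⟨f₁, hf₁, halg⟩ := exists_algInd g.support
  refine ⟨Δ₁ * Δ₂, mul_ne_zero hΔ₁ hΔ₂, fun f hf hΔ s₀ hp => ?_⟩
  rw [map_mul] at hΔ
  have hf0 : f ≠ 0 := by
    rw [← MvPolynomial.support_nonempty, hf]
    exact hS
  have hf₁0 : f₁ ≠ 0 := by
    rw [← MvPolynomial.support_nonempty, hf₁]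
    exact hS
  by_cases hs : s₀ = -1
  · subst hs
    exact (roots_of_form (f := f) (s₀ := -1) fun b hb =>
      neg_one_root hf0 (by rwa [hf]) b hb).2
  obtain ⟨k, hk, hgd⟩ := exists_good_of_pole_local hf0 (h2 f hf (right_ne_zero_of_mul hΔ)) hs hp
  have hs' : f.support = f₁.support := hf.trans hf₁.symm
  obtain ⟨ρ, γ, hg'⟩ := goodSet_congr hs' hgd
  have halg' : AlgebraicIndependent ℚ (cf f₁) := by
    rw [← hf₁] at halg
    exact halg
  have hk' := isB_congr hs' hk
  refine StrongRoot.local ((h1 f f₁ hf hf₁ (left_ne_zero_of_mul hΔ) halg).2 s₀ ?_)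
  by_cases hkp : ∀ j, 0 < k.1 j
  · exact root_strong hf₁0 halg' hk' hkp hg'
  · push Not at hkp
    obtain ⟨j, hj⟩ := hkp
    have hj0 : k.1 j = 0 := le_antisymm hj (hk.mem.1 j)
    obtain ⟨w, N, hfac, hw0, hsw⟩ := hk'.exists_facet hf₁0
    have hfacg : IsFacetWt g w N := by
      unfold IsFacetWt IsMinWt face at hfac ⊢
      rwa [hf₁] at hfac
    refine ThickC.root_strong hf₁0 halg' hfac.2.1 hfac.1.1
      (thickC_congr hf₁.symm (hnc w N hfacg ⟨j, hw0 j hj0⟩ ?_)) hsw
    intro h2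
    rw [h2] at hsw
    apply hs
    have h3 : (0 : ℚ) < N := by exact_mod_cast hfac.2.1
    have h4 : (N : ℚ) * (1 + s₀) = 0 := by linarith
    rcases mul_eq_zero.1 h4 with h5 | h5
    · exact absurd h5 h3.ne'
    · linarith

end GN

end MPb07157
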